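import Pool.Agent.TORE.Chart

/-! The coordinate ring of an affine open subset, inside the function field of the generic fibre. -/

namespace Pool.Agent.TORE

open AlgebraicGeometry CategoryTheory Limits

universe u

open scoped TensorProduct

/-- the field of fractions of a domain as the local ring at the generic point -/
theorem G2_phi {D : Type u} [CommRing D] [IsDomain D] {Z : Scheme.{u}}
    (c : Spec (CommRingCat.of D) ⟶ Z) [IsOpenImmersion c] (z : Z)
    (hz : c (genericPoint (Spec (CommRingCat.of D))) = z) :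
    ∃ φ : D →+* Z.presheaf.stalk z, Spec.map (CommRingCat.ofHom φ) ≫ c = Z.fromSpecStalk z ∧
      Function.Injective φ ∧
      ∀ w : Z.presheaf.stalk z, ∃ x y : D, y ≠ 0 ∧ w * φ y = φ x := by
  subst hz
  let x := genericPoint (Spec (CommRingCat.of D))
  let ψ : CommRingCat.of D ⟶ (Spec (CommRingCat.of D)).presheaf.stalk x :=
    StructureSheaf.toStalk (CommRingCat.of D) x
  have hψ : Spec.map ψ = (Spec (CommRingCat.of D)).fromSpecStalk x :=
    (Spec.fromSpecStalk_eq' (CommRingCat.of D) x).symm
  let φ : CommRingCat.of D ⟶ Z.presheaf.stalk (c x) := ψ ≫ inv (c.stalkMap x)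
  have hD : IsDomain (CommRingCat.of D) := ‹IsDomain D›
  let _ : Algebra D (Spec (CommRingCat.of D)).functionField :=
    instAlgebraCarrierFunctionFieldSpec (CommRingCat.of D)
  have hfr : IsFractionRing D (Spec (CommRingCat.of D)).functionField :=
    functionField_isFractionRing_of_affine (CommRingCat.of D)
  have hal : ∀ a : D, algebraMap D (Spec (CommRingCat.of D)).functionField a = ψ.hom a :=
    fun a => rfl
  have hφ : ∀ a : D, (c.stalkMap x).hom (φ.hom a) = ψ.hom a := by
    intro a
    have h1 : φ ≫ c.stalkMap x = ψ := by simp [φ]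
    have h2 := congrArg (fun f => f.hom a) h1
    simpa using h2
  have hbij : Function.Bijective (c.stalkMap x).hom := ConcreteCategory.bijective_of_isIso _
  refine ⟨φ.hom, ?_, ?_, ?_⟩
  · change Spec.map φ ≫ c = _
    rw [Spec.map_comp, Category.assoc, hψ, ← Scheme.SpecMap_stalkMap_fromSpecStalk,
      ← Spec.map_comp_assoc, IsIso.hom_inv_id, Spec.map_id, Category.id_comp]
  · intro a b hab
    have h1 : ψ.hom a = ψ.hom b := by rw [← hφ, ← hφ, hab]
    exact IsFractionRing.injective D (Spec (CommRingCat.of D)).functionField h1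
  · intro w
    obtain ⟨a, b, hb, hab⟩ := IsFractionRing.div_surjective (A := D)
      ((c.stalkMap x).hom w : (Spec (CommRingCat.of D)).functionField)
    refine ⟨a, b, nonZeroDivisors.ne_zero hb, ?_⟩
    apply hbij.1
    rw [map_mul, hφ, hφ, ← hal, ← hal, ← hab]
    exact div_mul_cancel₀ _ (by simpa using nonZeroDivisors.ne_zero hb)

theorem G2_flat {B : Type u} [CommRing B] {Y : Scheme.{u}} (π : Y ⟶ Spec (CommRingCat.of B))
    [Flat π] (V : Y.Opens) (hV : IsAffineOpen V) [Algebra B Γ(Y, V)]
    (halg : algebraMap B Γ(Y, V) =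
      ((Scheme.ΓSpecIso (CommRingCat.of B)).inv ≫ π.appLE ⊤ V le_top).hom) :
    Module.Flat B Γ(Y, V) := by
  rw [← RingHom.flat_algebraMap_iff, halg, CommRingCat.hom_comp]
  exact RingHom.Flat.comp (RingHom.Flat.of_bijective (ConcreteCategory.bijective_of_isIso _))
    (Flat.flat_appLE π (isAffineOpen_top _) hV _)

/-- Proof. The inverse image `W` of `V = Spec C` in `Z = fib π (algebraMap B F)` is affine, isomorphic
over `Spec F` to `Spec (F ⊗_B C)` (`pullbackSpecIso`), and nonempty (`C` is a nonzero flat module over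
the domain `B`, so it is contained in `F ⊗_B C`). The stalk of `Z` at the generic point is the fraction
field of `Γ(Z, W)` (`functionField_isFractionRing_of_isAffineOpen`). Transport along the isomorphism
`e` of `PureOver`. -/
theorem G2 {B : Type u} [CommRing B] [IsDomain B] {Y : Scheme.{u}} (π : Y ⟶ Spec (CommRingCat.of B))
    [Flat π] {F : Type u} [Field F] [Algebra B F] (hi : Function.Injective (algebraMap B F))
    [IsIntegral (fib π (algebraMap B F))] (d : ℕ) (hd : PureOver (fibHom π (algebraMap B F)) d)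
    (V : Y.Opens) (hV : IsAffineOpen V) (hne : (V : Set Y).Nonempty) [Algebra B Γ(Y, V)]
    (halg : algebraMap B Γ(Y, V) =
      ((Scheme.ΓSpecIso (CommRingCat.of B)).inv ≫ π.appLE ⊤ V le_top).hom) :
    ∃ j : Γ(Y, V) →ₐ[B] RatFun F d, FracData (F := F) j := by
  obtain ⟨c, hc, hc1, hc2, hc3⟩ := chart π V hV halg F
  have hfl : Module.Flat B Γ(Y, V) := G2_flat π V hV halg
  have hinj : Function.Injective
      (Algebra.TensorProduct.includeRight : Γ(Y, V) →ₐ[B] F ⊗[B] Γ(Y, V)) :=
    Algebra.TensorProduct.includeRight_injective hi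
  have : Nonempty V := hne.to_subtype
  have : Nontrivial Γ(Y, V) := inferInstance
  have : Nontrivial (F ⊗[B] Γ(Y, V)) := hinj.nontrivial
  have hne' : Nonempty (Spec (CommRingCat.of (F ⊗[B] Γ(Y, V)))) :=
    inferInstanceAs (Nonempty (PrimeSpectrum (F ⊗[B] Γ(Y, V))))
  have hI : IsIntegral (Spec (CommRingCat.of (F ⊗[B] Γ(Y, V)))) :=
    isIntegral_of_isOpenImmersion c
  have : IsDomain (F ⊗[B] Γ(Y, V)) := (affine_isIntegral_iff _).mp hI
  obtain ⟨φ, hφ1, hφ2, hφ3⟩ := G2_phi c (genericPoint (fib π (algebraMap B F)))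
    (genericPoint_eq_of_isOpenImmersion c)
  obtain ⟨e, he⟩ := hd
  have hF : ∀ a : F, φ (algebraMap F (F ⊗[B] Γ(Y, V)) a) = e (algebraMap F (RatFun F d) a) := by
    have h1 : Spec.map (CommRingCat.ofHom (φ.comp (algebraMap F (F ⊗[B] Γ(Y, V))))) =
        Spec.map (CommRingCat.ofHom (e.toRingHom.comp (algebraMap F (RatFun F d)))) := by
      rw [← he, ← hφ1, Category.assoc, hc1, ← Spec.map_comp]
      rfl
    have h2 := Spec.map_injective h1
    intro a
    exact congrArg (fun f => f.hom a) h2
  let j' : F ⊗[B] Γ(Y, V) →+* RatFun F d := e.symm.toRingHom.comp φ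
  have hj' : ∀ a : F, j' (algebraMap F (F ⊗[B] Γ(Y, V)) a) = algebraMap F (RatFun F d) a := by
    intro a
    change e.symm (φ _) = _
    rw [hF, RingEquiv.symm_apply_apply]
  let j : Γ(Y, V) →ₐ[B] RatFun F d :=
    { j'.comp (Algebra.TensorProduct.includeRight :
        Γ(Y, V) →ₐ[B] F ⊗[B] Γ(Y, V)).toRingHom with
      commutes' := by
        intro b
        change j' ((Algebra.TensorProduct.includeRight :
          Γ(Y, V) →ₐ[B] F ⊗[B] Γ(Y, V)) (algebraMap B Γ(Y, V) b)) = _
        rw [AlgHom.commutes, IsScalarTower.algebraMap_apply B F (F ⊗[B] Γ(Y, V)), hj',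
          ← IsScalarTower.algebraMap_apply B F (RatFun F d)] }
  have hjj : ∀ w : F ⊗[B] Γ(Y, V), jF (F := F) j w = j' w := by
    intro w
    induction w using TensorProduct.induction_on with
    | zero => rw [map_zero, map_zero]
    | add x y hx hy => rw [map_add, map_add, hx, hy]
    | tmul a x =>
      have h1 : a ⊗ₜ[B] x = (algebraMap F (F ⊗[B] Γ(Y, V)) a) *
          (Algebra.TensorProduct.includeRight : Γ(Y, V) →ₐ[B] F ⊗[B] Γ(Y, V)) x := by
        simp [Algebra.TensorProduct.algebraMap_apply]
      rw [h1, map_mul, map_mul, AlgHom.commutes, hj']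
      congr 1
      simp only [jF, Algebra.TensorProduct.includeRight_apply, Algebra.TensorProduct.lift_tmul,
        map_one, one_mul]
      rfl
  refine ⟨j, ⟨?_, ?_⟩⟩
  · intro x y hxy
    rw [hjj, hjj] at hxy
    exact hφ2 (e.symm.injective hxy)
  · intro z
    obtain ⟨x, y, hy, hxy⟩ := hφ3 (e z)
    refine ⟨x, y, ?_, ?_⟩
    · rw [hjj]
      intro h0
      apply hy
      apply hφ2
      apply e.symm.injective
      change j' y = e.symm (φ 0)
      rw [h0, map_zero, map_zero]
    · rw [hjj, hjj]
      apply e.injective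
      change e (z * e.symm (φ y)) = e (e.symm (φ x))
      rw [map_mul, RingEquiv.apply_symm_apply, RingEquiv.apply_symm_apply, hxy]

end Pool.Agent.TORE
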