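import Mathlib

/-! Rational varieties. -/

namespace Pool.Agent.TORE

open AlgebraicGeometry CategoryTheory Limits TensorProduct

universe u

/-- `Y` is rational over the field `L` via `f : Y ⟶ Spec L`: it is birational over `L` to an affine
space of finite dimension. -/
def RatOver {L : Type u} [Field L] {Y : Scheme.{u}} (f : Y ⟶ Spec (CommRingCat.of L)) : Prop :=
  ∃ (n : Type u) (_ : Finite n),
    Scheme.BirationalOver f (𝔸(n; Spec (CommRingCat.of L)) ↘ Spec (CommRingCat.of L))

/-- The base change of `f : Y ⟶ Spec A` to a point `x : A → L`. -/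
noncomputable abbrev fib {A : Type u} [CommRing A] {Y : Scheme.{u}} (f : Y ⟶ Spec (CommRingCat.of A))
    {L : Type u} [CommRing L] (x : A →+* L) : Scheme.{u} :=
  pullback f (Spec.map (CommRingCat.ofHom x))

/-- The projection to `Spec L`. -/
noncomputable abbrev fibHom {A : Type u} [CommRing A] {Y : Scheme.{u}}
    (f : Y ⟶ Spec (CommRingCat.of A)) {L : Type u} [CommRing L] (x : A →+* L) :
    fib f x ⟶ Spec (CommRingCat.of L) :=
  pullback.snd f (Spec.map (CommRingCat.ofHom x))

/-- The projection to `Y`. -/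
noncomputable abbrev fibProj {A : Type u} [CommRing A] {Y : Scheme.{u}}
    (f : Y ⟶ Spec (CommRingCat.of A)) {L : Type u} [CommRing L] (x : A →+* L) :
    fib f x ⟶ Y :=
  pullback.fst f (Spec.map (CommRingCat.ofHom x))

/-- The field `F(X_1, ..., X_d)`. -/
abbrev RatFun (F : Type u) [Field F] (d : ℕ) : Type u := FractionRing (MvPolynomial (Fin d) F)

/-- The function field of the integral `F`-scheme `Z` is purely transcendental of degree `d` over
`F`, as an extension of `F`. -/
def PureOver {F : Type u} [Field F] {Z : Scheme.{u}} [IsIntegral Z]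
    (f : Z ⟶ Spec (CommRingCat.of F)) (d : ℕ) : Prop :=
  ∃ e : RatFun F d ≃+* Z.functionField,
    Z.fromSpecStalk (genericPoint Z) ≫ f =
      Spec.map (CommRingCat.ofHom (e.toRingHom.comp (algebraMap F (RatFun F d))))

/-- The homomorphism `F ⊗_B C → κ`, `a ⊗ c ↦ a j(c)`. -/
noncomputable def jF {B F C κ : Type u} [CommRing B] [CommRing C] [Algebra B C] [Field F]
    [Algebra B F] [Field κ] [Algebra F κ] [Algebra B κ] [IsScalarTower B F κ] (j : C →ₐ[B] κ) :
    F ⊗[B] C →ₐ[F] κ :=
  Algebra.TensorProduct.lift (Algebra.ofId F κ) j fun _ _ => Commute.all _ _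

/-- The homomorphism `F ⊗_B C → κ` is injective and `κ` is the field of fractions of `F ⊗_B C`. -/
structure FracData {B F C κ : Type u} [CommRing B] [CommRing C] [Algebra B C] [Field F]
    [Algebra B F] [Field κ] [Algebra F κ] [Algebra B κ] [IsScalarTower B F κ] (j : C →ₐ[B] κ) :
    Prop where
  inj : Function.Injective (jF (F := F) j)
  frac : ∀ z : κ, ∃ x y : F ⊗[B] C, jF j y ≠ 0 ∧ z * jF j y = jF j x

end Pool.Agent.TORE
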