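import Pool.Agent.TD.FF
import Pool.Agent.TORE.GDefs

/-! Comparison of two descriptions of purely transcendental extensions. -/

namespace Pool.Agent.TORE

open AlgebraicGeometry CategoryTheory Limits

universe u

theorem toFF_spec {R : Type u} [CommRing R] {X : Scheme.{u}} (f : X ⟶ Spec (.of R))
    [AlgebraicGeometry.IsIntegral X] :
    X.fromSpecStalk (genericPoint X) ≫ f = Spec.map (CommRingCat.ofHom (TOD.toFF f)) := by
  apply ext_of_isAffine
  rw [Scheme.Hom.comp_appTop, Scheme.fromSpecStalk_appTop, TOD.toFF, CommRingCat.ofHom_hom]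
  have := Scheme.ΓSpecIso_naturality
    ((Scheme.ΓSpecIso (.of R)).inv ≫ f.appTop ≫ X.presheaf.germ ⊤ (genericPoint X) trivial)
  rw [Iso.hom_inv_id_assoc] at this
  have h2 := (Iso.eq_comp_inv (Scheme.ΓSpecIso (X.presheaf.stalk (genericPoint X)))).2 this
  rw [h2]
  simp

attribute [local instance] MvPolynomial.algebraMvPolynomial in
theorem ratFunEquiv {R κ : Type u} [CommRing R] [IsDomain R] [Field κ] [Algebra R κ] {d : ℕ}
    (y : Fin d → κ) (hy : AlgebraicIndependent R y)
    (h : ∀ x : κ, ∃ p q : MvPolynomial (Fin d) R, MvPolynomial.aeval y q ≠ 0 ∧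
      x = MvPolynomial.aeval y p / MvPolynomial.aeval y q) :
    ∃ e : RatFun (FractionRing R) d ≃+* κ,
      (e.toRingHom.comp (algebraMap (FractionRing R) (RatFun (FractionRing R) d))).comp
        (algebraMap R (FractionRing R)) = algebraMap R κ := by
  have hinj : Function.Injective (algebraMap R κ) := hy.algebraMap_injective
  let F := FractionRing R
  let algF : Algebra F κ := (IsFractionRing.lift hinj).toAlgebra
  have ht : IsScalarTower R F κ :=
    IsScalarTower.of_algebraMap_eq fun r => (IsFractionRing.lift_algebraMap hinj r).symm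
  let algR : Algebra (MvPolynomial (Fin d) R) κ := (MvPolynomial.aeval y).toRingHom.toAlgebra
  let algFd : Algebra (MvPolynomial (Fin d) F) κ := (MvPolynomial.aeval y).toRingHom.toAlgebra
  have htd : IsScalarTower (MvPolynomial (Fin d) R) (MvPolynomial (Fin d) F) κ := by
    refine IsScalarTower.of_algebraMap_eq fun p => ?_
    change MvPolynomial.aeval y p = MvPolynomial.aeval y (MvPolynomial.map (algebraMap R F) p)
    rw [MvPolynomial.aeval_map_algebraMap]
  have h1 : Function.Injective (algebraMap (MvPolynomial (Fin d) R) κ) := hy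
  have h2 : IsFractionRing (MvPolynomial (Fin d) R) κ := by
    have : FaithfulSMul (MvPolynomial (Fin d) R) κ := (faithfulSMul_iff_algebraMap_injective _ _).2 h1
    refine IsFractionRing.of_field _ _ fun x => ?_
    obtain ⟨p, q, hq, hx⟩ := h x
    exact ⟨p, q, hx⟩
  have h3 : IsFractionRing (MvPolynomial (Fin d) F) κ :=
    IsFractionRing.isFractionRing_of_isDomain_of_isLocalization
      ((nonZeroDivisors R).map (MvPolynomial.C (σ := Fin d))) _ _
  let e := FractionRing.algEquiv (MvPolynomial (Fin d) F) κ
  refine ⟨e.toRingEquiv, RingHom.ext fun r => ?_⟩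
  change e (algebraMap F (RatFun F d) (algebraMap R F r)) = _
  rw [IsScalarTower.algebraMap_apply F (MvPolynomial (Fin d) F) (RatFun F d), e.commutes]
  change MvPolynomial.aeval y (algebraMap F (MvPolynomial (Fin d) F) (algebraMap R F r)) = _
  rw [AlgHom.commutes, ← IsScalarTower.algebraMap_apply]

end Pool.Agent.TORE
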