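import Pool.Agent.TORE.E6

/-! Arcs: for a point `s : Spec K → S` of an irreducible scheme locally of finite type over a field of
characteristic zero, `K` algebraically closed, there is `g : Spec R → S`, `R` a complete discrete
valuation ring with residue field `K`, such that `s` is the restriction of `g` to the closed point and
`g` maps the generic point to the generic point of `S`. -/

namespace Pool.Agent.TORE

open AlgebraicGeometry CategoryTheory

universe u

/-- Reduction to the affine case. Let `V = Spec A` be an affine open subset of `S` which contains the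
image of `s`; it is irreducible, so the nilradical of `A` is prime; `s` factors through `V`
(`IsOpenImmersion.lift`), `A` is a `k`-algebra of finite type (`LocallyOfFiniteType`). The algebra
structure of `K` over `k` is `k → A → K`. The ring homomorphism `ψ : A → R` of `E6` has kernel the
nilradical, so the generic point of `Spec R` goes to the generic point of `Spec A`, which goes to the
generic point of `S` (`genericPoint_eq_of_isOpenImmersion` or the specialisation order). -/
theorem arc {k : Type u} [Field k] [CharZero k] {S : Scheme.{u}} [IrreducibleSpace S]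
    (sS : S ⟶ Spec (CommRingCat.of k)) [LocallyOfFiniteType sS] {K : Type u} [Field K] [IsAlgClosed K]
    (s : Spec (CommRingCat.of K) ⟶ S) :
    ∃ (R : Type u) (_ : CommRing R) (_ : Algebra K R) (ρ : R →ₐ[K] K)
      (g : Spec (CommRingCat.of R) ⟶ S),
      ArcRing K R ρ ∧ Spec.map (CommRingCat.ofHom ρ.toRingHom) ≫ g = s ∧
      ∀ p : Spec (CommRingCat.of R), PrimeSpectrum.asIdeal p = ⊥ → closure {g p} = Set.univ := by
  obtain ⟨p₀⟩ : Nonempty (Spec (CommRingCat.of K)) := inferInstance
  obtain ⟨V, hV, hx, -⟩ := exists_isAffineOpen_mem_and_subset (x := s p₀) (U := ⊤) trivial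
  have hVd : Dense (V : Set S) := V.2.dense ⟨_, hx⟩
  -- `s` factors through `V`
  have h1 : Set.range s ⊆ Set.range hV.fromSpec := by
    rintro _ ⟨p, rfl⟩
    rw [hV.range_fromSpec]
    have : Subsingleton (PrimeSpectrum K) := inferInstance
    have h2 : p = p₀ := Subsingleton.elim (α := PrimeSpectrum K) p p₀
    rw [h2]
    exact hx
  let y := IsOpenImmersion.lift hV.fromSpec s h1
  have hy : y ≫ hV.fromSpec = s := IsOpenImmersion.lift_fac _ _ _
  let s₀ : Γ(S, V) ⟶ CommRingCat.of K := Spec.preimage y
  have h2 : Spec.map s₀ = y := Spec.map_preimage y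
  -- the algebra structures
  let A : Type u := Γ(S, V)
  let alg : Algebra k A :=
    ((Scheme.ΓSpecIso (CommRingCat.of k)).inv ≫ sS.appLE ⊤ V le_top).hom.toAlgebra
  have hft : (algebraMap k A).FiniteType := by
    have h3 := sS.finiteType_appLE (isAffineOpen_top _) hV (le_top : V ≤ sS ⁻¹ᵁ ⊤)
    exact (RingHom.finiteType_isLocal.respectsIso.cancel_left_isIso _ _).2 h3
  have : Algebra.FiniteType k A := (RingHom.finiteType_algebraMap).1 hft
  have hA : (nilradical A).IsPrime := by
    rw [← PrimeSpectrum.irreducibleSpace_iff_isPrime_nilradical]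
    have h4 : Topology.IsOpenEmbedding hV.fromSpec := hV.fromSpec.isOpenEmbedding
    have h5 : (Set.range hV.fromSpec).Nonempty := by
      rw [hV.range_fromSpec]
      exact ⟨_, hx⟩
    have : Nonempty (Spec Γ(S, V)) := by
      obtain ⟨_, q, -⟩ := h5
      exact ⟨q⟩
    exact h4.irreducibleSpace
  let algK : Algebra k K := (s₀.hom.comp (algebraMap k A)).toAlgebra
  have : CharZero K := charZero_of_injective_ringHom (algebraMap k K).injective
  let s' : A →ₐ[k] K := { s₀.hom with commutes' := fun _ => rfl }
  obtain ⟨R, _, _, ρ, ψ, hR, hker, hρ, -⟩ := E6 hA s'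
  refine ⟨R, _, _, ρ, Spec.map (CommRingCat.ofHom ψ) ≫ hV.fromSpec, hR, ?_, fun p hp => ?_⟩
  · rw [← Category.assoc, ← Spec.map_comp, ← hy, ← h2]
    congr 2
    ext a
    exact hρ a
  · let q : Spec Γ(S, V) := Spec.map (CommRingCat.ofHom ψ) p
    have h3 : q.asIdeal = nilradical A := by
      have : q.asIdeal = p.asIdeal.comap ψ := rfl
      rw [this, hp, ← hker]
      rfl
    have h4 : (Spec.map (CommRingCat.ofHom ψ) ≫ hV.fromSpec) p = hV.fromSpec q := by simp [q]
    have h5 : closure ({q} : Set (Spec Γ(S, V))) = Set.univ := by
      have h5 : ∀ r : PrimeSpectrum A, r.asIdeal = nilradical A →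
          closure ({r} : Set (PrimeSpectrum A)) = Set.univ := fun r hr => by
        rw [PrimeSpectrum.closure_singleton, hr, PrimeSpectrum.zeroLocus_nilradical]
      exact h5 q h3
    have h6 : (V : Set S) ⊆ closure {hV.fromSpec q} := by
      rw [← hV.range_fromSpec, ← Set.image_univ, ← h5]
      refine (image_closure_subset_closure_image hV.fromSpec.continuous).trans ?_
      rw [Set.image_singleton]
    rw [h4, Set.eq_univ_iff_forall]
    intro v
    have h7 := hVd v
    exact closure_minimal h6 isClosed_closure h7

end Pool.Agent.TORE
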