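import Pool.Agent.TORE.G6d

/-! The generic fibre of an integral scheme over a discrete valuation ring. -/

namespace Pool.Agent.TORE

open AlgebraicGeometry CategoryTheory Limits

universe u

/-- the field of fractions of a discrete valuation ring is a localisation away from an element -/
theorem G0_away {R : Type u} [CommRing R] [IsDomain R] [IsDiscreteValuationRing R] {ϖ : R}
    (hϖ : Irreducible ϖ) : IsLocalization.Away ϖ (FractionRing R) := by
  have hinj : Function.Injective (algebraMap R (FractionRing R)) :=
    IsFractionRing.injective R (FractionRing R)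
  have h0 : algebraMap R (FractionRing R) ϖ ≠ 0 := by
    rw [Ne, ← map_zero (algebraMap R (FractionRing R)), hinj.eq_iff]
    exact hϖ.ne_zero
  refine ⟨?_, ?_, ?_⟩
  · rintro ⟨_, n, rfl⟩
    simp only [map_pow]
    exact (isUnit_iff_ne_zero.mpr h0).pow n
  · intro z
    obtain ⟨a, b, hb, rfl⟩ := IsFractionRing.div_surjective (A := R) z
    have hb0 : b ≠ 0 := nonZeroDivisors.ne_zero hb
    obtain ⟨n, v, hv⟩ := IsDiscreteValuationRing.eq_unit_mul_pow_irreducible hb0 hϖ
    refine ⟨(a * (v⁻¹ : Rˣ), ⟨ϖ ^ n, n, rfl⟩), ?_⟩
    have hb1 : algebraMap R (FractionRing R) b ≠ 0 := by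
      rw [Ne, ← map_zero (algebraMap R (FractionRing R)), hinj.eq_iff]
      exact hb0
    rw [div_mul_eq_mul_div, div_eq_iff hb1]
    simp only [← map_mul]
    congr 1
    rw [hv]
    have : (v⁻¹ : Rˣ) * (v : R) = 1 := Units.inv_mul v
    calc a * ϖ ^ n = a * ((v⁻¹ : Rˣ) * (v : R)) * ϖ ^ n := by rw [this, mul_one]
      _ = a * (v⁻¹ : Rˣ) * (v * ϖ ^ n) := by ring
  · intro x y hxy
    exact ⟨1, by rw [hinj hxy]⟩

/-- an open immersion induces isomorphisms of the local rings -/
theorem G0_stalk {Z Y : Scheme.{u}} (g : Z ⟶ Y) [IsOpenImmersion g] (z : Z) (y : Y)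
    (hy : g z = y) :
    ∃ s : Y.presheaf.stalk y ≃+* Z.presheaf.stalk z,
      Z.fromSpecStalk z ≫ g = Spec.map (CommRingCat.ofHom s.toRingHom) ≫ Y.fromSpecStalk y := by
  subst hy
  exact ⟨(asIso (g.stalkMap z)).commRingCatIsoToRingEquiv,
    (Scheme.SpecMap_stalkMap_fromSpecStalk g (x := z)).symm⟩

/-- `F = Frac R` is the localisation of `R` away from a uniformiser, so `Spec F → Spec R` is an open
immersion, and the generic fibre is a nonempty open subscheme of `Y` (it contains the generic point of
`Y`: the ring homomorphism from `R` to the function field is injective by `he`). An open immersion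
induces an isomorphism of the function fields
(`genericPoint_eq_of_isOpenImmersion`, stalks). -/
theorem G0 {R : Type u} [CommRing R] [IsDomain R] [IsDiscreteValuationRing R] {Y : Scheme.{u}}
    [IsIntegral Y] (f : Y ⟶ Spec (CommRingCat.of R)) (d : ℕ)
    (e : RatFun (FractionRing R) d ≃+* Y.functionField)
    (he : Y.fromSpecStalk (genericPoint Y) ≫ f =
      Spec.map (CommRingCat.ofHom ((e.toRingHom.comp
        (algebraMap (FractionRing R) (RatFun (FractionRing R) d))).comp
        (algebraMap R (FractionRing R))))) :
    ∃ _ : IsIntegral (fib f (algebraMap R (FractionRing R))),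
      PureOver (fibHom f (algebraMap R (FractionRing R))) d := by
  obtain ⟨ϖ, hϖ⟩ := IsDiscreteValuationRing.exists_irreducible R
  have := G0_away hϖ
  have hop : IsOpenImmersion (Spec.map (CommRingCat.ofHom (algebraMap R (FractionRing R)))) :=
    IsOpenImmersion.of_isLocalization ϖ
  have hop1 : IsOpenImmersion (fibProj f (algebraMap R (FractionRing R))) := inferInstance
  let l : Spec (Y.presheaf.stalk (genericPoint Y)) ⟶ fib f (algebraMap R (FractionRing R)) :=
    pullback.lift (Y.fromSpecStalk (genericPoint Y)) (Spec.map (CommRingCat.ofHom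
      (e.toRingHom.comp (algebraMap (FractionRing R) (RatFun (FractionRing R) d)))))
      (by rw [he, ← Spec.map_comp]; rfl)
  have hne : Nonempty (fib f (algebraMap R (FractionRing R))) := by
    have : Nonempty (Spec (Y.presheaf.stalk (genericPoint Y))) :=
      inferInstanceAs (Nonempty (PrimeSpectrum (Y.presheaf.stalk (genericPoint Y))))
    exact ⟨l this.some⟩
  have hint : IsIntegral (fib f (algebraMap R (FractionRing R))) :=
    isIntegral_of_isOpenImmersion (fibProj f (algebraMap R (FractionRing R)))
  refine ⟨hint, ?_⟩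
  obtain ⟨s, hs⟩ := G0_stalk (fibProj f (algebraMap R (FractionRing R)))
    (genericPoint (fib f (algebraMap R (FractionRing R)))) (genericPoint Y)
    (genericPoint_eq_of_isOpenImmersion _)
  refine ⟨e.trans s, ?_⟩
  rw [← cancel_mono (Spec.map (CommRingCat.ofHom (algebraMap R (FractionRing R)))),
    Category.assoc, ← pullback.condition, ← Category.assoc]
  change (Scheme.fromSpecStalk _ _ ≫ fibProj f (algebraMap R (FractionRing R))) ≫ f = _
  rw [hs, Category.assoc, he, ← Spec.map_comp, ← Spec.map_comp]
  rfl

end Pool.Agent.TORE
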