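import Pool.Agent.TORE.G6

/-! Spreading out over an irreducible base scheme. -/

namespace Pool.Agent.TORE

open AlgebraicGeometry CategoryTheory Limits

universe u

theorem G7_isIntegral_of_iso {Y Z : Scheme.{u}} (e : Y ≅ Z) [AlgebraicGeometry.IsIntegral Z] :
    AlgebraicGeometry.IsIntegral Y :=
  haveI : Nonempty Y := ⟨e.inv (Classical.arbitrary Z)⟩
  isIntegral_of_isOpenImmersion e.hom

/-- the morphism `Spec (Γ(S, V) / nilradical) ⟶ S` -/
noncomputable def G7_i {S : Scheme.{u}} {V : S.Opens} (hV : IsAffineOpen V) :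
    Spec (CommRingCat.of (Γ(S, V) ⧸ nilradical Γ(S, V))) ⟶ S :=
  Spec.map (CommRingCat.ofHom (Ideal.Quotient.mk (nilradical Γ(S, V)))) ≫ hV.fromSpec

/-- a point with values in a field and with image in the affine open set `V` -/
theorem G7_factor {S : Scheme.{u}} {V : S.Opens} (hV : IsAffineOpen V) {F : Type u} [Field F]
    (x : Spec (CommRingCat.of F) ⟶ S) (hx : ∀ p, x p ∈ V) :
    ∃ ψ : (Γ(S, V) ⧸ nilradical Γ(S, V)) →+* F,
      x = Spec.map (CommRingCat.ofHom ψ) ≫ G7_i hV := by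
  have h1 : Set.range x ⊆ Set.range hV.fromSpec := by
    rintro _ ⟨p, rfl⟩
    rw [hV.range_fromSpec]
    exact hx p
  let y := IsOpenImmersion.lift hV.fromSpec x h1
  have hy : y ≫ hV.fromSpec = x := IsOpenImmersion.lift_fac _ _ _
  let ψ₀ : Γ(S, V) ⟶ CommRingCat.of F := Spec.preimage y
  have h2 : Spec.map ψ₀ = y := Spec.map_preimage y
  have h3 : ∀ a ∈ nilradical Γ(S, V), ψ₀.hom a = 0 := fun a ha =>
    (IsNilpotent.map (mem_nilradical.1 ha) ψ₀.hom).eq_zero
  refine ⟨Ideal.Quotient.lift _ ψ₀.hom h3, ?_⟩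
  rw [G7_i, ← Category.assoc, ← Spec.map_comp, ← hy, ← h2]
  congr 2

/-- membership in a basic open subset of `V` -/
theorem G7_mem {S : Scheme.{u}} {V : S.Opens} (hV : IsAffineOpen V) {F : Type u} [Field F]
    (ψ : (Γ(S, V) ⧸ nilradical Γ(S, V)) →+* F) (p : Spec (CommRingCat.of F)) (a : Γ(S, V)) :
    (Spec.map (CommRingCat.ofHom ψ) ≫ G7_i hV) p ∈ S.basicOpen a ↔
      ψ (Ideal.Quotient.mk _ a) ≠ 0 := by
  let q : Spec Γ(S, V) := Spec.map (CommRingCat.ofHom (Ideal.Quotient.mk (nilradical Γ(S, V))))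
    (Spec.map (CommRingCat.ofHom ψ) p)
  have h1 : (Spec.map (CommRingCat.ofHom ψ) ≫ G7_i hV) p = hV.fromSpec q := by
    simp [G7_i, q]
  have h2 : hV.fromSpec q ∈ S.basicOpen a ↔ q ∈ PrimeSpectrum.basicOpen a := by
    have := hV.fromSpec_preimage_basicOpen a
    rw [← this]
    rfl
  have h3 : p.asIdeal = ⊥ := (Ideal.eq_bot_or_top p.asIdeal).resolve_right p.2.ne_top
  rw [h1, h2]
  change ψ (Ideal.Quotient.mk _ a) ∉ p.asIdeal ↔ _
  rw [h3]
  rfl

theorem G7 {k : Type u} [Field k] {S X : Scheme.{u}} [IrreducibleSpace S]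
    (sS : S ⟶ Spec (CommRingCat.of k)) [LocallyOfFiniteType sS] (π : X ⟶ S) [Smooth π]
    [QuasiCompact π] {F : Type u} [Field F] (g : Spec (CommRingCat.of F) ⟶ S)
    (hg : ∀ p : Spec (CommRingCat.of F), closure {g p} = Set.univ) [IsIntegral (pullback π g)] (d : ℕ)
    (hd : PureOver (pullback.snd π g) d) :
    ∃ U : S.Opens, (U : Set S).Nonempty ∧ ∀ (L : Type u) [Field L] [IsAlgClosed L]
      (x : Spec (CommRingCat.of L) ⟶ S), (∀ p, x p ∈ U) → RatOver (pullback.snd π x) := by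
  obtain ⟨V, hV, hV'⟩ : ∃ V : S.Opens, IsAffineOpen V ∧ (V : Set S).Nonempty := by
    obtain ⟨V, hV, hx, -⟩ := exists_isAffineOpen_mem_and_subset (x := genericPoint S) (U := ⊤) trivial
    exact ⟨V, hV, _, hx⟩
  have : IsLocallyNoetherian S := LocallyOfFiniteType.isLocallyNoetherian sS
  have : IsNoetherianRing Γ(S, V) := IsLocallyNoetherian.component_noetherian ⟨V, hV⟩
  have hgV : ∀ p, g p ∈ V := by
    intro p
    by_contra h
    have h1 : closure {g p} ⊆ (V : Set S)ᶜ :=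
      closure_minimal (by simpa using h) V.2.isClosed_compl
    rw [hg p] at h1
    obtain ⟨v, hv⟩ := hV'
    exact h1 (Set.mem_univ v) hv
  obtain ⟨φ, hφ⟩ := G7_factor hV g hgV
  have : Nonempty (Spec (CommRingCat.of F)) := inferInstance
  obtain ⟨p⟩ := this
  -- the kernel of `Γ(S, V) → F` is the nilradical
  have hφi : Function.Injective φ := by
    rw [injective_iff_map_eq_zero]
    intro a ha
    obtain ⟨a, rfl⟩ := Ideal.Quotient.mk_surjective a
    have h1 : g p ∉ S.basicOpen a := by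
      rw [hφ, G7_mem hV φ p a]
      simpa using ha
    have h2 : closure {g p} ⊆ (S.basicOpen a : Set S)ᶜ :=
      closure_minimal (by simpa using h1) (S.basicOpen a).2.isClosed_compl
    rw [hg p] at h2
    rw [Ideal.Quotient.eq_zero_iff_mem, nilradical_eq_sInf, Ideal.mem_sInf]
    intro I hI
    by_contra h3
    let q : Spec Γ(S, V) := ⟨I, hI⟩
    have h4 : hV.fromSpec q ∈ S.basicOpen a := by
      have h5 : q ∈ hV.fromSpec ⁻¹ᵁ S.basicOpen a := by
        rw [hV.fromSpec_preimage_basicOpen a]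
        exact h3
      exact h5
    exact h2 (Set.mem_univ _) h4
  have : IsDomain (Γ(S, V) ⧸ nilradical Γ(S, V)) := hφi.isDomain φ
  let A := Γ(S, V) ⧸ nilradical Γ(S, V)
  let ι : Spec (CommRingCat.of A) ⟶ S := G7_i hV
  let πA : pullback π ι ⟶ Spec (CommRingCat.of A) := pullback.snd π ι
  -- comparison of the fibres
  have key : ∀ {L : Type u} [Field L] (x : Spec (CommRingCat.of L) ⟶ S) (ψ : A →+* L),
      x = Spec.map (CommRingCat.ofHom ψ) ≫ ι →
      ∃ e : fib πA ψ ≅ pullback π x, e.hom ≫ pullback.snd π x = fibHom πA ψ := by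
    intro L _ x ψ h
    subst h
    exact ⟨pullbackLeftPullbackSndIso π ι _, pullbackLeftPullbackSndIso_hom_snd _ _ _⟩
  obtain ⟨e, he⟩ := key g φ hφ
  let algF : Algebra A F := φ.toAlgebra
  have halg : algebraMap A F = φ := rfl
  have h1 : AlgebraicGeometry.IsIntegral (fib πA (algebraMap A F)) := G7_isIntegral_of_iso e
  have h2 : PureOver (fibHom πA (algebraMap A F)) d := G6d_pure _ _ e he d hd
  obtain ⟨a, ha, H⟩ := G6 (A := A) πA (F := F) hφi d h2
  obtain ⟨a, rfl⟩ := Ideal.Quotient.mk_surjective a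
  refine ⟨S.basicOpen a, ⟨g p, ?_⟩, fun L _ _ x hx => ?_⟩
  · have h3 : φ (Ideal.Quotient.mk _ a) ≠ 0 := fun h => ha (hφi (by rw [h, map_zero]))
    rw [hφ]
    exact (G7_mem hV φ p a).2 h3
  · obtain ⟨ψ, hψ⟩ := G7_factor hV x fun p => S.basicOpen_le a (hx p)
    obtain ⟨e', he'⟩ := key x ψ hψ
    obtain ⟨q⟩ : Nonempty (Spec (CommRingCat.of L)) := inferInstance
    have h3 : ψ (Ideal.Quotient.mk _ a) ≠ 0 := by
      rw [← G7_mem hV ψ q a, ← hψ]
      exact hx q
    refine G6d_rat _ _ (G6d_isoBir _ _ e'.symm ?_ : Scheme.BirationalOver _ (fibHom πA ψ)) (H L ψ h3)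
    rw [← he']
    simp

end Pool.Agent.TORE
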