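import Pool.Agent.TD.FF
import Pool.Agent.TD.Defs
import Pool.Agent.TORE.Adapt1
import Pool.Agent.TORE.E7
import Pool.Agent.TORE.G0
import Pool.Agent.TORE.G7

/-! The two statements used in the proof of the main theorem: arcs, and spreading out. -/

namespace Pool.Agent.TORE

open AlgebraicGeometry CategoryTheory Limits

universe u

/-- A complete discrete valuation ring through every geometric point. -/
theorem tod_arc {k : Type u} [Field k] [CharZero k] {S : Scheme.{u}} [IrreducibleSpace S]
    (p : S ⟶ Spec (.of k)) [LocallyOfFiniteType p] {K : Type u} [Field K] [IsAlgClosed K]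
    (s : Spec (.of K) ⟶ S) :
    ∃ (R : Type u) (_ : CommRing R) (_ : IsDomain R) (_ : IsDiscreteValuationRing R)
      (_ : IsAdicComplete (IsLocalRing.maximalIdeal R) R) (_ : Algebra R K)
      (g : Spec (.of R) ⟶ S), Function.Surjective (algebraMap R K) ∧
      Spec.map (CommRingCat.ofHom (algebraMap R K)) ≫ g = s ∧
      g (⟨⊥, Ideal.isPrime_bot⟩ : PrimeSpectrum R) = genericPoint S := by
  obtain ⟨R, hCR, hKR, ρ, g, hR, hs, hg⟩ := arc p s
  have := hR.isDomain
  have := hR.dvr
  have := hR.complete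
  refine ⟨R, hCR, inferInstance, inferInstance, inferInstance, ρ.toRingHom.toAlgebra, g, ?_, hs, ?_⟩
  · intro c
    exact ⟨algebraMap K R c, ρ.commutes c⟩
  · have h1 : IsGenericPoint (g (⟨⊥, Ideal.isPrime_bot⟩ : PrimeSpectrum R)) Set.univ :=
      hg (⟨⊥, Ideal.isPrime_bot⟩ : PrimeSpectrum R) rfl
    exact h1.eq (genericPoint_spec S)

/-- a finite dimensional affine space -/
theorem isRational_of_ratOver {L : Type u} [Field L] {Y : Scheme.{u}}
    (f : Y ⟶ Spec (CommRingCat.of L)) (h : RatOver f) : TOD.IsRational f := by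
  obtain ⟨n, hn, h⟩ := h
  obtain ⟨m, ⟨e⟩⟩ := Finite.exists_equiv_fin n
  refine ⟨m, h.trans ?_⟩
  let e' : n ≃ ULift.{u} (Fin m) := e.trans Equiv.ulift.symm
  let i : 𝔸(n; Spec (CommRingCat.of L)) ≅ 𝔸(ULift.{u} (Fin m); Spec (CommRingCat.of L)) :=
    { hom := AffineSpace.reindex e'.symm _
      inv := AffineSpace.reindex e' _
      hom_inv_id := by
        ext1 <;> simp
      inv_hom_id := by
        ext1 <;> simp }
  exact G6d_isoBir _ _ i (AffineSpace.reindex_over _ _)

/-- Spreading out rationality. -/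
theorem tod_spread {k : Type u} [Field k] {S X : Scheme.{u}} [IrreducibleSpace S]
    (p : S ⟶ Spec (.of k)) [LocallyOfFiniteType p] (π : X ⟶ S) [Smooth π] [QuasiCompact π]
    {R : Type u} [CommRing R] [IsDomain R] [IsDiscreteValuationRing R] (g : Spec (.of R) ⟶ S)
    (hg : g (⟨⊥, Ideal.isPrime_bot⟩ : PrimeSpectrum R) = genericPoint S)
    {Y : Scheme.{u}} (g' : Y ⟶ X) (f : Y ⟶ Spec (.of R)) (h : IsPullback g' f π g)
    [IsIntegral Y]
    (hrat : letI : Algebra R Y.functionField := (TOD.toFF f).toAlgebra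
      TOD.IsPurelyTranscendental R Y.functionField) :
    ∃ U : S.Opens, Dense (U : Set S) ∧ ∀ (K : Type u) [Field K] [IsAlgClosed K]
      (s : Spec (.of K) ⟶ S), Set.range s ⊆ U → TOD.IsRational (pullback.snd π s) := by
  let : Algebra R Y.functionField := (TOD.toFF f).toAlgebra
  obtain ⟨d, y, hy, hfrac⟩ := hrat
  obtain ⟨e, he⟩ := ratFunEquiv y hy hfrac
  have he' : Y.fromSpecStalk (genericPoint Y) ≫ f = Spec.map (CommRingCat.ofHom ((e.toRingHom.comp
      (algebraMap (FractionRing R) (RatFun (FractionRing R) d))).comp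
      (algebraMap R (FractionRing R)))) := by
    rw [toFF_spec, he]
  obtain ⟨hint, hd⟩ := G0 f d e he'
  let q : Spec (CommRingCat.of (FractionRing R)) ⟶ Spec (CommRingCat.of R) :=
    Spec.map (CommRingCat.ofHom (algebraMap R (FractionRing R)))
  have h2 : IsPullback (fibProj f (algebraMap R (FractionRing R)) ≫ g')
      (fibHom f (algebraMap R (FractionRing R))) π (q ≫ g) :=
    (IsPullback.of_hasPullback f q).paste_horiz h
  let i : pullback π (q ≫ g) ≅ fib f (algebraMap R (FractionRing R)) := h2.isoPullback.symm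
  have hi : i.hom ≫ fibHom f (algebraMap R (FractionRing R)) = pullback.snd π (q ≫ g) :=
    h2.isoPullback_inv_snd
  have : AlgebraicGeometry.IsIntegral (pullback π (q ≫ g)) := G7_isIntegral_of_iso i
  have hd' : PureOver (pullback.snd π (q ≫ g)) d := G6d_pure _ _ i hi d hd
  have hgen : ∀ x : Spec (CommRingCat.of (FractionRing R)), closure {(q ≫ g) x} = Set.univ := by
    intro x
    have h3 : (q ≫ g) x = g (⟨⊥, Ideal.isPrime_bot⟩ : PrimeSpectrum R) := by
      have h4 : q x = (⟨⊥, Ideal.isPrime_bot⟩ : PrimeSpectrum R) := by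
        have h5 : (q x).asIdeal = x.asIdeal.comap (algebraMap R (FractionRing R)) := rfl
        have h6 : x.asIdeal = ⊥ := (Ideal.eq_bot_or_top x.asIdeal).resolve_right x.2.ne_top
        refine PrimeSpectrum.ext ?_
        rw [h5, h6]
        exact (RingHom.injective_iff_ker_eq_bot _).1 (IsFractionRing.injective R (FractionRing R))
      rw [Scheme.Hom.comp_apply, h4]
    rw [h3, hg]
    exact genericPoint_spec S
  obtain ⟨U, hU, H⟩ := G7 p π (q ≫ g) hgen d hd'
  exact ⟨U, U.2.dense hU, fun K _ _ s hs => isRational_of_ratOver _ (H K s fun x => hs ⟨x, rfl⟩)⟩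

end Pool.Agent.TORE
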