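import Pool.Agent.TORE.GDefs

/-! Elements of `F ⊗_A C` and polynomials over `F` are defined over finitely generated subalgebras. -/

namespace Pool.Agent.TORE

open TensorProduct

universe u

/-- an element of `F ⊗_A C` comes from `B ⊗_A C` for all sufficiently large subalgebras `B` of `F`:
induction on the tensor -/
theorem G3b_tensor {A F C : Type u} [CommRing A] [CommRing F] [Algebra A F] [CommRing C] [Algebra A C]
    (x : F ⊗[A] C) : ∃ s : Finset F, ∀ B : Subalgebra A F, (s : Set F) ⊆ B →
      ∃ y : B ⊗[A] C, Algebra.TensorProduct.map B.val (AlgHom.id A C) y = x := by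
  classical
  induction x using TensorProduct.induction_on with
  | zero => exact ⟨∅, fun B _ => ⟨0, map_zero _⟩⟩
  | tmul a c =>
    refine ⟨{a}, fun B hB => ?_⟩
    have ha : a ∈ B := hB (by simp)
    exact ⟨(⟨a, ha⟩ : B) ⊗ₜ[A] c, by simp⟩
  | add x y hx hy =>
    obtain ⟨s, hs⟩ := hx
    obtain ⟨s', hs'⟩ := hy
    refine ⟨s ∪ s', fun B hB => ?_⟩
    rw [Finset.coe_union, Set.union_subset_iff] at hB
    obtain ⟨x', hx'⟩ := hs B hB.1
    obtain ⟨y', hy'⟩ := hs' B hB.2
    exact ⟨x' + y', by rw [map_add, hx', hy']⟩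

theorem G3b_poly {A F : Type u} [CommRing A] [CommRing F] [Algebra A F] {d : ℕ}
    (x : MvPolynomial (Fin d) F) : ∃ s : Finset F, ∀ B : Subalgebra A F, (s : Set F) ⊆ B →
      ∃ y : MvPolynomial (Fin d) B, MvPolynomial.map B.val.toRingHom y = x := by
  classical
  induction x using MvPolynomial.induction_on with
  | C a =>
    refine ⟨{a}, fun B hB => ?_⟩
    have ha : a ∈ B := hB (by simp)
    exact ⟨MvPolynomial.C (⟨a, ha⟩ : B), by rw [MvPolynomial.map_C]; rfl⟩
  | add x y hx hy =>
    obtain ⟨s, hs⟩ := hx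
    obtain ⟨s', hs'⟩ := hy
    refine ⟨s ∪ s', fun B hB => ?_⟩
    rw [Finset.coe_union, Set.union_subset_iff] at hB
    obtain ⟨x', hx'⟩ := hs B hB.1
    obtain ⟨y', hy'⟩ := hs' B hB.2
    exact ⟨x' + y', by rw [map_add, hx', hy']⟩
  | mul_X x i hx =>
    obtain ⟨s, hs⟩ := hx
    refine ⟨s, fun B hB => ?_⟩
    obtain ⟨x', hx'⟩ := hs B hB
    exact ⟨x' * MvPolynomial.X i, by rw [map_mul, hx', MvPolynomial.map_X]⟩

/-- flatness of `C` over `A` -/
theorem G3b_inj {A F C : Type u} [CommRing A] [CommRing F] [Algebra A F] [CommRing C] [Algebra A C]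
    [Module.Flat A C] (B : Subalgebra A F) :
    Function.Injective (Algebra.TensorProduct.map B.val (AlgHom.id A C)) := by
  have h1 : Function.Injective (LinearMap.rTensor C B.val.toLinearMap) :=
    Module.Flat.rTensor_preserves_injective_linearMap _ Subtype.val_injective
  have h2 : ∀ x, Algebra.TensorProduct.map B.val (AlgHom.id A C) x = LinearMap.rTensor C B.val.toLinearMap x := by
    intro x
    induction x using TensorProduct.induction_on with
    | zero => simp
    | tmul a c => simp
    | add x y hx hy => rw [map_add, map_add, hx, hy]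
  intro x y hxy
  apply h1
  rw [← h2, ← h2, hxy]

/-- an element of the field `F(X_1, ..., X_d)`, and finitely many of them, have a common denominator -/
theorem G3b_den {F : Type u} [Field F] {d n : ℕ} (z : Fin n → RatFun F d) :
    ∃ (q : MvPolynomial (Fin d) F) (g : Fin n → MvPolynomial (Fin d) F), q ≠ 0 ∧
      ∀ i, z i * algebraMap _ (RatFun F d) q = algebraMap _ (RatFun F d) (g i) := by
  obtain ⟨b, hb⟩ := IsLocalization.exist_integer_multiples (nonZeroDivisors (MvPolynomial (Fin d) F))
    (Finset.univ : Finset (Fin n)) z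
  choose g hg using fun i => hb i (Finset.mem_univ i)
  refine ⟨b, g, nonZeroDivisors.ne_zero b.2, fun i => ?_⟩
  rw [hg i, Algebra.smul_def, mul_comm]

/-- common denominators in `F ⊗_A C` -/
theorem G3b_den' {A F C κ : Type u} [CommRing A] [CommRing C] [Algebra A C] [Field F] [Algebra A F]
    [Field κ] [Algebra F κ] [Algebra A κ] [IsScalarTower A F κ] (j : C →ₐ[A] κ)
    (hj : FracData (F := F) j) {n : ℕ} (z : Fin n → κ) :
    ∃ (y : F ⊗[A] C) (x : Fin n → F ⊗[A] C), jF j y ≠ 0 ∧ ∀ i, z i * jF j y = jF j (x i) := by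
  classical
  choose x y hy hxy using fun i => hj.frac (z i)
  refine ⟨∏ i, y i, fun i => x i * ∏ k ∈ Finset.univ.erase i, y k, ?_, fun i => ?_⟩
  · rw [map_prod]
    exact Finset.prod_ne_zero_iff.2 fun i _ => hy i
  · rw [← Finset.mul_prod_erase Finset.univ y (Finset.mem_univ i), map_mul, map_mul, ← hxy i]
    ring

end Pool.Agent.TORE
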