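import Pool.Agent.TORE.G3a
import Pool.Agent.TORE.G3b

/-! If `F(X_1, ..., X_d)` is the field of fractions of `F ⊗_A C`, then over a finitely generated
subalgebra `B` of `F` a localisation of `B ⊗_A C` is isomorphic to a localisation of a polynomial
ring. -/

namespace Pool.Agent.TORE

open TensorProduct

universe u

section

variable {κ : Type u} [Field κ] {S : Type u} [CommRing S] (φ : S →+* κ) (w : κ)

/-- the elements `z` of `κ` with `z * w ^ N ∈ φ S` for some `N` -/
theorem G3_add (hw : ∃ s, φ s = w) {a b : κ} (ha : ∃ (N : ℕ) (y : S), a * w ^ N = φ y)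
    (hb : ∃ (N : ℕ) (y : S), b * w ^ N = φ y) : ∃ (N : ℕ) (y : S), (a + b) * w ^ N = φ y := by
  obtain ⟨s, hs⟩ := hw
  obtain ⟨M, x, hx⟩ := ha
  obtain ⟨N, y, hy⟩ := hb
  refine ⟨M + N, x * s ^ N + y * s ^ M, ?_⟩
  rw [map_add, map_mul, map_mul, map_pow, map_pow, hs, ← hx, ← hy]
  ring

theorem G3_mul {a b : κ} (ha : ∃ (N : ℕ) (y : S), a * w ^ N = φ y)
    (hb : ∃ (N : ℕ) (y : S), b * w ^ N = φ y) : ∃ (N : ℕ) (y : S), (a * b) * w ^ N = φ y := by
  obtain ⟨M, x, hx⟩ := ha
  obtain ⟨N, y, hy⟩ := hb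
  refine ⟨M + N, x * y, ?_⟩
  rw [map_mul, ← hx, ← hy]
  ring

end

/-- Proof. Let `c_1, ..., c_n` generate the `A`-algebra `C`. By `G3b_den`
`j c_i = g_i / q` in `F(X)`, by `G3b_den'` `X_l = jF x_l / jF y`. Let `B` be generated by the finite sets
of `G3b_tensor`, `G3b_poly` for the `g_i, q, x_l, y`. Apply `G3a` with `P = B ⊗_A C` (contained in
`F ⊗_A C`, which is contained in the field `F(X)`), `Q = B[X_1, ..., X_d]`, `κ = F(X)`. The elements
`x` of `P` with `f x * g q ^ N ∈ g Q` for some `N` form a subring which contains the `c_i` and `B`. -/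
theorem G3 {A F C : Type u} [CommRing A] [CommRing C] [Algebra A C] [Algebra.FiniteType A C]
    [Module.Flat A C] [Field F] [Algebra A F] {d : ℕ} (j : C →ₐ[A] RatFun F d)
    (hj : FracData (F := F) j) :
    ∃ B : Subalgebra A F, B.FG ∧ ∃ (h : B ⊗[A] C) (k : MvPolynomial (Fin d) B), h ≠ 0 ∧ k ≠ 0 ∧
      Nonempty (Localization.Away h ≃ₐ[B] Localization.Away k) := by
  classical
  obtain ⟨t, ht⟩ := (inferInstance : Algebra.FiniteType A C).out
  obtain ⟨n, c, hc⟩ : ∃ (n : ℕ) (c : Fin n → C), Set.range c = (t : Set C) := by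
    refine ⟨t.card, fun i => (t.equivFin.symm i : C), ?_⟩
    ext x
    constructor
    · rintro ⟨i, rfl⟩
      exact (t.equivFin.symm i).2
    · intro hx
      exact ⟨t.equivFin ⟨x, hx⟩, by simp⟩
  obtain ⟨q, g, hq, hg⟩ := G3b_den (F := F) (d := d) (fun i => j (c i))
  obtain ⟨y, x, hy, hx⟩ := G3b_den' (F := F) j hj (fun l : Fin d => algebraMap (MvPolynomial (Fin d) F) (RatFun F d) (MvPolynomial.X l))
  choose sq hsq using G3b_poly (A := A) q
  choose sg hsg using fun i => G3b_poly (A := A) (g i)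
  choose sy hsy using G3b_tensor (A := A) (C := C) y
  choose sx hsx using fun l => G3b_tensor (A := A) (C := C) (x l)
  obtain ⟨s, hs⟩ : ∃ s : Finset F, s = sq ∪ sy ∪ Finset.univ.biUnion sg ∪ Finset.univ.biUnion sx := ⟨_, rfl⟩
  obtain ⟨B, hB⟩ : ∃ B : Subalgebra A F, B = Algebra.adjoin A (s : Set F) := ⟨_, rfl⟩
  have hsB : (s : Set F) ⊆ B := by
    rw [hB]
    exact Algebra.subset_adjoin
  have hsub : ∀ r : Finset F, r ⊆ s → (r : Set F) ⊆ B := fun r hr => (Finset.coe_subset.2 hr).trans hsB
  obtain ⟨qB, hqB⟩ := hsq B (hsub sq (by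
    intro z hz
    rw [hs]
    simp [hz]))
  obtain ⟨yB, hyB⟩ := hsy B (hsub sy (by
    intro z hz
    rw [hs]
    simp [hz]))
  have h1 : ∀ i, ∃ gB : MvPolynomial (Fin d) B, MvPolynomial.map B.val.toRingHom gB = g i := by
    intro i
    apply hsg i B (hsub (sg i) ?_)
    intro z hz
    rw [hs]
    simp only [Finset.mem_union, Finset.mem_biUnion, Finset.mem_univ, true_and]
    exact Or.inl (Or.inr ⟨i, hz⟩)
  choose gB hgB using h1
  have h2 : ∀ l, ∃ xB : B ⊗[A] C, Algebra.TensorProduct.map B.val (AlgHom.id A C) xB = x l := by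
    intro l
    apply hsx l B (hsub (sx l) ?_)
    intro z hz
    rw [hs]
    simp only [Finset.mem_union, Finset.mem_biUnion, Finset.mem_univ, true_and]
    exact Or.inr ⟨l, hz⟩
  choose xB hxB using h2
  refine ⟨B, ⟨s, hB.symm⟩, ?_⟩
  -- the two embeddings
  let f : B ⊗[A] C →ₐ[B] RatFun F d :=
    { toRingHom := (jF j).toRingHom.comp (Algebra.TensorProduct.map B.val (AlgHom.id A C)).toRingHom
      commutes' := by
        intro b
        change jF j (Algebra.TensorProduct.map B.val (AlgHom.id A C) (b ⊗ₜ 1)) = _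
        rw [Algebra.TensorProduct.map_tmul]
        change jF j ((b : F) ⊗ₜ (1 : C)) = _
        have h3 : ((b : F) ⊗ₜ[A] (1 : C)) = algebraMap F (F ⊗[A] C) (b : F) := rfl
        rw [h3, AlgHom.commutes]
        rfl }
  have hf : ∀ z, f z = jF j (Algebra.TensorProduct.map B.val (AlgHom.id A C) z) := fun _ => rfl
  have hfinj : Function.Injective f := hj.inj.comp (G3b_inj B)
  have hdom : IsDomain (B ⊗[A] C) := hfinj.isDomain f.toRingHom
  let G : MvPolynomial (Fin d) B →ₐ[B] RatFun F d :=
    { toRingHom := (algebraMap (MvPolynomial (Fin d) F) (RatFun F d)).comp (MvPolynomial.map B.val.toRingHom)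
      commutes' := by
        intro b
        change algebraMap (MvPolynomial (Fin d) F) (RatFun F d) (MvPolynomial.map _ (MvPolynomial.C b)) = _
        rw [MvPolynomial.map_C]
        rfl }
  have hG : ∀ z, G z = algebraMap (MvPolynomial (Fin d) F) (RatFun F d) (MvPolynomial.map B.val.toRingHom z) :=
    fun _ => rfl
  have hGinj : Function.Injective G :=
    (IsFractionRing.injective (MvPolynomial (Fin d) F) (RatFun F d)).comp
      (MvPolynomial.map_injective _ Subtype.val_injective)
  have hGq : G qB = algebraMap _ (RatFun F d) q := by rw [hG, hqB]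
  have hfy : f yB = jF j y := by rw [hf, hyB]
  refine G3a f hfinj G hGinj qB ?_ ?_ yB ?_ ?_
  · rintro rfl
    apply hq
    rw [← hqB, map_zero]
  · -- `P` is contained in the localisation of `Q`
    have hC : ∀ z : C, ∃ (N : ℕ) (u : MvPolynomial (Fin d) B), j z * G qB ^ N = G u := by
      intro z
      have hz : z ∈ Algebra.adjoin A (Set.range c) := by
        rw [hc, ht]
        exact Algebra.mem_top
      induction hz using Algebra.adjoin_induction with
      | mem z hz =>
        obtain ⟨i, rfl⟩ := hz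
        refine ⟨1, gB i, ?_⟩
        rw [pow_one, hGq, hg i, hG, hgB i]
      | algebraMap a =>
        refine ⟨0, algebraMap B _ (algebraMap A B a), ?_⟩
        rw [pow_zero, mul_one, AlgHom.commutes, AlgHom.commutes, IsScalarTower.algebraMap_apply A F (RatFun F d)]
        rfl
      | add a b _ _ ha hb =>
        rw [map_add]
        exact G3_add (S := MvPolynomial (Fin d) B) G.toRingHom _ ⟨qB, rfl⟩ ha hb
      | mul a b _ _ ha hb =>
        rw [map_mul]
        exact G3_mul (S := MvPolynomial (Fin d) B) G.toRingHom _ ha hb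
    intro z
    induction z using TensorProduct.induction_on with
    | zero => exact ⟨0, 0, by rw [map_zero, map_zero, zero_mul]⟩
    | tmul b z =>
      have h3 : f (b ⊗ₜ z) = G (algebraMap B _ b) * j z := by
        have h4 : (b ⊗ₜ[A] z : B ⊗[A] C) = algebraMap B _ b * (1 ⊗ₜ z) := by
          change _ = (b ⊗ₜ[A] (1 : C)) * (1 ⊗ₜ z)
          rw [Algebra.TensorProduct.tmul_mul_tmul, mul_one, one_mul]
        rw [h4, map_mul, AlgHom.commutes, AlgHom.commutes, hf, Algebra.TensorProduct.map_tmul]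
        congr 1
        change jF j ((1 : F) ⊗ₜ z) = _
        simp [jF]
      rw [h3]
      exact G3_mul (S := MvPolynomial (Fin d) B) G.toRingHom _ ⟨0, algebraMap B _ b, by
        rw [pow_zero, mul_one]; rfl⟩ (hC z)
    | add a b ha hb =>
      rw [map_add]
      exact G3_add (S := MvPolynomial (Fin d) B) G.toRingHom _ ⟨qB, rfl⟩ ha hb
  · rintro rfl
    apply hy
    rw [← hyB, map_zero, map_zero]
  · intro z
    induction z using MvPolynomial.induction_on with
    | C b =>
      refine ⟨0, algebraMap B _ b, ?_⟩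
      rw [pow_zero, mul_one, AlgHom.commutes, ← MvPolynomial.algebraMap_eq, AlgHom.commutes]
    | add a b ha hb =>
      rw [map_add]
      exact G3_add (S := B ⊗[A] C) f.toRingHom _ ⟨yB, rfl⟩ ha hb
    | mul_X a l ha =>
      rw [map_mul]
      refine G3_mul (S := B ⊗[A] C) f.toRingHom _ ha ⟨1, xB l, ?_⟩
      rw [pow_one, hG, MvPolynomial.map_X, hfy, hx l]
      change _ = f (xB l)
      rw [hf, hxB l]

end Pool.Agent.TORE
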