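import Mathlib

/-! Extension of points with values in an algebraically closed field. -/

namespace Pool.Agent.TORE

universe u

open TensorProduct

/-- a nonempty constructible set containing the generic point contains a basic open set -/
theorem G5_constructible {A : Type u} [CommRing A] [IsDomain A] {s : Set (PrimeSpectrum A)}
    (hs : Topology.IsConstructible s) (h : (⟨⊥, Ideal.isPrime_bot⟩ : PrimeSpectrum A) ∈ s) :
    ∃ a : A, a ≠ 0 ∧ ∀ p : PrimeSpectrum A, a ∉ p.asIdeal → p ∈ s := by
  obtain ⟨S, rfl⟩ := PrimeSpectrum.exists_constructibleSetData_iff.2 hs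
  simp only [PrimeSpectrum.ConstructibleSetData.toSet, Set.mem_iUnion] at h
  obtain ⟨C, hC, h1, h2⟩ := h
  have h3 : ∀ i, C.g i = 0 := fun i => by
    have := h1 ⟨i, rfl⟩
    simpa using this
  refine ⟨C.f, fun h4 => h2 (by simp [h4]), fun p hp => ?_⟩
  simp only [PrimeSpectrum.ConstructibleSetData.toSet, Set.mem_iUnion]
  refine ⟨C, hC, ?_, ?_⟩
  · rintro _ ⟨i, rfl⟩
    rw [h3 i]
    exact p.asIdeal.zero_mem
  · intro h4
    exact hp (h4 rfl)

/-- a finitely generated algebra over an algebraically closed field has a point -/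
theorem G5_point {L D : Type u} [Field L] [IsAlgClosed L] [CommRing D] [Nontrivial D] [Algebra L D]
    [Algebra.FiniteType L D] : Nonempty (D →ₐ[L] L) := by
  obtain ⟨m, hm⟩ := Ideal.exists_maximal D
  let : Field (D ⧸ m) := Ideal.Quotient.field m
  have : Algebra.FiniteType L (D ⧸ m) := inferInstance
  have h1 : Module.Finite L (D ⧸ m) := finite_of_finite_type_of_isJacobsonRing L (D ⧸ m)
  have h2 : Function.Bijective (algebraMap L (D ⧸ m)) :=
    IsAlgClosed.algebraMap_bijective_of_isIntegral
  let e : L ≃ₐ[L] (D ⧸ m) := AlgEquiv.ofBijective (Algebra.ofId L (D ⧸ m)) h2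
  exact ⟨e.symm.toAlgHom.comp (Ideal.Quotient.mkₐ L m)⟩

theorem G5 {A B : Type u} [CommRing A] [IsDomain A] [IsNoetherianRing A] [CommRing B] [IsDomain B]
    [Algebra A B] [Algebra.FiniteType A B] (hinj : Function.Injective (algebraMap A B)) (b : B)
    (hb : b ≠ 0) :
    ∃ a : A, a ≠ 0 ∧ ∀ (L : Type u) [Field L] [IsAlgClosed L] (x : A →+* L), x a ≠ 0 →
      ∃ y : B →+* L, y.comp (algebraMap A B) = x ∧ y b ≠ 0 := by
  let C := Localization.Away b
  have hBC : Function.Injective (algebraMap B C) :=
    IsLocalization.injective C (powers_le_nonZeroDivisors_of_noZeroDivisors hb)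
  have : IsDomain C := IsLocalization.isDomain_localization
    (powers_le_nonZeroDivisors_of_noZeroDivisors hb)
  have : Algebra.FiniteType B C := inferInstance
  have hft : Algebra.FiniteType A C := .trans (S := B) inferInstance inferInstance
  have hfp : Algebra.FinitePresentation A C := Algebra.FinitePresentation.of_finiteType.1 hft
  have hAC : Function.Injective (algebraMap A C) := by
    rw [IsScalarTower.algebraMap_eq A B C]
    exact hBC.comp hinj
  have hcon := PrimeSpectrum.isConstructible_range_comap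
    (RingHom.finitePresentation_algebraMap.2 hfp)
  obtain ⟨a, ha, H⟩ := G5_constructible hcon ⟨⟨⊥, Ideal.isPrime_bot⟩, PrimeSpectrum.ext
    ((RingHom.injective_iff_ker_eq_bot _).1 hAC)⟩
  refine ⟨a, ha, fun L _ _ x hx => ?_⟩
  obtain ⟨p, hp0⟩ : ∃ p : PrimeSpectrum A, p.asIdeal = RingHom.ker x :=
    ⟨⟨RingHom.ker x, RingHom.ker_isPrime x⟩, rfl⟩
  have hp := H p (by rw [hp0]; exact hx)
  rw [← PrimeSpectrum.nontrivial_iff_mem_rangeComap] at hp
  let κ := p.asIdeal.ResidueField
  let algL : Algebra A L := x.toAlgebra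
  let f : κ →+* L := Ideal.ResidueField.lift p.asIdeal x hp0.le
    (fun a ha => isUnit_iff_ne_zero.2 fun h => ha (by rw [hp0]; exact h))
  let algκ : Algebra κ L := f.toAlgebra
  have ht : IsScalarTower A κ L := IsScalarTower.of_algebraMap_eq fun a =>
    (Ideal.ResidueField.lift_algebraMap _ _ _ _ a).symm
  have hn1 : Nontrivial (L ⊗[κ] (κ ⊗[A] C)) :=
    (Algebra.TensorProduct.includeRight_injective (R := κ) (A := L) (B := κ ⊗[A] C)
      (algebraMap κ L).injective).nontrivial
  have hn2 : Nontrivial (L ⊗[A] C) :=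
    (Algebra.TensorProduct.cancelBaseChange A κ L L C).injective.nontrivial
  obtain ⟨φ⟩ := G5_point (L := L) (D := L ⊗[A] C)
  refine ⟨(φ.toRingHom.comp (Algebra.TensorProduct.includeRight : C →ₐ[A] L ⊗[A] C).toRingHom).comp
    (algebraMap B C), ?_, ?_⟩
  · ext a
    change φ (Algebra.TensorProduct.includeRight (algebraMap B C (algebraMap A B a))) = x a
    rw [← IsScalarTower.algebraMap_apply A B C, AlgHom.commutes,
      IsScalarTower.algebraMap_apply A L (L ⊗[A] C), φ.commutes]
    rfl
  · have h1 : IsUnit (algebraMap B C b) := IsLocalization.Away.algebraMap_isUnit b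
    exact (h1.map (φ.toRingHom.comp
      (Algebra.TensorProduct.includeRight : C →ₐ[A] L ⊗[A] C).toRingHom)).ne_zero

end Pool.Agent.TORE
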