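import Pool.Agent.TORE.Chart

/-! The common open subset of the scheme and of the affine space. -/

namespace Pool.Agent.TORE

open AlgebraicGeometry CategoryTheory Limits TensorProduct

universe u

/-- `U = Spec (Localization.Away h)`, which is an open subscheme of `Spec (B ⊗_A C)`, an open
subscheme of `fib π _` (`chart`), and is isomorphic to `Spec (Localization.Away k)`, an open subscheme
of `Spec (B[X_1, ..., X_d]) = 𝔸(ULift (Fin d); Spec B)` (`AffineSpace.SpecIso`). -/
theorem G6a {A : Type u} [CommRing A] {Y : Scheme.{u}} (π : Y ⟶ Spec (CommRingCat.of A))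
    (V : Y.Opens) (hV : IsAffineOpen V) [Algebra A Γ(Y, V)]
    (halg : algebraMap A Γ(Y, V) =
      ((Scheme.ΓSpecIso (CommRingCat.of A)).inv ≫ π.appLE ⊤ V le_top).hom)
    (B : Type u) [CommRing B] [Algebra A B] {d : ℕ} (h : B ⊗[A] Γ(Y, V))
    (k : MvPolynomial (Fin d) B) (hnt : Nontrivial (Localization.Away h))
    (e : Localization.Away h ≃ₐ[B] Localization.Away k) :
    ∃ (U : Scheme.{u}) (a : U ⟶ fib π (algebraMap A B))
      (b : U ⟶ 𝔸(ULift.{u} (Fin d); Spec (CommRingCat.of B))),
      IsOpenImmersion a ∧ IsOpenImmersion b ∧ Nonempty U ∧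
      a ≫ fibHom π (algebraMap A B) = b ≫ (𝔸(ULift.{u} (Fin d); Spec (CommRingCat.of B)) ↘
        Spec (CommRingCat.of B)) := by
  obtain ⟨c, hc, hc1, -, -⟩ := chart π V hV halg B
  let φ : Localization.Away k →+* Localization.Away h := (e.symm : Localization.Away k →+* Localization.Away h)
  let ψ : MvPolynomial (ULift.{u} (Fin d)) B →+* MvPolynomial (Fin d) B :=
    ((MvPolynomial.renameEquiv B (Equiv.ulift : ULift.{u} (Fin d) ≃ Fin d)) :
      MvPolynomial (ULift.{u} (Fin d)) B →+* MvPolynomial (Fin d) B)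
  have hφ : IsIso (CommRingCat.ofHom φ) := by
    exact (inferInstance : IsIso (e.symm.toRingEquiv.toCommRingCatIso).hom)
  have hψ : IsIso (CommRingCat.ofHom ψ) := by
    exact (inferInstance : IsIso ((MvPolynomial.renameEquiv B
      (Equiv.ulift : ULift.{u} (Fin d) ≃ Fin d)).toRingEquiv.toCommRingCatIso).hom)
  refine ⟨Spec (CommRingCat.of (Localization.Away h)),
    Spec.map (CommRingCat.ofHom (algebraMap (B ⊗[A] Γ(Y, V)) (Localization.Away h))) ≫ c,
    Spec.map (CommRingCat.ofHom φ) ≫
      Spec.map (CommRingCat.ofHom (algebraMap (MvPolynomial (Fin d) B) (Localization.Away k))) ≫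
      Spec.map (CommRingCat.ofHom ψ) ≫
      (AffineSpace.SpecIso (ULift.{u} (Fin d)) (CommRingCat.of B)).inv, ?_, ?_, ?_, ?_⟩
  · have h1 : IsOpenImmersion (Spec.map (CommRingCat.ofHom
        (algebraMap (B ⊗[A] Γ(Y, V)) (Localization.Away h)))) :=
      IsOpenImmersion.of_isLocalization h
    infer_instance
  · have h1 : IsOpenImmersion (Spec.map (CommRingCat.ofHom
        (algebraMap (MvPolynomial (Fin d) B) (Localization.Away k)))) :=
      IsOpenImmersion.of_isLocalization k
    infer_instance
  · exact (inferInstance : Nonempty (PrimeSpectrum (Localization.Away h)))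
  · rw [Category.assoc, hc1, Category.assoc, Category.assoc, Category.assoc,
      AffineSpace.SpecIso_inv_over, ← Spec.map_comp, ← Spec.map_comp, ← Spec.map_comp,
      ← Spec.map_comp]
    congr 1
    ext x
    change algebraMap (B ⊗[A] Γ(Y, V)) (Localization.Away h) (algebraMap B (B ⊗[A] Γ(Y, V)) x) =
      e.symm (algebraMap (MvPolynomial (Fin d) B) (Localization.Away k)
        (MvPolynomial.renameEquiv B (Equiv.ulift : ULift.{u} (Fin d) ≃ Fin d) (MvPolynomial.C x)))
    have h2 : MvPolynomial.renameEquiv B (Equiv.ulift : ULift.{u} (Fin d) ≃ Fin d)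
        (MvPolynomial.C x) = algebraMap B (MvPolynomial (Fin d) B) x := by
      rw [MvPolynomial.renameEquiv_apply, MvPolynomial.rename_C]
      rfl
    rw [h2, ← IsScalarTower.algebraMap_apply, ← IsScalarTower.algebraMap_apply, AlgEquiv.commutes]

end Pool.Agent.TORE
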