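import Pool.Agent.TORE.G4

/-! Birational equivalence in the fibres. -/

namespace Pool.Agent.TORE

open AlgebraicGeometry CategoryTheory Limits

universe u

theorem G6b_half {B : Type u} [CommRing B] {Y U : Scheme.{u}} (πY : Y ⟶ Spec (CommRingCat.of B))
    (a : U ⟶ Y) [IsOpenImmersion a] (πU : U ⟶ Spec (CommRingCat.of B)) (hπ : a ≫ πY = πU)
    {L : Type u} [Field L] (y : B →+* L)
    (hd : Dense ((fibProj πY y ⁻¹ᵁ a.opensRange : (fib πY y).Opens) : Set (fib πY y))) :
    Scheme.BirationalOver (fibHom πU y) (fibHom πY y) := by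
  let m : fib πU y ⟶ fib πY y := pullback.map πU (Spec.map (CommRingCat.ofHom y)) πY
    (Spec.map (CommRingCat.ofHom y)) a (𝟙 _) (𝟙 _) (by rw [hπ, Category.comp_id])
    (by rw [Category.comp_id, Category.id_comp])
  have hop : IsOpenImmersion m := inferInstance
  have hr : Set.range m = fibProj πY y ⁻¹' Set.range a := by
    refine (Scheme.Pullback.range_map _ _ _ _ _ _ _ _ _).trans ?_
    simp only [Scheme.Hom.id_base, TopCat.coe_id, Set.range_id, Set.preimage_univ, Set.inter_univ]
  have hdom : IsDominant m := ⟨by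
    rw [DenseRange, hr]
    exact hd⟩
  refine Scheme.Hom.birationalOver m (fibHom πY y) (fibHom πU y) ?_
  simp only [m, fibHom, pullback.map, pullback.lift_snd, Category.comp_id]

/-- Proof. Apply `G4` to the ranges of `a` and `b` in `Y` and in `Z`. For a point `y : B → L` outside
the zeros of both elements, the base change `U_L = fib (a ≫ πY) y` has open immersions to `fib πY y`
and to `fib πZ y` over `Spec L` (`pullback.map`, or the universal property), whose ranges are the
inverse images of the ranges of `a` and `b`, so they are dominant: `Scheme.Hom.birationalOver`. -/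
theorem G6b {B : Type u} [CommRing B] [IsDomain B] {Y Z U : Scheme.{u}} [IsIntegral Y] [IsIntegral Z]
    (πY : Y ⟶ Spec (CommRingCat.of B)) [Smooth πY] [QuasiCompact πY]
    (πZ : Z ⟶ Spec (CommRingCat.of B)) [Smooth πZ] [QuasiCompact πZ]
    (a : U ⟶ Y) [IsOpenImmersion a] (b : U ⟶ Z) [IsOpenImmersion b] [Nonempty U]
    (hab : a ≫ πY = b ≫ πZ) :
    ∃ r : B, r ≠ 0 ∧ ∀ (L : Type u) [Field L] (y : B →+* L), y r ≠ 0 →
      Scheme.BirationalOver (fibHom πY y) (fibHom πZ y) := by
  obtain ⟨r₁, hr₁, h₁⟩ := G4 πY a.opensRange ⟨a (Classical.arbitrary U), ⟨_, rfl⟩⟩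
  obtain ⟨r₂, hr₂, h₂⟩ := G4 πZ b.opensRange ⟨b (Classical.arbitrary U), ⟨_, rfl⟩⟩
  refine ⟨r₁ * r₂, mul_ne_zero hr₁ hr₂, fun L _ y hy => ?_⟩
  rw [map_mul] at hy
  exact (G6b_half πY a (a ≫ πY) rfl y (h₁ L y (left_ne_zero_of_mul hy))).symm.trans
    (G6b_half πZ b (a ≫ πY) hab.symm y (h₂ L y (right_ne_zero_of_mul hy)))

end Pool.Agent.TORE
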