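import Pool.Agent.TORE.GDefs

/-! Affine spaces. -/

namespace Pool.Agent.TORE

open AlgebraicGeometry CategoryTheory Limits

universe u

/-- the affine space is smooth over the base (`AffineSpace.SpecIso`, a polynomial ring is smooth; or
`Smooth` is local on the target and stable under base change) -/
theorem G6c_smooth (n : Type u) [Finite n] (S : Scheme.{u}) : Smooth (𝔸(n; S) ↘ S) := by
  wlog hS : ∃ R, S = Spec R
  · refine (IsZariskiLocalAtTarget.iff_of_openCover (P := @Smooth) S.affineCover).mpr ?_
    intro i
    have := this (n := n) (S.affineCover.X i) ⟨_, rfl⟩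
    rwa [← (AffineSpace.isPullback_map (n := n) (S.affineCover.f i)).isoPullback_hom_snd,
      MorphismProperty.cancel_left_of_respectsIso (P := @Smooth)] at this
  obtain ⟨R, rfl⟩ := hS
  rw [← MorphismProperty.cancel_left_of_respectsIso (P := @Smooth)
    (AffineSpace.SpecIso n R).inv, AffineSpace.SpecIso_inv_over,
    HasRingHomProperty.Spec_iff (P := @Smooth)]
  change RingHom.Smooth (MvPolynomial.C : R →+* MvPolynomial n R)
  have h : Algebra.Smooth R (MvPolynomial n R) := ⟨inferInstance, inferInstance⟩
  rw [← RingHom.smooth_algebraMap] at h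
  exact h

/-- `AffineSpace.isPullback_map` -/
theorem G6c_fib {B : Type u} [CommRing B] (n : Type u) {L : Type u} [Field L] (y : B →+* L) :
    Scheme.BirationalOver
      (fibHom (𝔸(n; Spec (CommRingCat.of B)) ↘ Spec (CommRingCat.of B)) y)
      (𝔸(n; Spec (CommRingCat.of L)) ↘ Spec (CommRingCat.of L)) := by
  have h := AffineSpace.isPullback_map (n := n) (Spec.map (CommRingCat.ofHom y))
  refine (Scheme.Hom.birationalOver h.isoPullback.hom _ _ ?_).symm
  exact h.isoPullback_hom_snd

end Pool.Agent.TORE
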