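import Pool.Agent.TORE.GDefs

/-! Iterated base change, invariance under isomorphisms. -/

namespace Pool.Agent.TORE

open AlgebraicGeometry CategoryTheory Limits

universe u

theorem G6d_comp {A B L : Type u} [CommRing A] [CommRing B] [CommRing L] (f : A →+* B)
    (y : B →+* L) : Spec.map (CommRingCat.ofHom (y.comp f)) =
      Spec.map (CommRingCat.ofHom y) ≫ Spec.map (CommRingCat.ofHom f) := by
  rw [← Spec.map_comp]
  rfl

/-- `pullbackLeftPullbackSndIso` -/
theorem G6d_iso {A B L : Type u} [CommRing A] [CommRing B] [CommRing L] {Y : Scheme.{u}}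
    (π : Y ⟶ Spec (CommRingCat.of A)) (f : A →+* B) (y : B →+* L) :
    ∃ e : fib (fibHom π f) y ≅ fib π (y.comp f),
      e.hom ≫ fibHom π (y.comp f) = fibHom (fibHom π f) y ∧
      e.hom ≫ fibProj π (y.comp f) = fibProj (fibHom π f) y ≫ fibProj π f := by
  refine ⟨pullbackLeftPullbackSndIso π (Spec.map (CommRingCat.ofHom f))
    (Spec.map (CommRingCat.ofHom y)) ≪≫ pullback.congrHom rfl (G6d_comp f y).symm, ?_, ?_⟩
  · simp only [fibHom, Iso.trans_hom, Category.assoc, pullback.congrHom_hom, pullback.lift_snd,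
      Category.comp_id]
    exact pullbackLeftPullbackSndIso_hom_snd _ _ _
  · simp only [fibProj, Iso.trans_hom, Category.assoc, pullback.congrHom_hom, pullback.lift_fst,
      Category.comp_id]
    exact pullbackLeftPullbackSndIso_hom_fst _ _ _

/-- being rational only depends on the scheme over `L` up to isomorphism -/
theorem G6d_rat {L : Type u} [Field L] {Y Z : Scheme.{u}} (f : Y ⟶ Spec (CommRingCat.of L))
    (g : Z ⟶ Spec (CommRingCat.of L)) (h : Scheme.BirationalOver f g) (hg : RatOver g) :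
    RatOver f := by
  obtain ⟨n, hn, h2⟩ := hg
  exact ⟨n, hn, h.trans h2⟩

/-- an isomorphism over `S` is a birational equivalence over `S` -/
theorem G6d_isoBir {S Y Z : Scheme.{u}} (f : Y ⟶ S) (g : Z ⟶ S) (e : Y ≅ Z) (he : e.hom ≫ g = f) :
    Scheme.BirationalOver f g :=
  Scheme.Hom.birationalOver e.hom g f he

/-- `PureOver` with an arbitrary point instead of the generic point -/
def G6d_at {F : Type u} [Field F] {Z : Scheme.{u}} (g : Z ⟶ Spec (CommRingCat.of F)) (d : ℕ)
    (z : Z) : Prop :=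
  ∃ ε : RatFun F d ≃+* Z.presheaf.stalk z,
    Z.fromSpecStalk z ≫ g =
      Spec.map (CommRingCat.ofHom (ε.toRingHom.comp (algebraMap F (RatFun F d))))

/-- `PureOver` is invariant under open immersions -/
theorem G6d_at_iff {F : Type u} [Field F] {Y Z : Scheme.{u}}
    (f : Y ⟶ Spec (CommRingCat.of F)) (g : Z ⟶ Spec (CommRingCat.of F)) (e : Y ⟶ Z)
    [IsOpenImmersion e] (he : e ≫ g = f) (d : ℕ) (y : Y) (hd : G6d_at g d (e y)) :
    G6d_at f d y := by
  obtain ⟨ε, hε⟩ := hd
  refine ⟨ε.trans (asIso (e.stalkMap y)).commRingCatIsoToRingEquiv, ?_⟩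
  rw [← he, ← Category.assoc, ← Scheme.SpecMap_stalkMap_fromSpecStalk, Category.assoc, hε,
    ← Spec.map_comp]
  rfl

/-- `PureOver` is invariant under isomorphisms over `F` -/
theorem G6d_pure {F : Type u} [Field F] {Y Z : Scheme.{u}} [IsIntegral Y] [IsIntegral Z]
    (f : Y ⟶ Spec (CommRingCat.of F)) (g : Z ⟶ Spec (CommRingCat.of F)) (e : Y ≅ Z)
    (he : e.hom ≫ g = f) (d : ℕ) (hd : PureOver g d) : PureOver f d := by
  have hgp : e.hom (genericPoint Y) = genericPoint Z := genericPoint_eq_of_isOpenImmersion e.hom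
  have h1 : G6d_at g d (genericPoint Z) := hd
  rw [← hgp] at h1
  exact G6d_at_iff f g e.hom he d _ h1

end Pool.Agent.TORE
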