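import Pool.Agent.TORE.G1
import Pool.Agent.TORE.G2
import Pool.Agent.TORE.G3
import Pool.Agent.TORE.G5
import Pool.Agent.TORE.G6a
import Pool.Agent.TORE.G6b
import Pool.Agent.TORE.G6c
import Pool.Agent.TORE.G6d

/-! Spreading out over an affine base: if the base change of `Y` to an extension `F` of the fraction
field of `A` has a purely transcendental function field, then the fibres of `Y` over the geometric
points of a nonempty open subset of `Spec A` are rational. -/

namespace Pool.Agent.TORE

open AlgebraicGeometry CategoryTheory Limits TensorProduct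

universe u

theorem G6_isIntegral_of_iso {Y Z : Scheme.{u}} (e : Y ≅ Z) [AlgebraicGeometry.IsIntegral Z] :
    AlgebraicGeometry.IsIntegral Y :=
  have : Nonempty Y := ⟨e.inv (Classical.arbitrary Z)⟩
  isIntegral_of_isOpenImmersion e.hom

/-- Proof. `Y` is integral (`G1`), so there is a nonempty affine open set `V`; `C = Γ(Y, V)` is a flat
`A`-algebra of finite type. `G2` and `G3` give a finitely generated `B ≤ F` and an isomorphism of
localisations of `B ⊗_A C` and of `B[X_1, ..., X_d]`. The base change `Y_B = fib π (algebraMap A B)` is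
smooth, quasi-compact, and integral by `G1` (with `G6d_iso`: its base change to `F` is `fib π _`). `G6a`
gives the common open subset of `Y_B` and of the affine space, `G6b` a nonzero `r ∈ B`, `G5` (for `r`)
the element `a`. A point `x : A → L` with `x a ≠ 0` extends to `y : B → L` with `y r ≠ 0`, and
`fib π x ≅ fib (fibHom π _) y` is birational over `L` to `fib (𝔸 ↘ Spec B) y`, hence to the affine
space over `L` (`G6c`, `G6d`). -/
theorem G6 {A : Type u} [CommRing A] [IsDomain A] [IsNoetherianRing A] {Y : Scheme.{u}}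
    (π : Y ⟶ Spec (CommRingCat.of A)) [Smooth π] [QuasiCompact π] {F : Type u} [Field F] [Algebra A F]
    (hi : Function.Injective (algebraMap A F)) [IsIntegral (fib π (algebraMap A F))] (d : ℕ)
    (hd : PureOver (fibHom π (algebraMap A F)) d) :
    ∃ a : A, a ≠ 0 ∧ ∀ (L : Type u) [Field L] [IsAlgClosed L] (x : A →+* L), x a ≠ 0 →
      RatOver (fibHom π x) := by
  have hY : AlgebraicGeometry.IsIntegral Y := G1 π (algebraMap A F) hi
  obtain ⟨V, hV, hV'⟩ : ∃ V : Y.Opens, IsAffineOpen V ∧ (V : Set Y).Nonempty := by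
    obtain ⟨V, hV, hx, -⟩ := exists_isAffineOpen_mem_and_subset (x := genericPoint Y) (U := ⊤) trivial
    exact ⟨V, hV, _, hx⟩
  let algC : Algebra A Γ(Y, V) :=
    ((Scheme.ΓSpecIso (CommRingCat.of A)).inv ≫ π.appLE ⊤ V le_top).hom.toAlgebra
  have halg : algebraMap A Γ(Y, V) =
      ((Scheme.ΓSpecIso (CommRingCat.of A)).inv ≫ π.appLE ⊤ V le_top).hom := rfl
  have hsm : (algebraMap A Γ(Y, V)).Smooth := by
    have h1 := π.smooth_appLE (isAffineOpen_top _) hV (le_top : V ≤ π ⁻¹ᵁ ⊤)
    exact (RingHom.Smooth.propertyIsLocal.respectsIso.cancel_left_isIso _ _).2 h1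
  have : Algebra.Smooth A Γ(Y, V) := RingHom.smooth_algebraMap.1 hsm
  have : Module.Flat A Γ(Y, V) := inferInstance
  have : Algebra.FiniteType A Γ(Y, V) := inferInstance
  obtain ⟨j, hj⟩ := G2 π hi d hd V hV hV' halg
  obtain ⟨B, hB, h, k, hh, hk, ⟨e⟩⟩ := G3 j hj
  have hBinj : Function.Injective (algebraMap B F) := Subtype.val_injective
  have hAB : Function.Injective (algebraMap A B) := by
    intro a b hab
    apply hi
    have := congrArg (algebraMap B F) hab
    rwa [← IsScalarTower.algebraMap_apply, ← IsScalarTower.algebraMap_apply] at this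
  have : Algebra.FiniteType A B := B.fg_iff_finiteType.1 hB
  have hcomp : (algebraMap B F).comp (algebraMap A B) = algebraMap A F :=
    (IsScalarTower.algebraMap_eq A B F).symm
  -- the base change to `B`
  obtain ⟨i1, -, -⟩ := G6d_iso π (algebraMap A B) (algebraMap B F)
  rw [hcomp] at i1
  have hZ : AlgebraicGeometry.IsIntegral (fib (fibHom π (algebraMap A B)) (algebraMap B F)) :=
    G6_isIntegral_of_iso i1
  have hYB : AlgebraicGeometry.IsIntegral (fib π (algebraMap A B)) :=
    G1 (fibHom π (algebraMap A B)) (algebraMap B F) hBinj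
  have : IsDomain (MvPolynomial (Fin d) B) := inferInstance
  have hnt : Nontrivial (Localization.Away h) := by
    have : Nontrivial (Localization.Away k) :=
      (IsLocalization.injective (Localization.Away k)
        (powers_le_nonZeroDivisors_of_noZeroDivisors hk)).nontrivial
    exact e.symm.injective.nontrivial
  obtain ⟨U, a, b, ha, hb, hU, hab⟩ := G6a π V hV halg B h k hnt e
  have := G6c_smooth (ULift.{u} (Fin d)) (Spec (CommRingCat.of B))
  obtain ⟨r, hr, H⟩ := G6b (fibHom π (algebraMap A B))
    (𝔸(ULift.{u} (Fin d); Spec (CommRingCat.of B)) ↘ Spec (CommRingCat.of B)) a b hab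
  obtain ⟨s, hs, Hs⟩ := G5 hAB r hr
  refine ⟨s, hs, fun L _ _ x hx => ?_⟩
  obtain ⟨y, rfl, hy⟩ := Hs L x hx
  obtain ⟨i2, h2, -⟩ := G6d_iso π (algebraMap A B) y
  refine G6d_rat _ _ (G6d_isoBir _ _ i2.symm ?_ : Scheme.BirationalOver _ (fibHom (fibHom π (algebraMap A B)) y)) ?_
  · rw [← h2]
    simp
  · exact ⟨ULift.{u} (Fin d), inferInstance, (H L y hy).trans (G6c_fib _ y)⟩

end Pool.Agent.TORE
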