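import Pool.Agent.TORE.GDefs

/-! The affine charts of a base change. -/

namespace Pool.Agent.TORE

open AlgebraicGeometry CategoryTheory Limits TensorProduct

universe u

/-- `pullbackSpecIso`, and the inverse image of an open subscheme in a pullback is a pullback. -/
theorem chart {A : Type u} [CommRing A] {Y : Scheme.{u}} (π : Y ⟶ Spec (CommRingCat.of A))
    (V : Y.Opens) (hV : IsAffineOpen V) [Algebra A Γ(Y, V)]
    (halg : algebraMap A Γ(Y, V) =
      ((Scheme.ΓSpecIso (CommRingCat.of A)).inv ≫ π.appLE ⊤ V le_top).hom)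
    (B : Type u) [CommRing B] [Algebra A B] :
    ∃ (c : Spec (CommRingCat.of (B ⊗[A] Γ(Y, V))) ⟶ fib π (algebraMap A B)) (_ : IsOpenImmersion c),
      c ≫ fibHom π (algebraMap A B) =
        Spec.map (CommRingCat.ofHom (algebraMap B (B ⊗[A] Γ(Y, V)))) ∧
      c ≫ fibProj π (algebraMap A B) =
        Spec.map (CommRingCat.ofHom
          (Algebra.TensorProduct.includeRight (R := A) (A := B) (B := Γ(Y, V))).toRingHom) ≫
          hV.fromSpec ∧
      c.opensRange = fibProj π (algebraMap A B) ⁻¹ᵁ V := by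
  have hπ : hV.fromSpec ≫ π = Spec.map (CommRingCat.ofHom (algebraMap A Γ(Y, V))) := by
    have h1 := IsAffineOpen.SpecMap_appLE_fromSpec π (isAffineOpen_top (Spec (CommRingCat.of A)))
      hV le_top
    rw [← h1, IsAffineOpen.fromSpec_top, halg, CommRingCat.ofHom_hom, Spec.map_comp]
    congr 1
    exact Scheme.isoSpec_Spec_inv _
  let c₁ : pullback (Spec.map (CommRingCat.ofHom (algebraMap A Γ(Y, V))))
      (Spec.map (CommRingCat.ofHom (algebraMap A B))) ⟶ fib π (algebraMap A B) :=
    pullback.map _ _ π (Spec.map (CommRingCat.ofHom (algebraMap A B))) hV.fromSpec (𝟙 _) (𝟙 _)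
      (by rw [hπ, Category.comp_id]) (by rw [Category.comp_id, Category.id_comp])
  let c₀ : Spec (CommRingCat.of (B ⊗[A] Γ(Y, V))) ⟶
      pullback (Spec.map (CommRingCat.ofHom (algebraMap A Γ(Y, V))))
      (Spec.map (CommRingCat.ofHom (algebraMap A B))) :=
    (pullbackSpecIso A B Γ(Y, V)).inv ≫ (pullbackSymmetry _ _).hom
  refine ⟨c₀ ≫ c₁, inferInstance, ?_, ?_, ?_⟩
  · simp only [c₀, c₁, fibHom, Category.assoc, pullback.lift_snd, pullback.map, Category.comp_id,
      pullbackSymmetry_hom_comp_snd]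
    exact pullbackSpecIso_inv_fst' A B Γ(Y, V)
  · simp only [c₀, c₁, fibProj, Category.assoc, pullback.lift_fst, pullback.map]
    rw [pullbackSymmetry_hom_comp_fst_assoc, ← Category.assoc]
    congr 1
    exact pullbackSpecIso_inv_snd A B Γ(Y, V)
  · apply TopologicalSpace.Opens.ext
    have hr : Set.range (c₀ ≫ c₁) = Set.range c₁ := by
      rw [Scheme.Hom.comp_base, TopCat.coe_comp, Set.range_comp, Set.range_eq_univ.mpr,
        Set.image_univ]
      exact (Scheme.homeoOfIso (asIso c₀)).surjective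
    rw [Scheme.Hom.coe_opensRange, hr]
    refine (Scheme.Pullback.range_map _ _ _ _ _ _ _ _ _).trans ?_
    rw [hV.range_fromSpec]
    simp only [Scheme.Hom.id_base, TopCat.coe_id, Set.range_id, Set.preimage_univ, Set.inter_univ]
    rfl

end Pool.Agent.TORE
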