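import Mathlib

/-! Noether normalisation of a finitely generated `K`-algebra with a given `K`-point, the variables
going to `0` in the point. -/

namespace Pool.Agent.TORE

open MvPolynomial

universe u

theorem E1 {K : Type u} [Field K] {D : Type u} [CommRing D] [IsDomain D] [Algebra K D]
    [Algebra.FiniteType K D] (φ : D →ₐ[K] K) :
    ∃ (m : ℕ) (g : MvPolynomial (Fin m) K →ₐ[K] D), Function.Injective g ∧
      g.toRingHom.IsIntegral ∧ ∀ i, φ (g (X i)) = 0 := by
  obtain ⟨m, g0, hinj, hint⟩ := exists_integral_inj_algHom_of_fg K D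
  obtain ⟨c, hc⟩ : ∃ c : Fin m → K, ∀ i, φ (g0 (X i)) = c i := ⟨_, fun i => rfl⟩
  let τ : MvPolynomial (Fin m) K →ₐ[K] MvPolynomial (Fin m) K := aeval (fun i => X i - C (c i))
  let σ : MvPolynomial (Fin m) K →ₐ[K] MvPolynomial (Fin m) K := aeval (fun i => X i + C (c i))
  have hστ : ∀ p, σ (τ p) = p := by
    intro p
    have h : σ.comp τ = AlgHom.id K _ := by
      apply MvPolynomial.algHom_ext
      intro i
      have h1 : σ (C (c i)) = C (c i) := σ.commutes (c i)
      have h2 : σ (X i) = X i + C (c i) := aeval_X _ i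
      have h3 : τ (X i) = X i - C (c i) := aeval_X _ i
      rw [AlgHom.comp_apply, h3, map_sub, h1, h2, add_sub_cancel_right]
      rfl
    exact DFunLike.congr_fun h p
  have hτσ : ∀ p, τ (σ p) = p := by
    intro p
    have h : τ.comp σ = AlgHom.id K _ := by
      apply MvPolynomial.algHom_ext
      intro i
      have h1 : τ (C (c i)) = C (c i) := τ.commutes (c i)
      have h2 : σ (X i) = X i + C (c i) := aeval_X _ i
      have h3 : τ (X i) = X i - C (c i) := aeval_X _ i
      rw [AlgHom.comp_apply, h2, map_add, h1, h3, sub_add_cancel]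
      rfl
    exact DFunLike.congr_fun h p
  refine ⟨m, g0.comp τ, ?_, ?_, ?_⟩
  · intro p q h
    have h1 : τ p = τ q := hinj h
    rw [← hστ p, ← hστ q, h1]
  · have h1 : (τ : MvPolynomial (Fin m) K →+* MvPolynomial (Fin m) K).IsIntegral :=
      RingHom.isIntegral_of_surjective _ (fun p => ⟨σ p, hτσ p⟩)
    exact RingHom.IsIntegral.trans _ _ h1 hint
  · intro i
    have h3 : τ (X i) = X i - C (c i) := aeval_X _ i
    have h4 : g0 (C (c i)) = algebraMap K D (c i) := g0.commutes (c i)
    rw [AlgHom.comp_apply, h3, map_sub, map_sub, hc, h4, AlgHom.commutes]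
    exact sub_self _

end Pool.Agent.TORE
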