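import Mathlib

/-! An algebraically closed field of characteristic zero has infinite degree over `ℚ`. -/

namespace Pool.Agent.TORE

universe u

/-- For a prime `p` the field `K` contains a root `ζ` of the cyclotomic polynomial `Φ_p`, which is the
minimal polynomial of `ζ` over `ℚ`, of degree `p - 1`. Hence `K` is not finite over `ℚ`, and there
are arbitrarily large finite `ℚ`-independent families. -/
theorem E2b {K : Type u} [Field K] [CharZero K] [IsAlgClosed K] (m : ℕ) :
    ∃ l : Fin m → K, LinearIndependent ℚ l := by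
  obtain ⟨p, hmp, hp⟩ := Nat.exists_infinite_primes (m + 1)
  have hp0 : 0 < p := hp.pos
  have : NeZero ((p : ℕ) : K) := ⟨by exact_mod_cast hp0.ne'⟩
  obtain ⟨ζ, hζ⟩ := HasEnoughRootsOfUnity.exists_primitiveRoot K p
  have hmin : Polynomial.cyclotomic p ℚ = minpoly ℚ ζ :=
    Polynomial.cyclotomic_eq_minpoly_rat hζ hp0
  have hdeg : (minpoly ℚ ζ).natDegree = p - 1 := by
    rw [← hmin, Polynomial.natDegree_cyclotomic, Nat.totient_prime hp]
  have hli := linearIndependent_pow (K := ℚ) ζ
  have hle : m ≤ (minpoly ℚ ζ).natDegree := by rw [hdeg]; omega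
  refine ⟨fun i => ζ ^ (i : ℕ), ?_⟩
  exact hli.comp (fun i : Fin m => (⟨(i : ℕ), lt_of_lt_of_le i.2 hle⟩ : Fin _)) (by
    intro a b hab
    simp only [Fin.mk.injEq] at hab
    exact Fin.ext hab)

end Pool.Agent.TORE
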