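import Pool.Agent.TORE.E2a
import Pool.Agent.TORE.E2b

/-! Algebraically independent power series without constant term. -/

namespace Pool.Agent.TORE

open MvPolynomial

universe u

theorem E2_ex_sum {K : Type u} [Field K] [CharZero K] {ι : Type} (S : Finset ι) (f : ι → K) :
    ex (∑ i ∈ S, f i) = ∏ i ∈ S, ex (f i) := by
  classical
  induction S using Finset.induction_on with
  | empty => rw [Finset.sum_empty, Finset.prod_empty, ex_zero]
  | insert a S ha ih => rw [Finset.sum_insert ha, Finset.prod_insert ha, ex_add, ih]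

theorem E2_ex_mul {K : Type u} [Field K] [CharZero K] (n : ℕ) (a : K) :
    ex ((n : K) * a) = ex a ^ n := by
  induction n with
  | zero => rw [Nat.cast_zero, zero_mul, pow_zero, ex_zero]
  | succ n ih => rw [Nat.cast_succ, add_mul, one_mul, ex_add, ih, pow_succ]

theorem E2_inj {K : Type u} [Field K] [CharZero K] {m : ℕ} {l : Fin m → K} (hl : LinearIndependent ℚ l) :
    Function.Injective (fun a : Fin m →₀ ℕ => ∑ i, (a i : K) * l i) := by
  intro a b h
  have h' : ∑ i, (a i : K) * l i = ∑ i, (b i : K) * l i := h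
  rw [Fintype.linearIndependent_iff] at hl
  have h1 := hl (fun i => (a i : ℚ) - (b i : ℚ)) (by
    have h2 : ∀ i, ((a i : ℚ) - (b i : ℚ)) • l i = (a i : K) * l i - (b i : K) * l i := by
      intro i
      rw [Algebra.smul_def, map_sub, map_natCast, map_natCast, sub_mul]
    rw [Finset.sum_congr rfl (fun i _ => h2 i), Finset.sum_sub_distrib, h', sub_self])
  ext i
  have h3 := h1 i
  have h4 : (a i : ℚ) = (b i : ℚ) := by linarith
  exact_mod_cast h4

theorem E2_mono {K : Type u} [Field K] [CharZero K] {m : ℕ} (l : Fin m → K) (a : Fin m →₀ ℕ) (q : K) :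
    aeval (fun i => ex (l i)) (monomial a q) = q • ex (∑ i, (a i : K) * l i) := by
  rw [aeval_monomial, Algebra.smul_def, E2_ex_sum, Finsupp.prod_fintype]
  · congr 1
    exact Finset.prod_congr rfl (fun i _ => (E2_ex_mul _ _).symm)
  · intro i
    exact pow_zero _

theorem E2_ker {K : Type u} [Field K] [CharZero K] {m : ℕ} {l : Fin m → K} (hl : LinearIndependent ℚ l)
    (p : MvPolynomial (Fin m) K) (hp : aeval (fun i => ex (l i)) p = 0) : p = 0 := by
  have h1 : LinearIndependent K (fun a : Fin m →₀ ℕ => ex (∑ i, (a i : K) * l i)) :=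
    (E2a (K := K)).comp _ (E2_inj hl)
  have h2 : ∑ a ∈ p.support, coeff a p • ex (∑ i, (a i : K) * l i) = 0 := by
    rw [← hp]
    conv_rhs => rw [p.as_sum]
    rw [map_sum]
    exact Finset.sum_congr rfl (fun a _ => (E2_mono l a _).symm)
  have h3 := linearIndependent_iff'.1 h1 p.support (fun a => coeff a p) h2
  ext a
  rw [coeff_zero]
  by_cases ha : a ∈ p.support
  · exact h3 a ha
  · exact notMem_support_iff.1 ha

/-- `X i ↦ exp (l i t) - 1`, with the `l i` from `E2b`. Injectivity: the substitution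
`X i ↦ X i + 1` is an automorphism, and `∑ q_a exp ((∑ a_i l_i) t) = 0` implies `q_a = 0` for all `a`
by `E2a`, since the numbers `∑ a_i l_i` are distinct. -/
theorem E2 {K : Type u} [Field K] [CharZero K] [IsAlgClosed K] (m : ℕ) :
    ∃ ψ : MvPolynomial (Fin m) K →ₐ[K] PowerSeries K, Function.Injective ψ ∧
      ∀ i, PowerSeries.constantCoeff (ψ (X i)) = 0 := by
  obtain ⟨l, hl⟩ := E2b (K := K) m
  let ψ : MvPolynomial (Fin m) K →ₐ[K] PowerSeries K := aeval (fun i => ex (l i))
  let τ : MvPolynomial (Fin m) K →ₐ[K] MvPolynomial (Fin m) K := aeval (fun i => X i - 1)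
  let σ : MvPolynomial (Fin m) K →ₐ[K] MvPolynomial (Fin m) K := aeval (fun i => X i + 1)
  have hστ : ∀ p, σ (τ p) = p := by
    intro p
    have h : σ.comp τ = AlgHom.id K _ := by
      apply MvPolynomial.algHom_ext
      intro i
      have h2 : σ (X i) = X i + 1 := aeval_X _ i
      have h3 : τ (X i) = X i - 1 := aeval_X _ i
      rw [AlgHom.comp_apply, h3, map_sub, map_one, h2, add_sub_cancel_right]
      rfl
    exact DFunLike.congr_fun h p
  refine ⟨ψ.comp τ, ?_, ?_⟩
  · rw [injective_iff_map_eq_zero]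
    intro p hp
    have h1 : τ p = 0 := E2_ker hl (τ p) hp
    rw [← hστ p, h1, map_zero]
  · intro i
    have h3 : τ (X i) = X i - 1 := aeval_X _ i
    have h4 : ψ (X i) = ex (l i) := aeval_X _ i
    rw [AlgHom.comp_apply, h3, map_sub, map_one, h4, map_sub, ex_coeff, map_one, sub_self]

end Pool.Agent.TORE
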