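import Mathlib

/-! The exponential series `exp (μ t)`, `μ : K`, are linearly independent. -/

namespace Pool.Agent.TORE

universe u

/-- The series `exp (μ t)`. -/
noncomputable def ex {K : Type u} [Field K] [CharZero K] (μ : K) : PowerSeries K :=
  PowerSeries.rescale μ (PowerSeries.exp K)

private theorem E2a_coeff {K : Type u} [Field K] [CharZero K] (a : K) (n : ℕ) :
    PowerSeries.coeff n (ex a) = a ^ n * (n.factorial : K)⁻¹ := by
  unfold ex
  rw [PowerSeries.coeff_rescale, PowerSeries.coeff_exp]
  congr 1
  rw [one_div, map_inv₀, map_natCast]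

private theorem E2a_deriv {K : Type u} [Field K] [CharZero K] (a : K) :
    PowerSeries.derivative K (ex a) = a • ex a := by
  ext n
  rw [PowerSeries.coeff_derivative, E2a_coeff, map_smul, E2a_coeff, Nat.factorial_succ,
    smul_eq_mul]
  have h1 : ((n : K) + 1) ≠ 0 := by exact_mod_cast Nat.succ_ne_zero n
  have h2 : (n.factorial : K) ≠ 0 := by exact_mod_cast Nat.factorial_ne_zero n
  push_cast
  field_simp
  ring

/-- For distinct `μ` the series `exp (μ t)` are eigenvectors of `d/dt` for distinct eigenvalues
(`Module.End.eigenvectors_linearIndependent'`). -/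
theorem E2a {K : Type u} [Field K] [CharZero K] : LinearIndependent K (ex : K → PowerSeries K) := by
  refine Module.End.eigenvectors_linearIndependent'
    ((PowerSeries.derivative K : Derivation K (PowerSeries K) (PowerSeries K)) :
      PowerSeries K →ₗ[K] PowerSeries K) (fun μ => μ) (fun _ _ h => h) ex fun μ => ?_
  refine ⟨Module.End.mem_eigenspace_iff.2 (E2a_deriv μ), ?_⟩
  intro h
  have h1 := E2a_coeff μ 0
  rw [h, map_zero] at h1
  simp at h1

/-- `PowerSeries.exp_mul_exp_eq_exp_add` -/
theorem ex_add {K : Type u} [Field K] [CharZero K] (a b : K) : ex (a + b) = ex a * ex b := by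
  unfold ex
  exact (PowerSeries.exp_mul_exp_eq_exp_add a b).symm

theorem ex_zero {K : Type u} [Field K] [CharZero K] : ex (0 : K) = 1 := by
  ext n
  rw [E2a_coeff, PowerSeries.coeff_one]
  by_cases h : n = 0
  · subst h
    simp
  · rw [if_neg h, zero_pow h, zero_mul]

theorem ex_coeff {K : Type u} [Field K] [CharZero K] (a : K) :
    PowerSeries.constantCoeff (ex a) = 1 := by
  have h := E2a_coeff a 0
  rw [PowerSeries.coeff_zero_eq_constantCoeff_apply] at h
  rw [h]
  simp

end Pool.Agent.TORE
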