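import Mathlib

/-! Separation of the points of a finite fibre. -/

namespace Pool.Agent.TORE

open MvPolynomial

universe u

/-- `D` is finite over `A = K[X_1, ..., X_m]`; the maximal ideals of `D` over the ideal of the origin
are finitely many; `z` lies in the one given (`ker φ`) and in no other one. -/
theorem E3 {K : Type u} [Field K] {D : Type u} [CommRing D] [IsDomain D] [Algebra K D]
    [Algebra.FiniteType K D] (φ : D →ₐ[K] K) {m : ℕ} (g : MvPolynomial (Fin m) K →ₐ[K] D)
    (hint : g.toRingHom.IsIntegral) (hφ : ∀ i, φ (g (X i)) = 0) :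
    ∃ z : D, φ z = 0 ∧ ∀ P : Ideal D, P.IsPrime → (∀ i, g (X i) ∈ P) → z ∈ P →
      P = RingHom.ker φ.toRingHom := by
  classical
  set J : Ideal D := Ideal.span (Set.range fun i => g (X i)) with hJ
  have hga : ∀ a, g a - algebraMap K D (constantCoeff a) ∈ J := by
    intro a
    induction a using MvPolynomial.induction_on with
    | C c =>
      have e : g (C c) = algebraMap K D c := by
        rw [← MvPolynomial.algebraMap_eq, AlgHom.commutes]
      rw [e, constantCoeff_C, sub_self]
      exact J.zero_mem
    | add p q hp hq =>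
      have e : g (p + q) - algebraMap K D (constantCoeff (p + q)) =
          (g p - algebraMap K D (constantCoeff p)) + (g q - algebraMap K D (constantCoeff q)) := by
        rw [map_add, map_add, map_add]
        ring
      rw [e]
      exact J.add_mem hp hq
    | mul_X p i hp =>
      have e : g (p * X i) - algebraMap K D (constantCoeff (p * X i)) = g p * g (X i) := by
        rw [map_mul, map_mul, constantCoeff_X, mul_zero, map_zero, sub_zero]
      rw [e]
      exact J.mul_mem_left _ (Ideal.subset_span ⟨i, rfl⟩)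
  have hring : (Ideal.Quotient.mk J).comp g.toRingHom =
      (algebraMap K (D ⧸ J)).comp (constantCoeff (σ := Fin m) (R := K)) := by
    refine RingHom.ext fun a => ?_
    have h1 := Ideal.Quotient.eq.2 (hga a)
    exact h1
  have hint' : Algebra.IsIntegral K (D ⧸ J) := by
    constructor
    intro x
    obtain ⟨d, rfl⟩ := Ideal.Quotient.mk_surjective x
    obtain ⟨p, hp, hp'⟩ := hint d
    refine ⟨p.map constantCoeff, hp.map _, ?_⟩
    rw [Polynomial.eval₂_map, ← hring, ← Polynomial.hom_eval₂, hp', map_zero]
  have hfin : Module.Finite K (D ⧸ J) := Algebra.IsIntegral.finite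
  have hart : IsArtinianRing (D ⧸ J) := IsArtinianRing.of_finite K (D ⧸ J)
  have hset : {P : Ideal D | P.IsPrime ∧ ∀ i, g (X i) ∈ P}.Finite := by
    have hps : Finite (PrimeSpectrum (D ⧸ J)) := inferInstance
    refine (Set.finite_range (fun p : PrimeSpectrum (D ⧸ J) =>
      Ideal.comap (Ideal.Quotient.mk J) p.asIdeal)).subset ?_
    rintro P ⟨hP, hPi⟩
    have hJP : J ≤ P := by
      rw [hJ, Ideal.span_le]
      rintro _ ⟨i, rfl⟩
      exact hPi i
    have hker : RingHom.ker (Ideal.Quotient.mk J) ≤ P := by
      rw [Ideal.mk_ker]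
      exact hJP
    have hprime : (Ideal.map (Ideal.Quotient.mk J) P).IsPrime :=
      Ideal.map_isPrime_of_surjective Ideal.Quotient.mk_surjective hker
    refine ⟨⟨_, hprime⟩, ?_⟩
    show Ideal.comap (Ideal.Quotient.mk J) (Ideal.map (Ideal.Quotient.mk J) P) = P
    rw [Ideal.comap_map_of_surjective _ Ideal.Quotient.mk_surjective, sup_eq_left]
    exact hker
  have hsurj : Function.Surjective φ.toRingHom := fun c => ⟨algebraMap K D c, φ.commutes c⟩
  have hmax : (RingHom.ker φ.toRingHom).IsMaximal := RingHom.ker_isMaximal_of_surjective _ hsurj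
  by_contra hcon
  push Not at hcon
  let s : Finset (Ideal D) := hset.toFinset.erase (RingHom.ker φ.toRingHom)
  have hsub : ((RingHom.ker φ.toRingHom : Ideal D) : Set D) ⊆ ⋃ P ∈ (↑s : Set (Ideal D)), (id P : Ideal D) := by
    intro z hz
    obtain ⟨P, hP, hPi, hzP, hne⟩ := hcon z (RingHom.mem_ker.1 hz)
    refine Set.mem_iUnion₂.2 ⟨P, ?_, hzP⟩
    rw [Finset.mem_coe, Finset.mem_erase, Set.Finite.mem_toFinset]
    exact ⟨hne, hP, hPi⟩
  rw [Ideal.subset_union_prime (RingHom.ker φ.toRingHom) (RingHom.ker φ.toRingHom)] at hsub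
  · obtain ⟨P, hPs, hle⟩ := hsub
    rw [Finset.mem_erase, Set.Finite.mem_toFinset] at hPs
    exact hPs.1 (hmax.eq_of_le hPs.2.1.ne_top hle).symm
  · intro P hPs _ _
    rw [Finset.mem_erase, Set.Finite.mem_toFinset] at hPs
    exact hPs.2.1

end Pool.Agent.TORE
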