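import Mathlib

/-! The integral closure of `K⟦t⟧` in a finite extension of `K((t))`: finiteness. -/

namespace Pool.Agent.TORE

universe u

variable {K : Type u} [Field K] [CharZero K] (L : Type u) [Field L] [Algebra (PowerSeries K) L]
  [Algebra (FractionRing (PowerSeries K)) L]
  [IsScalarTower (PowerSeries K) (FractionRing (PowerSeries K)) L]
  [FiniteDimensional (FractionRing (PowerSeries K)) L]

omit [FiniteDimensional (FractionRing (PowerSeries K)) L] [CharZero K] in
theorem E4b_inj : Function.Injective (algebraMap (PowerSeries K) L) := by
  rw [IsScalarTower.algebraMap_eq (PowerSeries K) (FractionRing (PowerSeries K)) L]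
  exact (algebraMap (FractionRing (PowerSeries K)) L).injective.comp
    (IsFractionRing.injective (PowerSeries K) (FractionRing (PowerSeries K)))

/-- `IsIntegralClosure.finite`-type lemmas: the extension is separable (characteristic zero) and
`K⟦t⟧` is integrally closed and noetherian -/
theorem E4b_finite : Module.Finite (PowerSeries K) (integralClosure (PowerSeries K) L) := by
  have h1 : CharZero (PowerSeries K) :=
    charZero_of_injective_algebraMap (R := K) (A := PowerSeries K) (by
      intro a b h
      simpa using congrArg (PowerSeries.constantCoeff (R := K)) h)
  have h2 : CharZero (FractionRing (PowerSeries K)) := IsFractionRing.charZero_of_isFractionRing (PowerSeries K)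
  exact IsIntegralClosure.finite (PowerSeries K) (FractionRing (PowerSeries K)) L
    (integralClosure (PowerSeries K) L)

/-- a finite torsion free module over a principal ideal domain is free -/
theorem E4b_free : Module.Free (PowerSeries K) (integralClosure (PowerSeries K) L) := by
  have h1 := E4b_finite (K := K) L
  have h3 : FaithfulSMul (PowerSeries K) L := (faithfulSMul_iff_algebraMap_injective _ _).2 (E4b_inj L)
  have h2 : Module.IsTorsionFree (PowerSeries K) (integralClosure (PowerSeries K) L) := by
    have : Module.IsTorsionFree (PowerSeries K) L := inferInstance
    infer_instance
  exact Module.free_of_finite_type_torsion_free'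

/-- `integralClosure.isDedekindDomain` -/
theorem E4b_dedekind : IsDedekindDomain (integralClosure (PowerSeries K) L) := by
  have h1 : CharZero (PowerSeries K) :=
    charZero_of_injective_algebraMap (R := K) (A := PowerSeries K) (by
      intro a b h
      simpa using congrArg (PowerSeries.constantCoeff (R := K)) h)
  have h2 : CharZero (FractionRing (PowerSeries K)) := IsFractionRing.charZero_of_isFractionRing (PowerSeries K)
  exact integralClosure.isDedekindDomain (PowerSeries K) (FractionRing (PowerSeries K)) L

/-- the integral closure of a domain which is not a field is not a field
(`isField_of_isIntegral_of_isField`) -/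
theorem E4b_notField : ¬ IsField (integralClosure (PowerSeries K) L) := by
  intro h
  have h1 : Function.Injective (algebraMap (PowerSeries K) (integralClosure (PowerSeries K) L)) := by
    intro a b hab
    exact E4b_inj L (congrArg Subtype.val hab)
  have h2 : IsField (PowerSeries K) := isField_of_isIntegral_of_isField h1 h
  exact PowerSeries.not_isField h2

end Pool.Agent.TORE
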