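import Pool.Agent.TORE.E4l
import Pool.Agent.TORE.E4b

/-! The integral closure of `K⟦t⟧` in a finite extension of `K((t))` is a complete discrete valuation
ring with residue field `K`. -/

namespace Pool.Agent.TORE

universe u

/-- `R` is a complete discrete valuation ring and a `K`-algebra, and `ρ : R → K` is a `K`-algebra
homomorphism (so it is the map to the residue field). -/
structure ArcRing (K : Type u) [Field K] (R : Type u) [CommRing R] [Algebra K R] (ρ : R →ₐ[K] K) :
    Prop where
  isDomain : IsDomain R
  dvr : IsDiscreteValuationRing R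
  complete : IsAdicComplete (IsLocalRing.maximalIdeal R) R

theorem E4_complete {B : Type u} [CommRing B] [IsNoetherianRing B] [IsLocalRing B] (t : B)
    (ht : t ∈ IsLocalRing.maximalIdeal B) [IsAdicComplete (Ideal.span {t}) B] (e : ℕ)
    (he : Ideal.span {t} = IsLocalRing.maximalIdeal B ^ e) :
    IsAdicComplete (IsLocalRing.maximalIdeal B) B := by
  have hP : IsPrecomplete (IsLocalRing.maximalIdeal B) B := by
    refine ⟨fun f hf => ?_⟩
    have hle : ∀ n, n ≤ e * n := by
      intro n
      rcases Nat.eq_zero_or_pos e with h0 | h0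
      · exfalso
        rw [h0, pow_zero, Ideal.one_eq_top] at he
        have h1 : Ideal.span {t} ≤ IsLocalRing.maximalIdeal B := by
          rw [Ideal.span_le, Set.singleton_subset_iff]
          exact ht
        rw [he] at h1
        exact (IsLocalRing.maximalIdeal.isMaximal B).ne_top (top_le_iff.1 h1)
      · exact Nat.le_mul_of_pos_left n h0
    have hpow : ∀ n, (Ideal.span {t} : Ideal B) ^ n = IsLocalRing.maximalIdeal B ^ (e * n) := by
      intro n
      rw [he, ← pow_mul]
    obtain ⟨L, hL⟩ := IsPrecomplete.prec (I := (Ideal.span {t} : Ideal B)) (M := B) inferInstance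
      (f := fun n => f (e * n)) (by
        intro m n hmn
        have h1 := hf (Nat.mul_le_mul_left e hmn)
        rw [hpow m]
        exact h1)
    refine ⟨L, fun n => ?_⟩
    have h1 := hf (hle n)
    have h2 := hL n
    rw [hpow n] at h2
    have h3 : f (e * n) ≡ L [SMOD (IsLocalRing.maximalIdeal B ^ n • ⊤ : Submodule B B)] := by
      refine SModEq.mono ?_ h2
      exact Submodule.smul_mono_left (Ideal.pow_le_pow_right (hle n))
    exact h1.trans h3
  have hH : IsHausdorff (IsLocalRing.maximalIdeal B) B := inferInstance
  exact { toIsHausdorff := hH, toIsPrecomplete := hP }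

theorem E4_main {K : Type u} [Field K] [IsAlgClosed K] (B : Type u) [CommRing B] [IsDomain B]
    [Algebra (PowerSeries K) B] [Module.Finite (PowerSeries K) B] [Module.Free (PowerSeries K) B]
    [IsDedekindDomain B] (hB : ¬ IsField B) [Algebra K B] [IsScalarTower K (PowerSeries K) B]
    (hinj : Function.Injective (algebraMap (PowerSeries K) B)) :
    ∃ ρ : B →ₐ[K] K, ArcRing K B ρ ∧ ∀ x : B, ρ x ≠ 0 ↔ IsUnit x := by
  have hloc : IsLocalRing B := E4a_local (K := K)
  have hnoeth : IsNoetherianRing B := inferInstance
  obtain ⟨t, ht⟩ : ∃ t : B, t = algebraMap (PowerSeries K) B PowerSeries.X := ⟨_, rfl⟩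
  have hc : IsAdicComplete (Ideal.span {t}) B := by
    rw [ht]
    exact E4a_complete
  have htm : t ∈ IsLocalRing.maximalIdeal B := by
    have h1 : Ideal.span {t} ≤ Ideal.jacobson ⊥ := IsAdicComplete.le_jacobson_bot _
    have h2 := Ideal.jacobson_mono (bot_le : (⊥ : Ideal B) ≤ IsLocalRing.maximalIdeal B)
    have h3 : (IsLocalRing.maximalIdeal B).jacobson = IsLocalRing.maximalIdeal B :=
      Ideal.jacobson_eq_self_of_isMaximal
    rw [h3] at h2
    exact h2 (h1 (Ideal.mem_span_singleton_self t))
  have ht0 : t ≠ 0 := by
    rw [ht]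
    intro h
    exact PowerSeries.X_ne_zero (hinj (h.trans (map_zero _).symm))
  have htfae := IsDiscreteValuationRing.TFAE B hB
  have h20 : IsDedekindDomain B ↔ IsDiscreteValuationRing B := htfae.out 2 0
  have hdvr : IsDiscreteValuationRing B := h20.1 inferInstance
  have h26 : IsDedekindDomain B ↔ ∀ (I : Ideal B), I ≠ ⊥ → ∃ n : ℕ, I = IsLocalRing.maximalIdeal B ^ n :=
    htfae.out 2 6
  obtain ⟨e, he⟩ := h26.1 inferInstance (Ideal.span {t}) (by
    rw [Ne, Ideal.span_singleton_eq_bot]
    exact ht0)
  have hcm : IsAdicComplete (IsLocalRing.maximalIdeal B) B := E4_complete t htm e he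
  -- the residue field
  have hres : ∀ a : PowerSeries K, algebraMap (PowerSeries K) (IsLocalRing.ResidueField B) a =
      algebraMap K (IsLocalRing.ResidueField B) (PowerSeries.constantCoeff a) := by
    intro a
    have h1 : (PowerSeries.X : PowerSeries K) ∣ a - PowerSeries.C (PowerSeries.constantCoeff a) := by
      rw [PowerSeries.X_dvd_iff]
      simp
    obtain ⟨b, hb⟩ := h1
    have h2 : algebraMap (PowerSeries K) (IsLocalRing.ResidueField B) PowerSeries.X = 0 := by
      rw [IsScalarTower.algebraMap_apply (PowerSeries K) B (IsLocalRing.ResidueField B), ← ht,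
        IsLocalRing.ResidueField.algebraMap_eq, IsLocalRing.residue_eq_zero_iff]
      exact htm
    have h3 := congrArg (algebraMap (PowerSeries K) (IsLocalRing.ResidueField B)) hb
    rw [map_sub, map_mul, h2, zero_mul, sub_eq_zero] at h3
    rw [h3]
    rw [IsScalarTower.algebraMap_apply (PowerSeries K) B (IsLocalRing.ResidueField B),
      IsScalarTower.algebraMap_apply K B (IsLocalRing.ResidueField B),
      IsScalarTower.algebraMap_apply K (PowerSeries K) B]
    rfl
  have hint : Algebra.IsIntegral K (IsLocalRing.ResidueField B) := by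
    refine ⟨fun y => ?_⟩
    obtain ⟨x, rfl⟩ := IsLocalRing.residue_surjective y
    have hx : IsIntegral (PowerSeries K) x := Algebra.IsIntegral.isIntegral x
    obtain ⟨p, hp, hpx⟩ := hx
    refine ⟨p.map PowerSeries.constantCoeff, hp.map _, ?_⟩
    rw [Polynomial.eval₂_map]
    have h1 : (algebraMap K (IsLocalRing.ResidueField B)).comp PowerSeries.constantCoeff =
        (IsLocalRing.residue B).comp (algebraMap (PowerSeries K) B) := by
      ext a
      rw [RingHom.comp_apply, ← hres a, RingHom.comp_apply,
        IsScalarTower.algebraMap_apply (PowerSeries K) B (IsLocalRing.ResidueField B)]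
      rfl
    rw [h1, ← Polynomial.hom_eval₂, hpx, map_zero]
  have hbij : Function.Bijective (algebraMap K (IsLocalRing.ResidueField B)) :=
    IsAlgClosed.algebraMap_bijective_of_isIntegral
  let ε : K ≃ₐ[K] IsLocalRing.ResidueField B := AlgEquiv.ofBijective (Algebra.ofId K _) hbij
  let ρ : B →ₐ[K] K := (ε.symm : IsLocalRing.ResidueField B →ₐ[K] K).comp
    (IsScalarTower.toAlgHom K B (IsLocalRing.ResidueField B))
  refine ⟨ρ, ⟨inferInstance, hdvr, hcm⟩, fun x => ?_⟩
  have h1 : ρ x = ε.symm (IsLocalRing.residue B x) := rfl
  rw [h1, ← IsLocalRing.residue_ne_zero_iff_isUnit]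
  exact (map_ne_zero_iff _ ε.symm.injective)

/-- A local Dedekind domain which is not a field is a discrete valuation ring. With
`t = algebraMap X`: `t ≠ 0` is in the maximal ideal `m`, so `(t) = m ^ e` with `e ≥ 1`, and completeness
for `(t)` gives completeness for `m` (the two topologies are the same). The residue field is a field
which is finite over `K⟦t⟧ / (t) = K`, so it is equal to `K`, as `K` is algebraically closed. -/
theorem E4 {K : Type u} [Field K] [CharZero K] [IsAlgClosed K] (L : Type u) [Field L]
    [Algebra (PowerSeries K) L] [Algebra (FractionRing (PowerSeries K)) L]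
    [IsScalarTower (PowerSeries K) (FractionRing (PowerSeries K)) L]
    [FiniteDimensional (FractionRing (PowerSeries K)) L] [Algebra K L]
    [IsScalarTower K (PowerSeries K) L] :
    ∃ ρ : integralClosure (PowerSeries K) L →ₐ[K] K,
      ArcRing K (integralClosure (PowerSeries K) L) ρ ∧
      ∀ x : integralClosure (PowerSeries K) L, ρ x ≠ 0 ↔ IsUnit x := by
  have h1 := E4b_finite (K := K) L
  have h2 := E4b_free (K := K) L
  have h3 := E4b_dedekind (K := K) L
  have h4 := E4b_notField (K := K) L
  refine E4_main (integralClosure (PowerSeries K) L) h4 ?_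
  intro a b hab
  have h5 : algebraMap (PowerSeries K) L a = algebraMap (PowerSeries K) L b := congrArg Subtype.val hab
  rw [IsScalarTower.algebraMap_apply (PowerSeries K) (FractionRing (PowerSeries K)) L,
    IsScalarTower.algebraMap_apply (PowerSeries K) (FractionRing (PowerSeries K)) L] at h5
  exact IsFractionRing.injective (PowerSeries K) (FractionRing (PowerSeries K))
    ((algebraMap (FractionRing (PowerSeries K)) L).injective h5)

end Pool.Agent.TORE
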