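import Mathlib

/-! A ring which is a finite free module over the power series ring `K⟦t⟧` is `t`-adically complete. -/

namespace Pool.Agent.TORE

universe u

open scoped TensorProduct in
theorem E4a_module {R : Type u} [CommRing R] [IsNoetherianRing R] (I : Ideal R) [IsAdicComplete I R]
    (M : Type u) [AddCommGroup M] [Module R M] [Module.Finite R M] : IsAdicComplete I M := by
  rw [← AdicCompletion.of_bijective_iff]
  have h1 := AdicCompletion.ofTensorProduct_bijective_of_finite_of_isNoetherian I M
  let e : M ≃ₗ[R] AdicCompletion I R ⊗[R] M :=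
    (TensorProduct.lid R M).symm ≪≫ₗ LinearEquiv.rTensor M (AdicCompletion.ofLinearEquiv I R)
  have h2 : (AdicCompletion.of I M : M → AdicCompletion I M) = AdicCompletion.ofTensorProduct I M ∘ e := by
    funext x
    have h3 : e x = (1 : AdicCompletion I R) ⊗ₜ[R] x := by
      simp [e]
      rfl
    rw [Function.comp_apply, h3, AdicCompletion.ofTensorProduct_tmul, one_smul]
  rw [h2]
  exact h1.comp e.bijective

/-- As a module `B` is isomorphic to `Fin n → K⟦X⟧`, and `K⟦X⟧` is complete for the ideal `(X)`
(there is an instance `IsAdicComplete (.span {X}) (PowerSeries R)`). -/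
theorem E4a_complete {K : Type u} [Field K] {B : Type u} [CommRing B] [Algebra (PowerSeries K) B]
    [Module.Finite (PowerSeries K) B] [Module.Free (PowerSeries K) B] :
    IsAdicComplete (Ideal.span {algebraMap (PowerSeries K) B PowerSeries.X}) B := by
  have h1 : IsAdicComplete (Ideal.span {(PowerSeries.X : PowerSeries K)}) B := E4a_module _ B
  have h2 : Ideal.span {algebraMap (PowerSeries K) B PowerSeries.X} =
      (Ideal.span {(PowerSeries.X : PowerSeries K)}).map (algebraMap (PowerSeries K) B) := by
    rw [Ideal.map_span, Set.image_singleton]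
  rw [h2, IsAdicComplete.map_algebraMap_iff]
  exact h1

end Pool.Agent.TORE
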