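import Pool.Agent.TORE.E4a

/-! A domain which is a finite free module over the power series ring `K⟦t⟧` is local. -/

namespace Pool.Agent.TORE

universe u

open Polynomial in
/-- If `t = algebraMap X`, then `B` is complete for `(t)`, so idempotents of `B / t B` lift to `B`
(Hensel's lemma for `Z² - Z`, instance `IsAdicComplete.henselianRing`); `B` is a domain, so `B / t B`,
which is an artinian ring (finite over `K`), has no idempotents except `0`, `1` and is local; and `t`
belongs to each maximal ideal of `B`. -/
theorem E4a_local {K : Type u} [Field K] {B : Type u} [CommRing B] [IsDomain B]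
    [Algebra (PowerSeries K) B] [Module.Finite (PowerSeries K) B] [Module.Free (PowerSeries K) B] :
    IsLocalRing B := by
  classical
  let p : Ideal (PowerSeries K) := Ideal.span {(PowerSeries.X : PowerSeries K)}
  let I : Ideal B := p.map (algebraMap (PowerSeries K) B)
  have hI : I = Ideal.span {algebraMap (PowerSeries K) B PowerSeries.X} := by
    change Ideal.map _ (Ideal.span _) = _
    rw [Ideal.map_span, Set.image_singleton]
  have : IsAdicComplete I B := by
    rw [hI]
    exact E4a_complete
  have hjac : I ≤ Ideal.jacobson ⊥ := IsAdicComplete.le_jacobson_bot I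
  have hp : p = IsLocalRing.maximalIdeal (PowerSeries K) := PowerSeries.maximalIdeal_eq_span_X.symm
  have : p.IsMaximal := by
    rw [hp]
    infer_instance
  have : IsArtinianRing (PowerSeries K ⧸ p) := by
    let _ : Field (PowerSeries K ⧸ p) := Ideal.Quotient.field p
    exact DivisionRing.instIsArtinianRing
  have : Module.Finite (PowerSeries K ⧸ p) (B ⧸ I) :=
    Module.Finite.of_restrictScalars_finite (PowerSeries K) (PowerSeries K ⧸ p) (B ⧸ I)
  have : IsArtinianRing (B ⧸ I) := IsArtinianRing.of_finite (PowerSeries K ⧸ p) (B ⧸ I)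
  obtain ⟨m, hm⟩ := Ideal.exists_maximal B
  refine IsLocalRing.of_unique_max_ideal ⟨m, hm, fun m' hm' => ?_⟩
  by_contra hne
  have hle : ∀ n : Ideal B, n.IsMaximal → I ≤ n := by
    intro n hn
    have h1 := Ideal.jacobson_mono (bot_le : (⊥ : Ideal B) ≤ n)
    have h2 : n.jacobson = n := Ideal.jacobson_eq_self_of_isMaximal
    rw [h2] at h1
    exact hjac.trans h1
  have hpr : ∀ n : Ideal B, n.IsMaximal → (n.map (Ideal.Quotient.mk I)).IsPrime := by
    intro n hn
    refine Ideal.map_isPrime_of_surjective Ideal.Quotient.mk_surjective ?_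
    rw [Ideal.mk_ker]
    exact hle n hn
  have hmem : ∀ n : Ideal B, n.IsMaximal → ∀ x, Ideal.Quotient.mk I x ∈ n.map (Ideal.Quotient.mk I) → x ∈ n := by
    intro n hn x hx
    have h1 := Ideal.mem_comap.2 hx
    rw [Ideal.comap_map_of_surjective' _ Ideal.Quotient.mk_surjective, Ideal.mk_ker, sup_eq_left.2 (hle n hn)] at h1
    exact h1
  let P : PrimeSpectrum (B ⧸ I) := ⟨m.map (Ideal.Quotient.mk I), hpr m hm⟩
  let P' : PrimeSpectrum (B ⧸ I) := ⟨m'.map (Ideal.Quotient.mk I), hpr m' hm'⟩
  have hPP : P' ≠ P := by
    intro h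
    apply hne
    have h1 : m'.map (Ideal.Quotient.mk I) = m.map (Ideal.Quotient.mk I) := congrArg PrimeSpectrum.asIdeal h
    apply hm'.eq_of_le hm.ne_top
    intro x hx
    apply hmem m hm
    rw [← h1]
    exact Ideal.mem_map_of_mem _ hx
  obtain ⟨e, he, hPe⟩ := PrimeSpectrum.isClopen_iff_zeroLocus.1 (isClopen_discrete ({P} : Set (PrimeSpectrum (B ⧸ I))))
  have heP : e ∈ P.asIdeal := by
    have h1 : P ∈ PrimeSpectrum.zeroLocus {e} := by
      rw [← hPe]
      exact Set.mem_singleton P
    exact h1 rfl
  have heP' : e ∉ P'.asIdeal := by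
    intro h1
    have h2 : P' ∈ PrimeSpectrum.zeroLocus {e} := by
      intro x hx
      rw [Set.mem_singleton_iff.1 hx]
      exact h1
    rw [← hPe] at h2
    exact hPP (Set.mem_singleton_iff.1 h2)
  obtain ⟨a₀, ha₀⟩ := Ideal.Quotient.mk_surjective e
  have hee : e * e = e := he
  have hf : (X ^ 2 - X : B[X]).Monic := by
    monicity!
  obtain ⟨a, ha, haI⟩ := HenselianRing.is_henselian (I := I) (X ^ 2 - X : B[X]) hf a₀ (by
      rw [← Ideal.Quotient.eq_zero_iff_mem]
      simp only [eval_sub, eval_pow, eval_X, map_sub, map_pow, ha₀]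
      rw [pow_two, hee, sub_self]) (by
      refine IsUnit.of_mul_eq_one (2 * e - 1) ?_
      simp only [derivative_sub, derivative_X_pow, derivative_X, eval_sub, eval_mul, eval_natCast,
        eval_pow, eval_X, eval_one, map_sub, map_mul, ha₀, map_one, map_natCast, map_pow]
      norm_num
      linear_combination 4 * hee)
  have ha2 : a * (a - 1) = 0 := by
    have h1 : (X ^ 2 - X : B[X]).eval a = 0 := ha
    simp only [eval_sub, eval_pow, eval_X] at h1
    linear_combination h1
  have hae : Ideal.Quotient.mk I a = e := by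
    rw [← ha₀]
    exact (Ideal.Quotient.eq).2 haI
  rcases mul_eq_zero.1 ha2 with h | h
  · apply heP'
    rw [← hae, h, map_zero]
    exact zero_mem _
  · apply (hpr m hm).ne_top
    rw [Ideal.eq_top_iff_one]
    have h1 : a = 1 := sub_eq_zero.1 h
    rw [h1, map_one] at hae
    rw [hae]
    exact heP

end Pool.Agent.TORE
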