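import Mathlib

/-! The constant coefficient of the minimal polynomial of an element of a finite fibre. -/

namespace Pool.Agent.TORE

open MvPolynomial

universe u

/-- Let `f` be the minimal polynomial of `z` over `A = K[X_1, ..., X_m]`, which is integrally closed:
`f` is monic with coefficients in `A`, `f(z) = 0`, and it is the minimal polynomial of `z` over the
fraction field (`minpoly.isIntegrallyClosed_eq_field_fractions'`). As `φ z = 0`, also
`φ (g (f(0))) = 0`, so `f(0)` vanishes at the origin. -/
theorem E5b {K : Type u} [Field K] {D : Type u} [CommRing D] [IsDomain D] [Algebra K D]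
    (φ : D →ₐ[K] K) {m : ℕ} (g : MvPolynomial (Fin m) K →ₐ[K] D) (hg : Function.Injective g)
    (hint : g.toRingHom.IsIntegral) (hφ : ∀ i, φ (g (X i)) = 0) (z : D) (hz : φ z = 0)
    (E : Type u) [Field E] [Algebra D E] [IsFractionRing D E]
    (Q : Type u) [Field Q] [Algebra (MvPolynomial (Fin m) K) Q]
    [IsFractionRing (MvPolynomial (Fin m) K) Q] [Algebra Q E]
    (hQE : ∀ a, algebraMap Q E (algebraMap (MvPolynomial (Fin m) K) Q a) = algebraMap D E (g a)) :
    ∃ f : Polynomial (MvPolynomial (Fin m) K), f.Monic ∧ constantCoeff (f.coeff 0) = 0 ∧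
      f.map (algebraMap (MvPolynomial (Fin m) K) Q) = minpoly Q (algebraMap D E z) := by
  letI : Algebra (MvPolynomial (Fin m) K) E := ((algebraMap D E).comp g.toRingHom).toAlgebra
  haveI : IsScalarTower (MvPolynomial (Fin m) K) Q E := IsScalarTower.of_algebraMap_eq fun a => (hQE a).symm
  have hz' : IsIntegral (MvPolynomial (Fin m) K) (algebraMap D E z) := by
    obtain ⟨p, hp, hp'⟩ := hint z
    refine ⟨p, hp, ?_⟩
    show Polynomial.eval₂ ((algebraMap D E).comp g.toRingHom) (algebraMap D E z) p = 0
    rw [← Polynomial.hom_eval₂, hp', map_zero]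
  refine ⟨minpoly (MvPolynomial (Fin m) K) (algebraMap D E z), minpoly.monic hz', ?_, ?_⟩
  · have h1 := minpoly.aeval (MvPolynomial (Fin m) K) (algebraMap D E z)
    set f := minpoly (MvPolynomial (Fin m) K) (algebraMap D E z) with hf
    have h2 : Polynomial.eval₂ ((algebraMap D E).comp g.toRingHom) (algebraMap D E z) f = 0 := h1
    rw [← Polynomial.hom_eval₂] at h2
    have h3 : Polynomial.eval₂ g.toRingHom z f = 0 := by
      apply IsFractionRing.injective D E
      rw [h2, map_zero]
    have h4 := congrArg φ.toRingHom h3
    rw [Polynomial.hom_eval₂, map_zero] at h4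
    have hring : φ.toRingHom.comp g.toRingHom = (constantCoeff (σ := Fin m) (R := K)) := by
      apply MvPolynomial.ringHom_ext
      · intro c
        have e : g (C c) = algebraMap K D c := by
          rw [← MvPolynomial.algebraMap_eq, AlgHom.commutes]
        show φ (g (C c)) = constantCoeff (C c)
        rw [e, AlgHom.commutes, constantCoeff_C]
        rfl
      · intro i
        show φ (g (X i)) = constantCoeff (X i)
        rw [hφ, constantCoeff_X]
    have hz0 : φ.toRingHom z = 0 := hz
    rw [hring, hz0, Polynomial.eval₂_at_zero] at h4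
    exact h4
  · exact (minpoly.isIntegrallyClosed_eq_field_fractions' Q hz').symm

end Pool.Agent.TORE
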