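import Pool.Agent.TORE.E5a
import Pool.Agent.TORE.E5b

/-! The extension of the homomorphism `K[X_1, ..., X_m] → K⟦t⟧` to `D`, with values in the algebraic
closure of `K((t))`, such that a given element `z` goes to a non-unit. -/

namespace Pool.Agent.TORE

open MvPolynomial

universe u

/-- Proof. Let `Q = Frac K[X]`, `E = Frac D`, an algebraic extension of `Q`; `ψ` extends to an
embedding `Q → Ω`. Take `f` from `E5b`, and `ζ` from `E5a` for the image of `f` under `ψ`. By
`IntermediateField.exists_algHom_of_splits_of_aeval` there is a `Q`-embedding `E → Ω` with `z ↦ ζ`. -/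
theorem E5c {K : Type u} [Field K] {D : Type u} [CommRing D] [IsDomain D] [Algebra K D]
    (φ : D →ₐ[K] K) {m : ℕ} (g : MvPolynomial (Fin m) K →ₐ[K] D) (hg : Function.Injective g)
    (hint : g.toRingHom.IsIntegral) (hφ : ∀ i, φ (g (X i)) = 0) (z : D) (hz : φ z = 0)
    {Ω : Type u} [Field Ω] [IsAlgClosed Ω] [Algebra (PowerSeries K) Ω]
    (hinj : Function.Injective (algebraMap (PowerSeries K) Ω))
    (ψ : MvPolynomial (Fin m) K →ₐ[K] PowerSeries K) (hψ : Function.Injective ψ)
    (hψ0 : ∀ i, PowerSeries.constantCoeff (ψ (X i)) = 0) :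
    ∃ χ : D →+* Ω, Function.Injective χ ∧ (∀ a, χ (g a) = algebraMap (PowerSeries K) Ω (ψ a)) ∧
      ∀ ξ : Ω, IsIntegral (PowerSeries K) ξ → χ z * ξ ≠ 1 := by
  classical
  let A := MvPolynomial (Fin m) K
  let Q := FractionRing A
  let E := FractionRing D
  have hAE : Function.Injective ((algebraMap D E).comp g.toRingHom) :=
    (IsFractionRing.injective D E).comp hg
  letI : Algebra Q E := (IsFractionRing.lift (K := Q) hAE).toAlgebra
  have hQE : ∀ a, algebraMap Q E (algebraMap A Q a) = algebraMap D E (g a) := fun a =>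
    IsFractionRing.lift_algebraMap hAE a
  have hψ' : Function.Injective ((algebraMap (PowerSeries K) Ω).comp ψ.toRingHom) := hinj.comp hψ
  letI : Algebra Q Ω := (IsFractionRing.lift (K := Q) hψ').toAlgebra
  have hQO : ∀ a, algebraMap Q Ω (algebraMap A Q a) = algebraMap (PowerSeries K) Ω (ψ a) := fun a =>
    IsFractionRing.lift_algebraMap hψ' a
  obtain ⟨f, hfm, hf0, hfmin⟩ := E5b φ g hg hint hφ z hz E Q hQE
  have hcc : ∀ a : A, PowerSeries.constantCoeff (ψ a) = constantCoeff a := by
    intro a
    have hring : (PowerSeries.constantCoeff (R := K)).comp ψ.toRingHom = (constantCoeff (σ := Fin m) (R := K)) := by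
      apply MvPolynomial.ringHom_ext
      · intro c
        show PowerSeries.constantCoeff (ψ (C c)) = constantCoeff (C c)
        have e : ψ (C c) = PowerSeries.C c := by
          rw [← MvPolynomial.algebraMap_eq, AlgHom.commutes]
          rfl
        rw [e, constantCoeff_C, PowerSeries.constantCoeff_C]
      · intro i
        show PowerSeries.constantCoeff (ψ (X i)) = constantCoeff (X i)
        rw [hψ0, constantCoeff_X]
    exact congrArg (fun h : A →+* K => h a) hring
  obtain ⟨ζ, hζ, hζ'⟩ := E5a hinj (f.map ψ.toRingHom) (hfm.map _) (by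
    rw [Polynomial.coeff_map]
    show PowerSeries.constantCoeff (ψ (f.coeff 0)) = 0
    rw [hcc, hf0])
  have hroot : Polynomial.aeval ζ (minpoly Q (algebraMap D E z)) = 0 := by
    rw [← hfmin, Polynomial.aeval_def, Polynomial.eval₂_map]
    rw [Polynomial.aeval_def, Polynomial.eval₂_map] at hζ
    have e : (algebraMap Q Ω).comp (algebraMap A Q) = (algebraMap (PowerSeries K) Ω).comp ψ.toRingHom := by
      refine RingHom.ext fun a => ?_
      exact hQO a
    rw [e]
    exact hζ
  have halg : ∀ s : E, IsIntegral Q s ∧ ((minpoly Q s).map (algebraMap Q Ω)).Splits := by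
    intro s
    refine ⟨?_, IsAlgClosed.splits _⟩
    obtain ⟨x, y, hy, rfl⟩ := IsFractionRing.div_surjective (A := D) s
    have hI : ∀ d : D, IsIntegral Q (algebraMap D E d) := by
      intro d
      obtain ⟨p, hp, hp'⟩ := hint d
      refine ⟨p.map (algebraMap A Q), hp.map _, ?_⟩
      rw [Polynomial.eval₂_map]
      have e : (algebraMap Q E).comp (algebraMap A Q) = (algebraMap D E).comp g.toRingHom := by
        refine RingHom.ext fun a => ?_
        exact hQE a
      rw [e, ← Polynomial.hom_eval₂, hp', map_zero]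
    rw [div_eq_mul_inv]
    exact (hI x).mul (hI y).inv
  obtain ⟨σ, hσ⟩ := IntermediateField.exists_algHom_of_splits_of_aeval halg hroot
  refine ⟨σ.toRingHom.comp (algebraMap D E), ?_, ?_, ?_⟩
  · exact σ.toRingHom.injective.comp (IsFractionRing.injective D E)
  · intro a
    show σ (algebraMap D E (g a)) = _
    rw [← hQE, AlgHom.commutes, hQO]
  · intro ξ hξ
    show σ (algebraMap D E z) * ξ ≠ 1
    rw [hσ]
    exact hζ' ξ hξ

end Pool.Agent.TORE
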