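import Pool.Agent.TORE.E1
import Pool.Agent.TORE.E2
import Pool.Agent.TORE.E3
import Pool.Agent.TORE.E4
import Pool.Agent.TORE.E5c

/-! Arcs through a point of an affine variety over an algebraically closed field. -/

namespace Pool.Agent.TORE

universe u

/-- a power series which has an integral inverse in an extension of `K((t))` is a unit -/
theorem E5_unit {K : Type u} [Field K] {F Ω : Type u} [Field F] [Algebra (PowerSeries K) F]
    [IsFractionRing (PowerSeries K) F] [Field Ω] [Algebra F Ω] [Algebra (PowerSeries K) Ω]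
    [IsScalarTower (PowerSeries K) F Ω] (p : PowerSeries K) (ξ : Ω)
    (hξ : IsIntegral (PowerSeries K) ξ) (h : algebraMap (PowerSeries K) Ω p * ξ = 1) : IsUnit p := by
  have h0 : algebraMap F Ω (algebraMap (PowerSeries K) F p) * ξ = 1 := by
    rwa [← IsScalarTower.algebraMap_apply]
  have h1 : ξ = algebraMap F Ω (algebraMap (PowerSeries K) F p)⁻¹ := by
    rw [map_inv₀]
    exact eq_inv_of_mul_eq_one_right h0
  have h2 : algebraMap (PowerSeries K) F p ≠ 0 := by
    rintro h3
    rw [h3, map_zero, zero_mul] at h0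
    exact zero_ne_one h0
  rw [h1, isIntegral_algebraMap_iff (algebraMap F Ω).injective,
    IsIntegrallyClosed.isIntegral_iff] at hξ
  obtain ⟨y, hy⟩ := hξ
  refine IsUnit.of_mul_eq_one y ?_
  apply IsFractionRing.injective (PowerSeries K) F
  rw [map_mul, hy, map_one, mul_inv_cancel₀ h2]

theorem E5 {K : Type u} [Field K] [CharZero K] [IsAlgClosed K] {D : Type u} [CommRing D] [IsDomain D]
    [Algebra K D] [Algebra.FiniteType K D] (φ : D →ₐ[K] K) :
    ∃ (R : Type u) (_ : CommRing R) (_ : Algebra K R) (ρ : R →ₐ[K] K) (ψ : D →ₐ[K] R),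
      ArcRing K R ρ ∧ Function.Injective ψ ∧ ∀ d, ρ (ψ d) = φ d := by
  obtain ⟨m, g, hg, hint, hφ⟩ := E1 φ
  obtain ⟨ψ, hψ, hψ0⟩ := E2 (K := K) m
  obtain ⟨z, hz, hz'⟩ := E3 φ g hint hφ
  let F := FractionRing (PowerSeries K)
  let Ω := AlgebraicClosure F
  have hinj : Function.Injective (algebraMap (PowerSeries K) Ω) := by
    rw [IsScalarTower.algebraMap_eq (PowerSeries K) F Ω]
    exact (algebraMap F Ω).injective.comp (IsFractionRing.injective _ _)
  obtain ⟨χ, hχ, hχg, hχz⟩ := E5c φ g hg hint hφ z hz hinj ψ hψ hψ0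
  have hχK : ∀ c : K, χ (algebraMap K D c) = algebraMap K Ω c := by
    intro c
    have h1 : algebraMap K D c = g (MvPolynomial.C c) := (g.commutes c).symm
    have h2 : ψ (MvPolynomial.C c) = algebraMap K (PowerSeries K) c := ψ.commutes c
    rw [h1, hχg, h2, ← IsScalarTower.algebraMap_apply]
  let χ' : D →ₐ[K] Ω := { χ with commutes' := hχK }
  have hχint : ∀ d, IsIntegral (PowerSeries K) (χ d) := by
    intro d
    obtain ⟨p, hp, hp0⟩ := hint d
    refine ⟨p.map ψ.toRingHom, hp.map _, ?_⟩
    rw [Polynomial.eval₂_map]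
    have h1 : (algebraMap (PowerSeries K) Ω).comp ψ.toRingHom = χ.comp g.toRingHom :=
      RingHom.ext fun a => (hχg a).symm
    rw [h1, ← Polynomial.hom_eval₂, hp0, map_zero]
  obtain ⟨s, hs⟩ := ‹Algebra.FiniteType K D›.out
  let L : IntermediateField F Ω := IntermediateField.adjoin F (χ '' (s : Set D))
  have hfin : FiniteDimensional F L := by
    have : Finite (χ '' (s : Set D)) := (s.finite_toSet.image χ).to_subtype
    refine IntermediateField.finiteDimensional_adjoin ?_
    rintro _ ⟨d, -, rfl⟩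
    exact (hχint d).tower_top
  have hL : ∀ d, χ d ∈ L := by
    intro d
    have h1 : (⊤ : Subalgebra K D) ≤ (L.toSubalgebra.restrictScalars K).comap χ' := by
      rw [← hs, Algebra.adjoin_le_iff]
      intro x hx
      exact IntermediateField.subset_adjoin F _ ⟨x, hx, rfl⟩
    exact h1 (Algebra.mem_top (x := d))
  have htower : IsScalarTower K (PowerSeries K) L :=
    IsScalarTower.of_algebraMap_eq fun c => Subtype.ext
      (IsScalarTower.algebraMap_apply K (PowerSeries K) Ω c)
  have htower' : IsScalarTower (PowerSeries K) L Ω :=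
    IsScalarTower.of_algebraMap_eq fun c => rfl
  obtain ⟨ρ, hρ, hρu⟩ := E4 (K := K) L
  let R := integralClosure (PowerSeries K) L
  have hmem : ∀ d, (⟨χ d, hL d⟩ : L) ∈ R := by
    intro d
    change IsIntegral (PowerSeries K) (⟨χ d, hL d⟩ : L)
    rw [← isIntegral_algebraMap_iff (A := L) (B := Ω) (algebraMap L Ω).injective]
    exact hχint d
  let ψ' : D →ₐ[K] R :=
    { toFun := fun d => ⟨⟨χ d, hL d⟩, hmem d⟩
      map_one' := Subtype.ext (Subtype.ext (map_one χ))
      map_mul' := fun a b => Subtype.ext (Subtype.ext (map_mul χ a b))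
      map_zero' := Subtype.ext (Subtype.ext (map_zero χ))
      map_add' := fun a b => Subtype.ext (Subtype.ext (map_add χ a b))
      commutes' := fun c => Subtype.ext (Subtype.ext (hχK c)) }
  have hψ'Ω : ∀ d, (((ψ' d : R) : L) : Ω) = χ d := fun _ => rfl
  -- inverses
  have hinv : ∀ d, IsUnit (ψ' d) → ∃ ξ : Ω, IsIntegral (PowerSeries K) ξ ∧ χ d * ξ = 1 := by
    intro d hd
    obtain ⟨y, hy⟩ := hd.exists_right_inv
    refine ⟨((y : L) : Ω), ?_, ?_⟩
    · have h1 : IsIntegral (PowerSeries K) (y : L) := y.2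
      exact h1.algebraMap (B := Ω)
    · have h2 := congrArg (fun r : R => ((r : L) : Ω)) hy
      exact h2
  have hρz : ρ (ψ' z) = 0 := by
    by_contra h
    obtain ⟨ξ, h1, h2⟩ := hinv z ((hρu _).1 h)
    exact hχz ξ h1 h2
  have hρX : ∀ i, ρ (ψ' (g (MvPolynomial.X i))) = 0 := by
    intro i
    by_contra h
    obtain ⟨ξ, h1, h2⟩ := hinv _ ((hρu _).1 h)
    rw [hχg] at h2
    have h3 := E5_unit (F := F) _ ξ h1 h2
    have h4 := h3.map (PowerSeries.constantCoeff (R := K))
    rw [hψ0 i] at h4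
    exact not_isUnit_zero h4
  have hker := hz' (RingHom.ker (ρ.comp ψ').toRingHom) (RingHom.ker_isPrime _) hρX hρz
  refine ⟨R, _, _, ρ, ψ', hρ, ?_, ?_⟩
  · intro a b hab
    have h2 := congrArg (fun r : R => ((r : L) : Ω)) hab
    exact hχ h2
  · intro d
    have h1 : d - algebraMap K D (φ d) ∈ RingHom.ker φ.toRingHom := by
      change φ (d - algebraMap K D (φ d)) = 0
      rw [map_sub, AlgHom.commutes]
      simp
    rw [← hker] at h1
    have h2 : (ρ.comp ψ') (d - algebraMap K D (φ d)) = 0 := h1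
    rw [map_sub, AlgHom.commutes, sub_eq_zero] at h2
    exact h2

end Pool.Agent.TORE
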