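import Mathlib

/-! A monic polynomial over `K⟦t⟧` whose constant coefficient is divisible by `t` has a root, in an
algebraically closed field over `K⟦t⟧`, which is not a unit of the integral closure. -/

namespace Pool.Agent.TORE

universe u

/-- The product of the roots of `f` (in `Ω`, with multiplicities) is `± f(0)`. All roots are integral.
If each of them had an integral inverse, then so would `f(0)`, hence `t`, in `Ω`; but `1 / t` is not
integral over the integrally closed domain `K⟦t⟧`. (`f = 1` is excluded by the hypothesis.) -/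
theorem E5a {K : Type u} [Field K] {Ω : Type u} [Field Ω] [IsAlgClosed Ω] [Algebra (PowerSeries K) Ω]
    (hinj : Function.Injective (algebraMap (PowerSeries K) Ω)) (f : Polynomial (PowerSeries K))
    (hf : f.Monic) (h0 : PowerSeries.constantCoeff (f.coeff 0) = 0) :
    ∃ ζ : Ω, Polynomial.aeval ζ f = 0 ∧
      ∀ ξ : Ω, IsIntegral (PowerSeries K) ξ → ζ * ξ ≠ 1 := by
  classical
  by_contra hcon
  push Not at hcon
  have hinj' : Function.Injective (algebraMap (PowerSeries K) Ω) := hinj
  set F := f.map (algebraMap (PowerSeries K) Ω) with hF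
  have hFm : F.Monic := hf.map _
  have hsplit := IsAlgClosed.splits F
  have hprod := hsplit.eq_prod_roots_of_monic hFm
  -- the roots
  have hroot : ∀ ζ ∈ F.roots, ∃ ξ : Ω, IsIntegral (PowerSeries K) ξ ∧ ζ * ξ = 1 := by
    intro ζ hζ
    apply hcon ζ
    have h1 := (Polynomial.mem_roots hFm.ne_zero).1 hζ
    rw [Polynomial.IsRoot.def, hF, Polynomial.eval_map] at h1
    exact h1
  have key : ∀ s : Multiset Ω, (∀ ζ ∈ s, ∃ ξ : Ω, IsIntegral (PowerSeries K) ξ ∧ ζ * ξ = 1) →
      ∃ η : Ω, IsIntegral (PowerSeries K) η ∧ (Multiset.map (fun a => Polynomial.X - Polynomial.C a) s).prod.eval 0 * η = 1 := by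
    intro s
    induction s using Multiset.induction_on with
    | empty =>
      intro _
      exact ⟨1, isIntegral_one, by simp⟩
    | cons a s ih =>
      intro h
      obtain ⟨η, hη, h1⟩ := ih fun ζ hζ => h ζ (Multiset.mem_cons_of_mem hζ)
      obtain ⟨ξ, hξ, h2⟩ := h a (Multiset.mem_cons_self a s)
      refine ⟨-ξ * η, hξ.neg.mul hη, ?_⟩
      rw [Multiset.map_cons, Multiset.prod_cons, Polynomial.eval_mul, Polynomial.eval_sub, Polynomial.eval_X,
        Polynomial.eval_C, zero_sub]
      linear_combination (a * ξ) * h1 + h2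
  obtain ⟨η, hη, h1⟩ := key F.roots hroot
  rw [← hprod, ← Polynomial.coeff_zero_eq_eval_zero, hF, Polynomial.coeff_map] at h1
  -- `f(0) = t u`
  obtain ⟨u, hu⟩ := PowerSeries.X_dvd_iff.2 h0
  rw [hu, map_mul, mul_assoc] at h1
  have hx : IsIntegral (PowerSeries K) (algebraMap (PowerSeries K) Ω u * η) := isIntegral_algebraMap.mul hη
  let Q := FractionRing (PowerSeries K)
  let j : Q →ₐ[PowerSeries K] Ω := IsFractionRing.liftAlgHom (g := Algebra.ofId (PowerSeries K) Ω) hinj
  have ht : algebraMap (PowerSeries K) Q PowerSeries.X ≠ 0 := by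
    rw [Ne, IsFractionRing.to_map_eq_zero_iff]
    exact PowerSeries.X_ne_zero
  have hj : j ((algebraMap (PowerSeries K) Q PowerSeries.X)⁻¹) = algebraMap (PowerSeries K) Ω u * η := by
    rw [map_inv₀, AlgHom.commutes]
    exact (eq_inv_of_mul_eq_one_right h1).symm
  have hint : IsIntegral (PowerSeries K) ((algebraMap (PowerSeries K) Q PowerSeries.X)⁻¹) := by
    rw [← isIntegral_algHom_iff j j.toRingHom.injective, hj]
    exact hx
  obtain ⟨v, hv⟩ := IsIntegrallyClosed.isIntegral_iff.1 hint
  have h2 : algebraMap (PowerSeries K) Q (PowerSeries.X * v) = algebraMap (PowerSeries K) Q 1 := by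
    rw [map_mul, hv, mul_inv_cancel₀ ht, map_one]
  have h3 := IsFractionRing.injective (PowerSeries K) Q h2
  have h4 := congrArg (PowerSeries.constantCoeff (R := K)) h3
  rw [map_mul, PowerSeries.constantCoeff_X, zero_mul, map_one] at h4
  exact zero_ne_one h4

end Pool.Agent.TORE
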