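import Pool.Agent.TORE.E5

/-! Arcs through a `K`-point of an affine scheme of finite type over a subfield `k` of `K`. -/

namespace Pool.Agent.TORE

open TensorProduct

universe u

/-- flat extensions of rings have going down, so a minimal prime of `B` lies over a minimal prime of
`A` -/
theorem E6a {A : Type u} [CommRing A] {B : Type u} [CommRing B] [Algebra A B] [Module.Flat A B]
    (Q : Ideal B) (hQ : Q ∈ minimalPrimes B) : Q.comap (algebraMap A B) ∈ minimalPrimes A := by
  have hQp : Q.IsPrime := hQ.1.1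
  refine ⟨⟨hQp.comap _, bot_le⟩, ?_⟩
  rintro p ⟨hp, -⟩ hle
  have h1 : Q.LiesOver (Q.comap (algebraMap A B)) := ⟨rfl⟩
  obtain ⟨P, hPQ, hPp, hPl⟩ := Ideal.exists_ideal_le_liesOver_of_le (p := p) (q := Q.comap (algebraMap A B)) Q hle
  have h2 : Q ≤ P := hQ.2 ⟨hPp, bot_le⟩ hPQ
  have h3 : P = Q := le_antisymm hPQ h2
  rw [← h3, hPl.over]

attribute [local instance] Algebra.TensorProduct.rightAlgebra in
theorem E6_flat {k : Type u} [Field k] {A : Type u} [CommRing A] [Algebra k A]
    {K : Type u} [Field K] [Algebra k K] : Module.Flat A (K ⊗[k] A) := by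
  let e : A ⊗[k] K ≃ₗ[A] K ⊗[k] A :=
    { (TensorProduct.comm k A K) with
      map_smul' := by
        intro a z
        change TensorProduct.comm k A K (a • z) = a • TensorProduct.comm k A K z
        induction z using TensorProduct.induction_on with
        | zero => rw [smul_zero, map_zero, smul_zero]
        | tmul b c =>
          rw [TensorProduct.smul_tmul', TensorProduct.comm_tmul, TensorProduct.comm_tmul,
            Algebra.smul_def (A := K ⊗[k] A)]
          change _ = (1 ⊗ₜ[k] a) * (c ⊗ₜ[k] b)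
          rw [Algebra.TensorProduct.tmul_mul_tmul, one_mul, smul_eq_mul]
        | add x y hx hy =>
          rw [smul_add, map_add, hx, hy, map_add, smul_add] }
  exact Module.Flat.of_linearEquiv e.symm

/-- Proof. `B = A ⊗_k K` is a finitely generated `K`-algebra, flat over `A`, and `s` gives
`φ : B → K`, `φ (a ⊗ c) = s a * c`. Let `Q` be a minimal prime of `B` contained in `ker φ`
(`Ideal.exists_minimalPrimes_le`), `D = B / Q`, and apply `E5`. The kernel of `A → D` is a minimal
prime of `A` by `E6a`, so it is the nilradical. -/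
theorem E6 {k : Type u} [Field k] {A : Type u} [CommRing A] [Algebra k A] [Algebra.FiniteType k A]
    (hA : (nilradical A).IsPrime) {K : Type u} [Field K] [IsAlgClosed K] [CharZero K] [Algebra k K]
    (s : A →ₐ[k] K) :
    ∃ (R : Type u) (_ : CommRing R) (_ : Algebra K R) (ρ : R →ₐ[K] K) (ψ : A →+* R),
      ArcRing K R ρ ∧ RingHom.ker ψ = nilradical A ∧ (∀ a, ρ (ψ a) = s a) ∧
      ∀ c : k, ψ (algebraMap k A c) = algebraMap K R (algebraMap k K c) := by
  let φ : K ⊗[k] A →ₐ[K] K := Algebra.TensorProduct.lift (Algebra.ofId K K) s fun _ _ => Commute.all _ _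
  have hφ : ∀ a : A, φ (1 ⊗ₜ a) = s a := by
    intro a
    simp [φ]
  have hker : (RingHom.ker φ).IsPrime := RingHom.ker_isPrime φ
  obtain ⟨Q, hQ, hQφ⟩ := Ideal.exists_minimalPrimes_le (I := (⊥ : Ideal (K ⊗[k] A))) (J := RingHom.ker φ) bot_le
  have hQm : Q ∈ minimalPrimes (K ⊗[k] A) := hQ
  have hQp : Q.IsPrime := hQ.1.1
  have hcom : Q.comap (Algebra.TensorProduct.includeRight : A →ₐ[k] K ⊗[k] A).toRingHom = nilradical A := by
    let _ : Algebra A (K ⊗[k] A) := Algebra.TensorProduct.rightAlgebra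
    have h1 : Module.Flat A (K ⊗[k] A) := E6_flat
    have h2 := E6a (A := A) Q hQm
    refine le_antisymm ?_ ?_
    · exact h2.2 ⟨hA, bot_le⟩ (nilradical_le_prime _ (H := h2.1.1))
    · exact nilradical_le_prime _ (H := h2.1.1)
  obtain ⟨R, iR, iKR, ρ, ψ, h1, h2, h3⟩ := E5 (D := (K ⊗[k] A) ⧸ Q)
    (Ideal.Quotient.liftₐ Q φ (fun a ha => hQφ ha))
  refine ⟨R, iR, iKR, ρ, (ψ.toRingHom.comp (Ideal.Quotient.mk Q)).comp
    (Algebra.TensorProduct.includeRight : A →ₐ[k] K ⊗[k] A).toRingHom, h1, ?_, ?_, ?_⟩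
  · rw [← hcom]
    ext a
    rw [RingHom.mem_ker, Ideal.mem_comap, RingHom.comp_apply, RingHom.comp_apply]
    change ψ (Ideal.Quotient.mk Q _) = 0 ↔ _
    rw [map_eq_zero_iff ψ h2, Ideal.Quotient.eq_zero_iff_mem]
  · intro a
    rw [RingHom.comp_apply, RingHom.comp_apply]
    change ρ (ψ (Ideal.Quotient.mk Q (1 ⊗ₜ a))) = _
    rw [h3]
    change φ (1 ⊗ₜ a) = _
    exact hφ a
  · intro c
    rw [RingHom.comp_apply, RingHom.comp_apply]
    change ψ (Ideal.Quotient.mk Q (1 ⊗ₜ algebraMap k A c)) = _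
    have h4 : ((1 : K) ⊗ₜ[k] algebraMap k A c) = algebraMap K (K ⊗[k] A) (algebraMap k K c) := by
      rw [Algebra.TensorProduct.algebraMap_apply, Algebra.algebraMap_eq_smul_one, ← TensorProduct.smul_tmul,
        ← Algebra.algebraMap_eq_smul_one]
      rfl
    rw [h4]
    exact ψ.commutes _

end Pool.Agent.TORE
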