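import Pool.Agent.TORE.Chart

/-! A flat scheme over a domain whose base change to an extension field of the fraction field is
integral is integral. -/

namespace Pool.Agent.TORE

open AlgebraicGeometry CategoryTheory Limits

universe u

open scoped TensorProduct

/-- the coordinate ring of an affine open subset is flat -/
theorem G1_flat {B : Type u} [CommRing B] {Y : Scheme.{u}} (π : Y ⟶ Spec (CommRingCat.of B))
    [Flat π] (V : Y.Opens) (hV : IsAffineOpen V) [Algebra B Γ(Y, V)]
    (halg : algebraMap B Γ(Y, V) =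
      ((Scheme.ΓSpecIso (CommRingCat.of B)).inv ≫ π.appLE ⊤ V le_top).hom) :
    Module.Flat B Γ(Y, V) := by
  rw [← RingHom.flat_algebraMap_iff, halg, CommRingCat.hom_comp]
  exact RingHom.Flat.comp (RingHom.Flat.of_bijective (ConcreteCategory.bijective_of_isIso _))
    (Flat.flat_appLE π (isAffineOpen_top _) hV _)

theorem G1_aux {B : Type u} [CommRing B] [IsDomain B] {Y : Scheme.{u}}
    (π : Y ⟶ Spec (CommRingCat.of B)) [Flat π] {F : Type u} [Field F] [Algebra B F]
    (hi : Function.Injective (algebraMap B F)) [IsIntegral (fib π (algebraMap B F))]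
    (V : Y.Opens) (hV : IsAffineOpen V) (hne : (V : Set Y).Nonempty) :
    IsDomain Γ(Y, V) ∧ ∃ z : fib π (algebraMap B F), fibProj π (algebraMap B F) z ∈ V := by
  let : Algebra B Γ(Y, V) :=
    (((Scheme.ΓSpecIso (CommRingCat.of B)).inv ≫ π.appLE ⊤ V le_top).hom).toAlgebra
  obtain ⟨c, hc, hc1, hc2, hc3⟩ := chart π V hV rfl F
  have hfl : Module.Flat B Γ(Y, V) := G1_flat π V hV rfl
  have hinj : Function.Injective
      (Algebra.TensorProduct.includeRight : Γ(Y, V) →ₐ[B] F ⊗[B] Γ(Y, V)) :=
    Algebra.TensorProduct.includeRight_injective hi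
  have : Nonempty V := hne.to_subtype
  have : Nontrivial Γ(Y, V) := inferInstance
  have : Nontrivial (F ⊗[B] Γ(Y, V)) := hinj.nontrivial
  have hne' : Nonempty (Spec (CommRingCat.of (F ⊗[B] Γ(Y, V)))) :=
    inferInstanceAs (Nonempty (PrimeSpectrum (F ⊗[B] Γ(Y, V))))
  have hI : IsIntegral (Spec (CommRingCat.of (F ⊗[B] Γ(Y, V)))) :=
    isIntegral_of_isOpenImmersion c
  have : IsDomain (F ⊗[B] Γ(Y, V)) := (affine_isIntegral_iff _).mp hI
  refine ⟨hinj.isDomain (Algebra.TensorProduct.includeRight :
    Γ(Y, V) →ₐ[B] F ⊗[B] Γ(Y, V)).toRingHom, ?_⟩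
  obtain ⟨p⟩ := hne'
  refine ⟨c p, ?_⟩
  have h1 : c p ∈ c.opensRange := ⟨p, rfl⟩
  rw [hc3] at h1
  exact h1

/-- Proof. For an affine open set `V = Spec C` of `Y`, `C` is flat over `B`, so `C → F ⊗_B C` is
injective, and `Spec (F ⊗_B C)` is the inverse image of `V` in the integral scheme `fib π i`: so
`F ⊗_B C` is zero or a domain, and `C` is zero or a domain. Also `fib π i → Y` has dense range (its
range meets each nonempty `V`), so `Y` is irreducible. -/
theorem G1 {B : Type u} [CommRing B] [IsDomain B] {Y : Scheme.{u}} (π : Y ⟶ Spec (CommRingCat.of B))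
    [Flat π] {F : Type u} [Field F] (i : B →+* F) (hi : Function.Injective i)
    [IsIntegral (fib π i)] : IsIntegral Y := by
  let : Algebra B F := i.toAlgebra
  have hi' : Function.Injective (algebraMap B F) := hi
  have : IsIntegral (fib π (algebraMap B F)) := inferInstanceAs (IsIntegral (fib π i))
  have key := fun (V : Y.Opens) (hV : IsAffineOpen V) (hne : (V : Set Y).Nonempty) =>
    G1_aux (F := F) π hi' V hV hne
  have hne : ∀ U : Set Y, IsOpen U → U.Nonempty →
      ((fibProj π (algebraMap B F)) ⁻¹' U).Nonempty := by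
    rintro U hU ⟨x, hx⟩
    obtain ⟨V, hV, hxV, hVU⟩ := Y.isBasis_affineOpens.exists_subset_of_mem_open hx hU
    obtain ⟨W, hW, rfl⟩ := hV
    obtain ⟨z, hz⟩ := (key W hW ⟨x, hxV⟩).2
    exact ⟨z, hVU hz⟩
  have hir : IrreducibleSpace Y := by
    have : PreirreducibleSpace Y := by
      apply PreirreducibleSpace.of_forall_nonempty_inter
      intro U V hU hV hU1 hV1
      have h1 := hne U hU hU1
      have h2 := hne V hV hV1
      obtain ⟨z, hz1, hz2⟩ := nonempty_preirreducible_inter
        (hU.preimage (fibProj π (algebraMap B F)).continuous)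
        (hV.preimage (fibProj π (algebraMap B F)).continuous) h1 h2
      exact ⟨_, hz1, hz2⟩
    exact { toNonempty := ⟨fibProj π (algebraMap B F) (Classical.arbitrary _)⟩ }
  have hred : IsReduced Y := by
    have hst : ∀ x : Y, _root_.IsReduced (Y.presheaf.stalk x) := by
      intro x
      obtain ⟨V, hV, hxV, -⟩ := Y.isBasis_affineOpens.exists_subset_of_mem_open (Set.mem_univ x)
        isOpen_univ
      obtain ⟨W, hW, rfl⟩ := hV
      have := (key W hW ⟨x, hxV⟩).1
      let := Y.presheaf.algebra_section_stalk (⟨x, hxV⟩ : W)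
      have := hW.isLocalization_stalk ⟨x, hxV⟩
      exact isReduced_localizationPreserves (hW.primeIdealOf ⟨x, hxV⟩).asIdeal.primeCompl
        (Y.presheaf.stalk ((⟨x, hxV⟩ : W) : Y)) inferInstance
    exact isReduced_of_isReduced_stalk Y
  exact isIntegral_of_irreducibleSpace_of_isReduced Y

end Pool.Agent.TORE
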