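import Pool.Agent.TORE.GDefs

/-! Two domains with 'the same fractions' have isomorphic localisations. -/

namespace Pool.Agent.TORE

universe u

theorem G3a_id {κ : Type u} [CommRing κ] (a b c d z w x : κ) (M N' n N : ℕ) (h1 : b * a ^ M = c)
    (h2 : a * b ^ N' = d) (h3 : z * (b * d) ^ n = w) (h4 : w * a ^ N = x) :
    z * (a * c) ^ ((N' + 1) * n + N) = x * c ^ N * a ^ (N' * n + M * (N' + 1) * n) := by
  rw [← h4, ← h3, ← h2, ← h1]
  ring

theorem G3a_sub {B P Q κ : Type u} [CommRing B] [CommRing P] [IsDomain P] [Algebra B P]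
    [CommRing Q] [IsDomain Q] [Algebra B Q] [Field κ] [Algebra B κ]
    (f : P →ₐ[B] κ) (g : Q →ₐ[B] κ) (q y₀ : Q) (p x₀ : P) (M N' : ℕ)
    (hQ : ∀ y : Q, ∃ (N : ℕ) (x : P), g y * f p ^ N = f x)
    (h1 : g q * f p ^ M = f x₀) (h2 : f p * g q ^ N' = g y₀) (z : κ)
    (hz : ∃ (n : ℕ) (y : Q), z * g (q * y₀) ^ n = g y) :
    ∃ (n : ℕ) (x : P), z * f (p * x₀) ^ n = f x := by
  obtain ⟨n, y, hy⟩ := hz
  obtain ⟨N, x, hx⟩ := hQ y
  refine ⟨(N' + 1) * n + N, x * x₀ ^ N * p ^ (N' * n + M * (N' + 1) * n), ?_⟩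
  rw [map_mul] at hy
  rw [map_mul, map_mul, map_mul, map_pow, map_pow]
  exact G3a_id _ _ _ _ _ _ _ M N' n N h1 h2 hy hx

theorem G3a_loc {B P κ : Type u} [CommRing B] [CommRing P] [IsDomain P] [Algebra B P]
    [Field κ] [Algebra B κ] (f : P →ₐ[B] κ) (hf : Function.Injective f) (h : P) (hh : h ≠ 0) :
    ∃ F : Localization.Away h →ₐ[B] κ, Function.Injective F ∧
      ∀ z, z ∈ F.range ↔ ∃ (n : ℕ) (x : P), z * f h ^ n = f x := by
  have hfh : f h ≠ 0 := by
    intro h0
    exact hh (hf (h0.trans (map_zero f).symm))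
  have hu : ∀ y : Submonoid.powers h, IsUnit (f y) := by
    rintro ⟨_, n, rfl⟩
    simp only [map_pow]
    exact (isUnit_iff_ne_zero.2 hfh).pow n
  let F : Localization.Away h →ₐ[B] κ := IsLocalization.liftAlgHom (M := Submonoid.powers h) (f := f) hu
  have hF : ∀ x, F (algebraMap P _ x) = f x := by
    intro x
    exact IsLocalization.lift_eq _ x
  have hrep : ∀ w : Localization.Away h, ∃ (n : ℕ) (x : P), w * algebraMap P _ h ^ n = algebraMap P _ x := by
    intro w
    obtain ⟨n, x, hx⟩ := IsLocalization.Away.surj h w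
    exact ⟨n, x, hx⟩
  refine ⟨F, ?_, ?_⟩
  · rw [injective_iff_map_eq_zero]
    intro w hw
    obtain ⟨n, x, hx⟩ := hrep w
    have h1 := congrArg F hx
    rw [map_mul, hw, zero_mul, hF] at h1
    have h2 : x = 0 := hf (h1.symm.trans (map_zero f).symm)
    rw [h2, map_zero] at hx
    have h3 : IsUnit (algebraMap P (Localization.Away h) h ^ n) :=
      (IsLocalization.Away.algebraMap_isUnit h).pow n
    exact (h3.mul_left_eq_zero).1 hx
  · intro z
    constructor
    · rintro ⟨w, rfl⟩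
      obtain ⟨n, x, hx⟩ := hrep w
      refine ⟨n, x, ?_⟩
      have h1 := congrArg F hx
      rw [map_mul, map_pow, hF, hF] at h1
      exact h1
    · rintro ⟨n, x, hx⟩
      obtain ⟨w, hw⟩ : ∃ w : Localization.Away h, w * algebraMap P _ h ^ n = algebraMap P _ x := by
        obtain ⟨v, hv⟩ := ((IsLocalization.Away.algebraMap_isUnit h).pow n :
          IsUnit (algebraMap P (Localization.Away h) h ^ n))
        refine ⟨algebraMap P _ x * (v⁻¹ : (Localization.Away h)ˣ), ?_⟩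
        rw [← hv, mul_assoc, Units.inv_mul, mul_one]
      refine ⟨w, ?_⟩
      have h1 := congrArg F hw
      rw [map_mul, map_pow, hF, hF, ← hx] at h1
      exact mul_right_cancel₀ (pow_ne_zero n hfh) h1

/-- Proof. `f p * g q ^ N = g y₀` and `g q * f p ^ M = f x₀`, with `x₀, y₀ ≠ 0`. Put `h = p * x₀`,
`k = q * y₀`. The canonical maps from `Localization.Away h` and from `Localization.Away k` to `κ` are
injective homomorphisms of `B`-algebras and have the same range (the range of the first one contains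
`1 / f p`, `1 / g q`, hence `g Q` and `1 / g k`; the same the other way). -/
theorem G3a {B P Q κ : Type u} [CommRing B] [CommRing P] [IsDomain P] [Algebra B P]
    [CommRing Q] [IsDomain Q] [Algebra B Q] [Field κ] [Algebra B κ]
    (f : P →ₐ[B] κ) (hf : Function.Injective f) (g : Q →ₐ[B] κ) (hg : Function.Injective g)
    (q : Q) (hq : q ≠ 0) (hP : ∀ x : P, ∃ (N : ℕ) (y : Q), f x * g q ^ N = g y)
    (p : P) (hp : p ≠ 0) (hQ : ∀ y : Q, ∃ (N : ℕ) (x : P), g y * f p ^ N = f x) :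
    ∃ (h : P) (k : Q), h ≠ 0 ∧ k ≠ 0 ∧ Nonempty (Localization.Away h ≃ₐ[B] Localization.Away k) := by
  have hfp : f p ≠ 0 := fun h0 => hp (hf (h0.trans (map_zero f).symm))
  have hgq : g q ≠ 0 := fun h0 => hq (hg (h0.trans (map_zero g).symm))
  obtain ⟨N', y₀, h2⟩ := hP p
  obtain ⟨M, x₀, h1⟩ := hQ q
  have hy₀ : y₀ ≠ 0 := by
    rintro rfl
    rw [map_zero] at h2
    exact mul_ne_zero hfp (pow_ne_zero _ hgq) h2
  have hx₀ : x₀ ≠ 0 := by
    rintro rfl
    rw [map_zero] at h1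
    exact mul_ne_zero hgq (pow_ne_zero _ hfp) h1
  obtain ⟨F, hF, hFr⟩ := G3a_loc f hf (p * x₀) (mul_ne_zero hp hx₀)
  obtain ⟨G, hG, hGr⟩ := G3a_loc g hg (q * y₀) (mul_ne_zero hq hy₀)
  refine ⟨p * x₀, q * y₀, mul_ne_zero hp hx₀, mul_ne_zero hq hy₀, ?_⟩
  have hr : F.range = G.range := by
    ext z
    rw [hFr, hGr]
    constructor
    · exact G3a_sub g f p x₀ q y₀ N' M hP h2 h1 z
    · exact G3a_sub f g q y₀ p x₀ M N' hQ h1 h2 z
  exact ⟨(AlgEquiv.ofInjective F hF).trans ((Subalgebra.equivOfEq _ _ hr).trans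
    (AlgEquiv.ofInjective G hG).symm)⟩

end Pool.Agent.TORE
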