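import Pool.Agent.TORE.G4c

/-! A nonempty open subset of an integral scheme, smooth over `B`, is dense in the fibres over a
nonempty open subset of `Spec B`. -/

namespace Pool.Agent.TORE

open AlgebraicGeometry CategoryTheory Limits

universe u

/-- Proof. Cover `Y` by finitely many nonempty affine open sets `V_j`; as `Y` is irreducible,
`U ∩ V_j` is not empty and contains a nonempty basic open set `D(g_j)`. Take for `b` the product of
the elements given by `G4_affine`. -/
theorem G4 {B : Type u} [CommRing B] [IsDomain B] {Y : Scheme.{u}} [IsIntegral Y]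
    (π : Y ⟶ Spec (CommRingCat.of B)) [Smooth π] [QuasiCompact π] (U : Y.Opens)
    (hU : (U : Set Y).Nonempty) :
    ∃ b : B, b ≠ 0 ∧ ∀ (L : Type u) [Field L] (y : B →+* L), y b ≠ 0 →
      Dense ((fibProj π y ⁻¹ᵁ U : (fib π y).Opens) : Set (fib π y)) := by
  have hc : CompactSpace Y := QuasiCompact.compactSpace_of_compactSpace π
  obtain ⟨S, hS, hcov⟩ := isCompact_and_isOpen_iff_finite_and_eq_biUnion_affineOpens.mp
    ⟨isCompact_univ (X := Y), isOpen_univ⟩
  have key : ∀ V : Y.affineOpens, ∃ b : B, b ≠ 0 ∧ ∀ (L : Type u) [Field L] (y : B →+* L),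
      y b ≠ 0 → ((fibProj π y ⁻¹ᵁ V.1 : (fib π y).Opens) : Set (fib π y)) ⊆
        closure ((fibProj π y ⁻¹ᵁ U : (fib π y).Opens) : Set (fib π y)) := by
    rintro ⟨V, hV⟩
    by_cases hne : (V : Set Y).Nonempty
    swap
    · exact ⟨1, one_ne_zero, fun L _ y _ z hz => (hne ⟨_, hz⟩).elim⟩
    obtain ⟨x, hxV, hxU⟩ := nonempty_preirreducible_inter V.2 U.2 hne hU
    obtain ⟨g, hg1, hg2⟩ := hV.exists_basicOpen_le (⟨x, hxU⟩ : U) hxV
    have hg0 : g ≠ 0 := by
      rintro rfl
      rw [Scheme.basicOpen_zero] at hg2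
      exact hg2
    obtain ⟨b, hb, hb1⟩ := G4_affine π V hV g hg0
    refine ⟨b, hb, fun L _ y hy => (hb1 L y hy).trans (closure_mono fun z hz => hg1 hz)⟩
  choose β hβ hβ1 using key
  refine ⟨∏ V ∈ hS.toFinset, β V, Finset.prod_ne_zero_iff.mpr fun V _ => hβ V,
    fun L _ y hy z => ?_⟩
  have hz : fibProj π y z ∈ (⋃ V ∈ S, (V : Set Y)) := by
    rw [← hcov]; exact Set.mem_univ _
  rw [Set.mem_iUnion₂] at hz
  obtain ⟨V, hVS, hzV⟩ := hz
  refine hβ1 V L y ?_ hzV
  rw [map_prod, Finset.prod_ne_zero_iff] at hy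
  exact hy V (hS.mem_toFinset.mpr hVS)

end Pool.Agent.TORE
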