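import Pool.Agent.TORE.G4d

/-! A nonzero element of a domain which is smooth over `B` is a non-zero-divisor in the fibres over a
nonempty open subset: the standard smooth case. -/

namespace Pool.Agent.TORE

open TensorProduct

universe u

/-- Proof. `RingHom.IsStandardSmooth.exists_etale_mvPolynomial` (for `algebraMap B C`): `C` is étale
over `E = B[X_1, ..., X_m]`. Take `n ∈ E` from `G4a_dvd` and let `b` be a nonzero coefficient of `n`. If
the image of `b` in `L` is not `0`, then the image of `n` in `L[X_1, ..., X_m]` is not `0`, and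
`L ⊗_B C = L[X] ⊗_E C` is flat over the domain `L[X]`, so `n` is a non-zero-divisor of `L ⊗_B C`, and so
is its divisor `1 ⊗ g`. -/
theorem G4a {B C : Type u} [CommRing B] [IsDomain B] [CommRing C] [IsDomain C] [Algebra B C]
    [Algebra.IsStandardSmooth B C] (g : C) (hg : g ≠ 0) :
    ∃ b : B, b ≠ 0 ∧ ∀ (L : Type u) [Field L] [Algebra B L], algebraMap B L b ≠ 0 →
      (1 ⊗ₜ[B] g : L ⊗[B] C) ∈ nonZeroDivisors (L ⊗[B] C) := by
  obtain ⟨n, φ, hφ, het⟩ := RingHom.IsStandardSmooth.exists_etale_mvPolynomial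
    (f := algebraMap B C) (by simpa [RingHom.isStandardSmooth_algebraMap])
  algebraize [φ]
  have : IsScalarTower B (MvPolynomial (Fin n) B) C := IsScalarTower.of_algebraMap_eq' hφ.symm
  obtain ⟨p, hp, c, hc⟩ := G4a_dvd (E := MvPolynomial (Fin n) B) g hg
  obtain ⟨s, hs⟩ := MvPolynomial.ne_zero_iff.mp hp
  refine ⟨p.coeff s, hs, fun L _ _ hL => ?_⟩
  -- `p` acts injectively on `E ⊗ L`
  have hp' : MvPolynomial.map (algebraMap B L) p ≠ 0 := by
    rw [MvPolynomial.ne_zero_iff]
    exact ⟨s, by rw [MvPolynomial.coeff_map]; exact hL⟩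
  let e₁ : (MvPolynomial (Fin n) B) ⊗[B] L ≃ₐ[B] L ⊗[B] (MvPolynomial (Fin n) B) :=
    Algebra.TensorProduct.comm B _ _
  let e₂ := MvPolynomial.algebraTensorAlgEquiv (σ := Fin n) B L
  have hsm : ∀ x : (MvPolynomial (Fin n) B) ⊗[B] L, p • x = (p ⊗ₜ[B] (1 : L)) * x := by
    intro x
    induction x using TensorProduct.induction_on with
    | zero => rw [smul_zero, mul_zero]
    | tmul a l => rw [TensorProduct.smul_tmul', Algebra.TensorProduct.tmul_mul_tmul, one_mul,
        smul_eq_mul]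
    | add a b ha hb => rw [smul_add, mul_add, ha, hb]
  have h1 : IsSMulRegular ((MvPolynomial (Fin n) B) ⊗[B] L) p := by
    intro x y hxy
    have h : p • x = p • y := hxy
    rw [hsm, hsm] at h
    have h' := congrArg (fun z => e₂ (e₁ z)) h
    simp only [map_mul] at h'
    have hep : e₂ (e₁ (p ⊗ₜ[B] (1 : L))) = MvPolynomial.map (algebraMap B L) p := by
      simp only [e₁, Algebra.TensorProduct.comm_tmul]
      simp [e₂, MvPolynomial.algebraTensorAlgEquiv_tmul]
    rw [hep] at h'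
    have h'' := mul_left_cancel₀ hp' h'
    exact e₁.injective (e₂.injective h'')
  have h2 : IsSMulRegular (C ⊗[MvPolynomial (Fin n) B] ((MvPolynomial (Fin n) B) ⊗[B] L)) p :=
    IsSMulRegular.lTensor _ h1
  let e₃ := Algebra.TensorProduct.cancelBaseChange B (MvPolynomial (Fin n) B)
    (MvPolynomial (Fin n) B) C L
  let e₄ : L ⊗[B] C ≃ₐ[B] C ⊗[B] L := Algebra.TensorProduct.comm B _ _
  rw [mem_nonZeroDivisors_iff_right]
  intro z hz
  have hz2 : z * ((1 : L) ⊗ₜ[B] (algebraMap (MvPolynomial (Fin n) B) C p)) = 0 := by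
    have : ((1 : L) ⊗ₜ[B] (algebraMap (MvPolynomial (Fin n) B) C p) : L ⊗[B] C) =
        ((1 : L) ⊗ₜ[B] g) * ((1 : L) ⊗ₜ[B] c) := by
      rw [Algebra.TensorProduct.tmul_mul_tmul, one_mul, hc]
    rw [this, ← mul_assoc, hz, zero_mul]
  have hz3 : e₄ z * (algebraMap (MvPolynomial (Fin n) B) C p ⊗ₜ[B] (1 : L)) = 0 := by
    have := congrArg e₄ hz2
    simpa [e₄] using this
  have hz4 : p • (e₄ z) = 0 := by
    rw [Algebra.smul_def, mul_comm]
    exact hz3
  have hz5 : p • (e₃.symm (e₄ z)) = 0 := by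
    rw [← map_smul, hz4, map_zero]
  have hz6 : e₃.symm (e₄ z) = 0 := h2 (by simpa using hz5)
  have hz7 : e₄ z = 0 := by simpa using hz6
  simpa using hz7

end Pool.Agent.TORE
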