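import Pool.Agent.TORE.G4a

/-! A nonzero element of a domain which is smooth over `B` is a non-zero-divisor in the fibres over a
nonempty open subset. -/

namespace Pool.Agent.TORE

open TensorProduct

universe u

theorem G4b_loc {B C : Type u} [CommRing B] [IsDomain B] [CommRing C] [IsDomain C] [Algebra B C]
    (g : C) (hg : g ≠ 0) (f : C) (hf : f ≠ 0) [Algebra.IsStandardSmooth B (Localization.Away f)] :
    ∃ b : B, b ≠ 0 ∧ ∀ (L : Type u) [Field L] [Algebra B L], algebraMap B L b ≠ 0 →
      ∀ z : C ⊗[B] L, z * (g ⊗ₜ[B] 1) = 0 → ∃ n : ℕ, f ^ n • z = 0 := by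
  have hle := powers_le_nonZeroDivisors_of_noZeroDivisors hf
  have : IsDomain (Localization.Away f) := IsLocalization.isDomain_localization hle
  have hinj : Function.Injective (algebraMap C (Localization.Away f)) :=
    IsLocalization.injective _ hle
  have hg' : algebraMap C (Localization.Away f) g ≠ 0 := fun h => hg (hinj (by rw [h, map_zero]))
  obtain ⟨b, hb, H⟩ := G4a (B := B) (algebraMap C (Localization.Away f) g) hg'
  refine ⟨b, hb, fun L _ _ hL z hz => ?_⟩
  have hnzd := H L hL
  let ℓ : C ⊗[B] L →ₗ[C] (Localization.Away f) ⊗[B] L :=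
    TensorProduct.AlgebraTensorModule.rTensor B L (Algebra.linearMap C (Localization.Away f))
  let lam : C ⊗[B] L →ₐ[B] (Localization.Away f) ⊗[B] L :=
    Algebra.TensorProduct.map (IsScalarTower.toAlgHom B C (Localization.Away f)) (AlgHom.id B L)
  have hlam : ∀ y, ℓ y = lam y := by
    intro y
    induction y using TensorProduct.induction_on with
    | zero => simp
    | tmul a c => rfl
    | add x y hx hy => rw [map_add, map_add, hx, hy]
  have h1 : lam z * (algebraMap C (Localization.Away f) g ⊗ₜ[B] 1) = 0 := by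
    have h2 : lam (g ⊗ₜ[B] 1) = algebraMap C (Localization.Away f) g ⊗ₜ[B] 1 := rfl
    rw [← h2, ← map_mul, hz, map_zero]
  have h2 : ℓ z = 0 := by
    rw [hlam]
    apply (Algebra.TensorProduct.comm B (Localization.Away f) L).injective
    rw [map_zero]
    refine (mem_nonZeroDivisors_iff_right.1 hnzd) _ ?_
    have h3 : (1 ⊗ₜ[B] algebraMap C (Localization.Away f) g : L ⊗[B] Localization.Away f) =
        Algebra.TensorProduct.comm B (Localization.Away f) L
          (algebraMap C (Localization.Away f) g ⊗ₜ[B] 1) := rfl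
    rw [h3, ← map_mul, h1, map_zero]
  have h3 : IsLocalizedModule (Submonoid.powers f) ℓ := inferInstance
  obtain ⟨⟨_, n, rfl⟩, hn⟩ := (IsLocalizedModule.eq_zero_iff (Submonoid.powers f) ℓ).1 h2
  exact ⟨n, hn⟩

/-- Proof. There is a finite set `s` of elements of `C`, generating the unit ideal, such that
`Localization.Away f` is standard smooth over `B` for all `f ∈ s`
(`RingHom.smooth_iff_locally_isStandardSmooth`; a finite subset still generates the unit ideal). Omit
`f = 0`. Take for `b` the product of the elements given by `G4a` for the image of `g` in the domain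
`Localization.Away f`. An element of `L ⊗_B C` which is killed by `1 ⊗ g` is killed by a power of each
`1 ⊗ f`, so it is `0`. -/
theorem G4b {B C : Type u} [CommRing B] [IsDomain B] [CommRing C] [IsDomain C] [Algebra B C]
    [Algebra.Smooth B C] (g : C) (hg : g ≠ 0) :
    ∃ b : B, b ≠ 0 ∧ ∀ (L : Type u) [Field L] [Algebra B L], algebraMap B L b ≠ 0 →
      (1 ⊗ₜ[B] g : L ⊗[B] C) ∈ nonZeroDivisors (L ⊗[B] C) := by
  classical
  obtain ⟨s, hs, hst⟩ := Algebra.Smooth.exists_span_eq_top_isStandardSmooth B C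
  obtain ⟨s', hs's, hs'⟩ := (Ideal.span_eq_top_iff_finite s).1 hs
  have h1 : ∀ f : C, ∃ b : B, b ≠ 0 ∧ (f ∈ s → ∀ (L : Type u) [Field L] [Algebra B L],
      algebraMap B L b ≠ 0 → ∀ z : C ⊗[B] L, z * (g ⊗ₜ[B] 1) = 0 → ∃ n : ℕ, f ^ n • z = 0) := by
    intro f
    by_cases hf : f = 0
    · refine ⟨1, one_ne_zero, fun _ L _ _ _ z _ => ⟨1, by rw [hf, pow_one, zero_smul]⟩⟩
    · by_cases hfs : f ∈ s
      · have := hst f hfs
        obtain ⟨b, hb, H⟩ := G4b_loc (B := B) g hg f hf
        exact ⟨b, hb, fun _ => H⟩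
      · exact ⟨1, one_ne_zero, fun h => absurd h hfs⟩
  choose β hβ H using h1
  refine ⟨∏ f ∈ s', β f, Finset.prod_ne_zero_iff.2 fun f _ => hβ f, fun L _ _ hL => ?_⟩
  rw [map_prod, Finset.prod_ne_zero_iff] at hL
  rw [mem_nonZeroDivisors_iff_right]
  intro z hz
  let z' : C ⊗[B] L := Algebra.TensorProduct.comm B L C z
  have hz' : z' * (g ⊗ₜ[B] 1) = 0 := by
    have h3 : (g ⊗ₜ[B] 1 : C ⊗[B] L) = Algebra.TensorProduct.comm B L C (1 ⊗ₜ[B] g) := rfl
    rw [h3, ← map_mul, hz, map_zero]
  let I : Ideal C := LinearMap.ker (LinearMap.toSpanSingleton C (C ⊗[B] L) z')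
  have hI : I = ⊤ := by
    by_contra hI
    obtain ⟨m, hm, hIm⟩ := Ideal.exists_le_maximal I hI
    have h4 : Ideal.span (s' : Set C) ≤ m := by
      rw [Ideal.span_le]
      intro f hf
      obtain ⟨n, hn⟩ := H f (hs's hf) L (hL f hf) z' hz'
      exact hm.isPrime.mem_of_pow_mem n (hIm hn)
    rw [hs'] at h4
    exact hm.ne_top (top_le_iff.1 h4)
  have h5 : (1 : C) ∈ I := by
    rw [hI]
    trivial
  have h6 : (1 : C) • z' = 0 := h5
  rw [one_smul] at h6
  apply (Algebra.TensorProduct.comm B L C).injective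
  rw [map_zero]
  exact h6

end Pool.Agent.TORE
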