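import Pool.Agent.TORE.G4b
import Pool.Agent.TORE.Chart

/-! A basic open subset of an affine open subset is dense in the fibres over a nonempty open subset
of `Spec B`. -/

namespace Pool.Agent.TORE

open AlgebraicGeometry CategoryTheory Limits

universe u

open scoped TensorProduct

/-- the basic open subset of a non-zero-divisor is dense -/
theorem G4c_dense {A : Type u} [CommRing A] (h : A) (hh : h ∈ nonZeroDivisors A) :
    Dense ((PrimeSpectrum.basicOpen h : TopologicalSpace.Opens (PrimeSpectrum A)) :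
      Set (PrimeSpectrum A)) := by
  rw [dense_iff_inter_open]
  rintro U hU ⟨p, hp⟩
  obtain ⟨_, ⟨f, rfl⟩, hpf, hfU⟩ :=
    PrimeSpectrum.isTopologicalBasis_basic_opens.exists_subset_of_mem_open hp hU
  by_contra hne
  rw [Set.not_nonempty_iff_eq_empty] at hne
  have h1 : PrimeSpectrum.basicOpen (f * h) = ⊥ := by
    apply TopologicalSpace.Opens.ext
    rw [PrimeSpectrum.basicOpen_mul]
    apply Set.eq_empty_of_subset_empty
    rw [← hne]
    exact fun q hq => ⟨hfU hq.1, hq.2⟩
  rw [PrimeSpectrum.basicOpen_eq_bot_iff] at h1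
  obtain ⟨n, hn⟩ := h1
  rw [mul_pow] at hn
  have h2 : f ^ n = 0 := (mul_right_mem_nonZeroDivisors_eq_zero_iff (pow_mem hh n)).mp hn
  exact hpf (p.2.mem_of_pow_mem n (by rw [h2]; exact zero_mem _))

/-- the affine case: `W` is the open subset `D(g)` of the affine open set `V`. The inverse image of
`V` in `fib π y` is `Spec (L ⊗_B Γ(Y, V))`, the inverse image of `D(g)` is the basic open subset of
`1 ⊗ g`, a non-zero-divisor by `G4b`; the basic open subset of a non-zero-divisor is dense. -/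
theorem G4_affine {B : Type u} [CommRing B] [IsDomain B] {Y : Scheme.{u}} [IsIntegral Y]
    (π : Y ⟶ Spec (CommRingCat.of B)) [Smooth π] (V : Y.Opens) (hV : IsAffineOpen V)
    (g : Γ(Y, V)) (hg : g ≠ 0) :
    ∃ b : B, b ≠ 0 ∧ ∀ (L : Type u) [Field L] (y : B →+* L), y b ≠ 0 →
      ((fibProj π y ⁻¹ᵁ V : (fib π y).Opens) : Set (fib π y)) ⊆
        closure ((fibProj π y ⁻¹ᵁ (Y.basicOpen g) : (fib π y).Opens) : Set (fib π y)) := by
  by_cases hne : (V : Set Y).Nonempty
  swap
  · refine ⟨1, one_ne_zero, fun L _ y _ z hz => (hne ⟨_, hz⟩).elim⟩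
  have : Nonempty V := hne.to_subtype
  have : IsDomain Γ(Y, V) := inferInstance
  let _ : Algebra B Γ(Y, V) :=
    (((Scheme.ΓSpecIso (CommRingCat.of B)).inv ≫ π.appLE ⊤ V le_top).hom).toAlgebra
  have halg : algebraMap B Γ(Y, V) =
    ((Scheme.ΓSpecIso (CommRingCat.of B)).inv ≫ π.appLE ⊤ V le_top).hom := rfl
  have hsm : Algebra.Smooth B Γ(Y, V) := by
    rw [← RingHom.smooth_algebraMap, halg, CommRingCat.hom_comp]
    exact RingHom.Smooth.comp (RingHom.Smooth.of_bijective (ConcreteCategory.bijective_of_isIso _))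
      (Smooth.smooth_appLE π (isAffineOpen_top _) hV _)
  obtain ⟨b, hb, hb1⟩ := G4b (B := B) g hg
  refine ⟨b, hb, fun L _ y hy z hz => ?_⟩
  let _ : Algebra B L := y.toAlgebra
  have hnz := hb1 L hy
  obtain ⟨c, hc, hc1, hc2, hc3⟩ := chart π V hV halg L
  have hz1 : z ∈ c.opensRange := by rw [hc3]; exact hz
  obtain ⟨p, rfl⟩ := hz1
  have hden := G4c_dense _ hnz
  have hpre : ∀ q : Spec (CommRingCat.of (L ⊗[B] Γ(Y, V))),
      q ∈ PrimeSpectrum.basicOpen ((1 : L) ⊗ₜ[B] g : L ⊗[B] Γ(Y, V)) →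
      c q ∈ fibProj π (algebraMap B L) ⁻¹ᵁ (Y.basicOpen g) := by
    intro q hq
    have h1 : (c ≫ fibProj π (algebraMap B L)) q ∈ Y.basicOpen g := by
      rw [hc2]
      have h2 : Spec.map (CommRingCat.ofHom
          (Algebra.TensorProduct.includeRight (R := B) (A := L) (B := Γ(Y, V))).toRingHom) q ∈
          hV.fromSpec ⁻¹ᵁ (Y.basicOpen g) := by
        rw [hV.fromSpec_preimage_basicOpen]
        exact hq
      exact h2
    exact h1
  have hp : p ∈ closure ((PrimeSpectrum.basicOpen ((1 : L) ⊗ₜ[B] g : L ⊗[B] Γ(Y, V)) :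
      TopologicalSpace.Opens _) : Set (PrimeSpectrum (L ⊗[B] Γ(Y, V)))) := hden p
  exact closure_mono (fun w hw => by
    obtain ⟨q, hq, rfl⟩ := hw
    exact hpre q hq) (image_closure_subset_closure_image c.continuous ⟨p, hp, rfl⟩)

end Pool.Agent.TORE
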