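import Mathlib

/-! Étale extensions of domains are algebraic. -/

namespace Pool.Agent.TORE

universe u

/-- an étale extension of domains is algebraic, so every nonzero element divides a nonzero element of
the base ring (`IsAlgebraic.exists_nonzero_dvd`). [`E → C` is flat, hence injective; the localisation
of `C` at the nonzero elements of `E` is étale over the field `Frac E`, hence finite over it.] -/
theorem G4a_dvd {E C : Type u} [CommRing E] [IsDomain E] [CommRing C] [IsDomain C] [Algebra E C]
    [Algebra.Etale E C] (g : C) (hg : g ≠ 0) : ∃ n : E, n ≠ 0 ∧ g ∣ algebraMap E C n := by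
  let K := FractionRing E
  have hfin : Module.Finite K (TensorProduct E K C) := Algebra.FormallyUnramified.finite_of_free K (TensorProduct E K C)
  have hint : IsIntegral K (Algebra.TensorProduct.includeRight g : TensorProduct E K C) := IsIntegral.of_finite K _
  have hinj : Function.Injective (Algebra.TensorProduct.includeRight : C →ₐ[E] TensorProduct E K C) :=
    Algebra.TensorProduct.includeRight_injective (IsFractionRing.injective E K)
  have halg : IsAlgebraic E (Algebra.TensorProduct.includeRight g : TensorProduct E K C) :=
    (IsFractionRing.isAlgebraic_iff E K (TensorProduct E K C)).2 hint.isAlgebraic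
  have halg' : IsAlgebraic E g := (isAlgebraic_algHom_iff _ hinj).1 halg
  exact halg'.exists_nonzero_dvd (mem_nonZeroDivisors_of_ne_zero hg)

end Pool.Agent.TORE
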